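import Pool.Agent.Helper89_FAR.Far3
import Pool.Agent.Helper61_ANP.Pth
import Pool.Agent.AND2B.Base

/-!
# FAR, part 5: the plateau function of a set, the torus
-/

set_option autoImplicit false

open scoped BigOperators Matrix NNReal

noncomputable section

namespace Pool.Agent.ANR.H89

open Pool.Agent.ANR

/-! ### the plateau function of a finite set -/

/-- If every walk costs at least `c D - r`, there is a plateau function which vanishes on `b` and across the
bonds which touch `b`, and is at least `c D - r - 1` far from `b` (up to the cutoff `N`). -/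
theorem plat_set {X : Type} (adj : X → X → Prop) (hsym : ∀ x y, adj x y → adj y x)
    (D : X → X → ℝ) (dead : Set X) (c r : ℝ)
    (hw : ∀ x y l, ACN.IsWalk adj x y l → c * D x y - r ≤ ACN.cost dead l)
    (b : Finset X) (hb : b.Nonempty) (N : ℕ) :
    ∃ φ : X → ℝ, (∀ x, 0 ≤ φ x) ∧ (∀ x, φ x ≤ N) ∧ (∀ x ∈ b, φ x = 0) ∧
      (∀ y z, adj y z → φ y ≠ φ z → y ∉ dead ∧ z ∉ dead ∧ y ∉ b ∧ z ∉ b ∧ |φ y - φ z| ≤ 1) ∧
      ∀ y, ∃ x ∈ b, min (N : ℝ) (c * D x y - r) - 1 ≤ φ y := by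
  choose f h1 h2 h3 h4 h5 using fun x => ACN.plateau adj hsym D dead c r hw x N
  set m : X → ℕ := fun y => b.inf' hb fun x => f x y with hm
  have hmlip : ∀ y z, adj y z → m z ≤ m y + 1 := fun y z hyz => by
    obtain ⟨x, hx, hxy⟩ := Finset.exists_mem_eq_inf' hb fun x => f x y
    have e1 : m z ≤ f x z := Finset.inf'_le _ hx
    have e2 : m y = f x y := hxy
    have e3 := h4 x y z hyz
    omega
  have hmdead : ∀ y z, adj y z → (y ∈ dead ∨ z ∈ dead) → m z = m y := fun y z hyz hd => by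
    simp only [hm]
    exact Finset.inf'_congr hb rfl fun x _ => h5 x y z hyz hd
  have hmb : ∀ x ∈ b, m x = 0 := fun x hx => by
    have e1 : m x ≤ f x x := Finset.inf'_le _ hx
    rw [h1 x] at e1; omega
  refine ⟨fun y => ((m y - 1 : ℕ) : ℝ), fun x => Nat.cast_nonneg _, fun x => ?_, fun x hx => ?_,
    fun y z hyz hne => ?_, fun y => ?_⟩
  · obtain ⟨x', hx'⟩ := hb
    have e1 : m x ≤ f x' x := Finset.inf'_le _ hx'
    have e2 := h3 x' x
    have e3 : m x - 1 ≤ N := by omega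
    show ((m x - 1 : ℕ) : ℝ) ≤ N
    exact_mod_cast e3
  · have := hmb x hx
    show ((m x - 1 : ℕ) : ℝ) = 0
    rw [this]; simp
  · have e1 := hmlip y z hyz
    have e2 := hmlip z y (hsym y z hyz)
    have hne' : m y - 1 ≠ m z - 1 := fun h => hne (by
      show ((m y - 1 : ℕ) : ℝ) = ((m z - 1 : ℕ) : ℝ)
      rw [h])
    refine ⟨fun hd => ?_, fun hd => ?_, fun hy => ?_, fun hz => ?_, ?_⟩
    · exact hne' (by rw [hmdead y z hyz (Or.inl hd)])
    · exact hne' (by rw [hmdead y z hyz (Or.inr hd)])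
    · have := hmb y hy; omega
    · have := hmb z hz; omega
    · rw [abs_le]
      have e3 : ((m y - 1 : ℕ) : ℝ) ≤ ((m z - 1 : ℕ) : ℝ) + 1 := by
        exact_mod_cast (by omega : m y - 1 ≤ m z - 1 + 1)
      have e4 : ((m z - 1 : ℕ) : ℝ) ≤ ((m y - 1 : ℕ) : ℝ) + 1 := by
        exact_mod_cast (by omega : m z - 1 ≤ m y - 1 + 1)
      constructor <;> linarith
  · obtain ⟨x, hx, hxy⟩ := Finset.exists_mem_eq_inf' hb fun x => f x y
    have e2 : m y = f x y := hxy
    refine ⟨x, hx, ?_⟩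
    have e3 := h2 x y
    have e4 : ((f x y : ℕ) : ℝ) - 1 ≤ ((m y - 1 : ℕ) : ℝ) := by
      rw [e2]
      have : (f x y : ℝ) ≤ ((f x y - 1 : ℕ) : ℝ) + 1 := by
        exact_mod_cast (by omega : f x y ≤ f x y - 1 + 1)
      linarith
    linarith

/-! ### the torus -/

open Pool.Agent.BED (Tor adj ev)
open Pool.Agent.ANP (Cfg)
open Pool.Agent.AND2B

variable {d M : ℕ} [NeZero M]

theorem adj_nonneg (x y : Tor d M) : 0 ≤ adj d M x y := by
  unfold adj
  rw [Matrix.of_apply]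
  exact Finset.sum_nonneg fun i _ => add_nonneg (by split <;> norm_num) (by split <;> norm_num)

theorem adj_row (x : Tor d M) : ∑ y, adj d M x y = 2 * d := by
  unfold adj
  simp only [Matrix.of_apply]
  rw [Finset.sum_comm]
  have : ∀ i : Fin d, ∑ y : Tor d M, ((if y = x + ev i then (1 : ℝ) else 0) +
      (if y = x - ev i then (1 : ℝ) else 0)) = 2 := fun i => by
    rw [Finset.sum_add_distrib, Finset.sum_ite_eq', Finset.sum_ite_eq', if_pos (Finset.mem_univ _),
      if_pos (Finset.mem_univ _)]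
    norm_num
  rw [Finset.sum_congr rfl fun i _ => this i]
  simp [mul_comm]

theorem adj_symm (x y : Tor d M) : adj d M x y = adj d M y x := by
  unfold adj
  simp only [Matrix.of_apply]
  refine Finset.sum_congr rfl fun i _ => ?_
  rw [add_comm]
  congr 1
  · have : (y = x - ev i) ↔ (x = y + ev i) := by
      constructor
      · intro h; rw [h]; abel
      · intro h; rw [h]; abel
    simp only [this]
  · have : (y = x + ev i) ↔ (x = y - ev i) := by
      constructor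
      · intro h; rw [h]; abel
      · intro h; rw [h]; abel
    simp only [this]

/-- `x` and `y` are neighbours -/
def Nb (x y : Tor d M) : Prop := ∃ i, y = x + ev i ∨ y = x - ev i

theorem Nb.symm {x y : Tor d M} (h : Nb x y) : Nb y x := by
  obtain ⟨i, h | h⟩ := h
  · exact ⟨i, Or.inr (by rw [h]; abel)⟩
  · exact ⟨i, Or.inl (by rw [h]; abel)⟩

theorem nb_of_adj {x y : Tor d M} (h : adj d M x y ≠ 0) : Nb x y := by
  by_contra hn
  apply h
  unfold adj
  rw [Matrix.of_apply]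
  refine Finset.sum_eq_zero fun i _ => ?_
  rw [if_neg fun h => hn ⟨i, Or.inl h⟩, if_neg fun h => hn ⟨i, Or.inr h⟩, add_zero]

theorem hr_off (V : Tor d M → ℝ) (E : ℝ) {x y : Tor d M} (hxy : x ≠ y) :
    Hr V E x y = adj d M x y := by
  unfold Hr
  rw [Matrix.add_apply, Matrix.diagonal_apply_ne _ hxy, add_zero]

theorem hr_symm (V : Tor d M → ℝ) (E : ℝ) (x y : Tor d M) : Hr V E x y = Hr V E y x := by
  by_cases h : x = y
  · rw [h]
  · rw [hr_off V E h, hr_off V E (Ne.symm h), adj_symm]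

/-- plateau functions on the torus -/
theorem plt_tor (V : Tor d M → ℝ) (E : ℝ) {φ : Tor d M → ℝ} {S : Finset (Tor d M)}
    (h0 : ∀ x, 0 ≤ φ x)
    (h1 : ∀ x y, Nb x y → φ x ≠ φ y → x ∈ S ∧ y ∈ S ∧ |φ x - φ y| ≤ 1) :
    Plt (Hr V E) φ S (2 * d) where
  nn := h0
  lip := fun x y hH hne => by
    have hxy : x ≠ y := fun h => hne (by rw [h])
    rw [hr_off V E hxy] at hH
    exact h1 x y (nb_of_adj hH) hne
  row := fun x _ => by
    rw [← adj_row x]
    refine Finset.sum_le_sum fun y _ => ?_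
    split
    · exact adj_nonneg x y
    · rename_i hne
      rw [hr_off V E (Ne.symm hne), abs_of_nonneg (adj_nonneg x y)]

theorem net_tor (E e₀ : ℝ) (T : Cfg (Tor d M)) (he : 0 < e₀)
    (hm : ∀ x, 0 ≤ (T.s x : ℝ) * (T.mb x).im) : ANR.Net (Hr (Vef T) E) (kap e₀ T) where
  sym := hr_symm _ _
  pos := fun x => by
    unfold kap
    have := hm x
    linarith

/-- two configurations which agree off `F` -/
theorem off_tor (E e₀ : ℝ) (T T' : Cfg (Tor d M)) (F : Finset (Tor d M))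
    (h : ∀ x, x ∉ F → T'.V x = T.V x ∧ T'.s x = T.s x ∧ T'.mb x = T.mb x) :
    ANR.Off (Hr (Vef T) E) (kap e₀ T) (Hr (Vef T') E) (kap e₀ T') F := fun x hx => by
  obtain ⟨h1, h2, h3⟩ := h x hx
  refine ⟨?_, fun y => ?_⟩
  · unfold kap; rw [h2, h3]
  · unfold Hr
    rw [Matrix.add_apply, Matrix.add_apply]
    congr 1
    by_cases hxy : x = y
    · subst hxy
      rw [Matrix.diagonal_apply_eq, Matrix.diagonal_apply_eq]
      unfold Vef; rw [h1, h2, h3]
    · rw [Matrix.diagonal_apply_ne _ hxy, Matrix.diagonal_apply_ne _ hxy]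

/-- FAR on the torus: all the hypotheses in the language of AND2B -/
theorem upd_tor {E e₀ k₀ β : ℝ} {T T' : Cfg (Tor d M)} {F A S : Finset (Tor d M)}
    {φ : Tor d M → ℝ} (he : 0 < e₀) (hm : ∀ x, 0 ≤ (T.s x : ℝ) * (T.mb x).im)
    (hm' : ∀ x, 0 ≤ (T'.s x : ℝ) * (T'.mb x).im)
    (hoff : ∀ x, x ∉ F → T'.V x = T.V x ∧ T'.s x = T.s x ∧ T'.mb x = T.mb x)
    (h0 : ∀ x, 0 ≤ φ x) (hF : ∀ x ∈ F, φ x = 0)
    (h1 : ∀ x y, Nb x y → φ x ≠ φ y → x ∈ S ∧ y ∈ S ∧ |φ x - φ y| ≤ 1)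
    (hSF : Disjoint S F) (hS : ∀ x ∈ S, k₀ ≤ kap e₀ T x)
    (hA : ∀ x ∈ A, k₀ ≤ kap e₀ T x ∧ k₀ ≤ kap e₀ T' x) (hk : 0 < k₀) (hβ : 0 ≤ β)
    (hc : Real.sinh β * (2 * d) ≤ k₀ / 2) :
    Upd (Hr (Vef T) E) (Hr (Vef T') E) (kap e₀ T) (kap e₀ T') φ F A S (2 * d) k₀ β where
  n := net_tor E e₀ T he hm
  n' := net_tor E e₀ T' he hm'
  off := off_tor E e₀ T T' F hoff
  plt := plt_tor _ _ h0 h1
  hβ := hβ
  hc := hc
  hk₀ := hk
  hF := hF
  hSF := hSF
  hkS := hS
  hA := hA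

end Pool.Agent.ANR.H89
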