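import Pool.Agent.Helper89_FAR.Plt
import Pool.Agent.AND2B.Top

/-!
# FAR, part 6: the geometry of the protocol
-/

set_option autoImplicit false

open scoped BigOperators Matrix NNReal

noncomputable section

namespace Pool.Agent.ANR.H89

open Pool.Agent.ANR
open Pool.Agent.BED (Tor adj ev)
open Pool.Agent.ANP (Cfg)
open Pool.Agent.AND2B

theorem sinh_le_two_mul {x : ℝ} (h0 : 0 ≤ x) (h1 : x ≤ 1) : Real.sinh x ≤ 2 * x := by
  rw [Real.sinh_eq]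
  have e1 := abs_le.1 (Real.abs_exp_sub_one_sub_id_le (by rw [abs_of_nonneg h0]; exact h1))
  have e2 := Real.add_one_le_exp (-x)
  nlinarith [e1.2]

variable {d μ J N : ℕ} {l r : ℕ → ℕ}

theorem nb_D {x y : Tor d (2 ^ μ)} (h : Nb x y) : (Gt d μ J N l r).D x y ≤ 1 := by
  show ANP.H61.sd x y ≤ 1
  rw [ANP.H61.sd_le]
  obtain ⟨i, h⟩ := h
  intro j
  have hx : ∃ k : ℤ, x j - y j = (k : ZMod (2 ^ μ)) ∧ k.natAbs ≤ 1 := by
    rcases h with h | h
    · by_cases hj : j = i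
      · refine ⟨-1, ?_, by simp⟩
        rw [h, hj]; unfold ev; simp
      · refine ⟨0, ?_, by simp⟩
        rw [h]; unfold ev; simp [Pi.single_eq_of_ne hj]
    · by_cases hj : j = i
      · refine ⟨1, ?_, by simp⟩
        rw [h, hj]; unfold ev; simp
      · refine ⟨0, ?_, by simp⟩
        rw [h]; unfold ev; simp [Pi.single_eq_of_ne hj]
  obtain ⟨k, hk, hk1⟩ := hx
  exact (ANP.H61.cd_le _ _ k hk).trans hk1

/-- FAR in the geometry of the protocol: `T` and `T'` agree off `F`; the dead sites of `T` are sparse. The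
lower bound of `φ` is half the distance from `F`, minus a constant, up to the cutoff `N₀`. -/
theorem upd_geo (hl : Monotone l) {E e₀ k₀ : ℝ} {T T' : Cfg (Tor d (2 ^ μ))}
    {F : Finset (Tor d (2 ^ μ))} (hFne : F.Nonempty) {n : ℕ} {Dn : ℕ → ℕ} (he : 0 < e₀)
    (hm : ∀ x, 0 ≤ (T.s x : ℝ) * (T.mb x).im) (hm' : ∀ x, 0 ≤ (T'.s x : ℝ) * (T'.mb x).im)
    (hoff : ∀ x, x ∉ F → T'.V x = T.V x ∧ T'.s x = T.s x ∧ T'.mb x = T.mb x)
    (dens : ∃ dd : ℕ → Finset (Tor d (2 ^ μ)), (∀ x, T.s x = 0 → ∃ j ≤ n, x ∈ dd j) ∧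
      ∀ j B, (dd j ∩ (Gt d μ J N l r).blk j B).card ≤ Dn j)
    (hsum : ∑ i ∈ Finset.range (n + 1), (3 ^ d * Dn i : ℝ) / 2 ^ l i ≤ 1 / 4)
    (hk : 0 < k₀) (hk1 : k₀ ≤ 1) (hal : ∀ x, T.s x ≠ 0 → k₀ ≤ kap e₀ T x)
    (hal' : ∀ x, T'.s x ≠ 0 → k₀ ≤ kap e₀ T' x) (N₀ : ℕ) :
    ∃ φ : Tor d (2 ^ μ) → ℝ,
      Upd (Hr (Vef T) E) (Hr (Vef T') E) (kap e₀ T) (kap e₀ T') φ F
        (Finset.univ.filter fun x => T.s x ≠ 0 ∧ T'.s x ≠ 0)
        ((Finset.univ.filter fun x => T.s x ≠ 0) \ F) (2 * d) k₀ (k₀ / (8 * d)) ∧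
      (∀ x, φ x ≤ N₀) ∧
      ∀ y, ∃ x ∈ F, min (N₀ : ℝ) (1 / 2 * (Gt d μ J N l r).D x y -
        (1 + 2 * ∑ i ∈ Finset.range (n + 1), (3 ^ d * Dn i : ℝ))) - 1 ≤ φ y := by
  obtain ⟨dd, hdd, hcard⟩ := dens
  set Γ := Gt d μ J N l r with hΓ
  have hG : ANP.GeoOk Γ d := ANP.H61.trg d μ l _ hl J N
  obtain ⟨φ, h0, hN, hb, hlip, hlow⟩ := plat_set (fun x y : Tor d (2 ^ μ) => Nb x y)
    (fun x y h => h.symm) (fun x y => (Γ.D x y : ℝ))
    (↑((Finset.range (n + 1)).biUnion dd) : Set (Tor d (2 ^ μ))) (1 / 2)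
    (1 + 2 * ∑ i ∈ Finset.range (n + 1), (3 ^ d * Dn i : ℝ))
    (fun x y w hw => ANP.H61.pth Γ d hG (fun i => Nat.one_le_two_pow) (fun x y => Nb x y)
      (fun x y h => nb_D h) (Finset.range (n + 1)) dd Dn (fun i _ B => hcard i B)
      (by
        refine le_trans (le_of_eq ?_) hsum
        refine Finset.sum_congr rfl fun i _ => ?_
        have : ((Γ.L i : ℕ) : ℝ) = 2 ^ l i := by
          show ((2 ^ l i : ℕ) : ℝ) = 2 ^ l i
          push_cast; rfl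
        rw [this]) x y w hw) F hFne N₀
  have halive : ∀ x, x ∉ (↑((Finset.range (n + 1)).biUnion dd) : Set (Tor d (2 ^ μ))) →
      T.s x ≠ 0 := fun x hx h => hx (by
    obtain ⟨j, hj, hxj⟩ := hdd x h
    rw [Finset.mem_coe, Finset.mem_biUnion]
    exact ⟨j, Finset.mem_range.2 (by omega), hxj⟩)
  have hmemS : ∀ x, x ∉ (↑((Finset.range (n + 1)).biUnion dd) : Set (Tor d (2 ^ μ))) → x ∉ F →
      x ∈ ((Finset.univ.filter fun x => T.s x ≠ 0) \ F) := fun x hx hxF => by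
    rw [Finset.mem_sdiff, Finset.mem_filter]
    exact ⟨⟨Finset.mem_univ _, halive x hx⟩, hxF⟩
  refine ⟨φ, upd_tor he hm hm' hoff h0 hb (fun x y hxy hne => ?_) ?_ (fun x hx => ?_)
    (fun x hx => ?_) hk (by positivity) ?_, hN, hlow⟩
  · obtain ⟨a1, a2, a3, a4, a5⟩ := hlip x y hxy hne
    exact ⟨hmemS x a1 a3, hmemS y a2 a4, a5⟩
  · exact Finset.sdiff_disjoint
  · rw [Finset.mem_sdiff, Finset.mem_filter] at hx
    exact hal x hx.1.2
  · rw [Finset.mem_filter] at hx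
    exact ⟨hal x hx.2.1, hal' x hx.2.2⟩
  · rcases Nat.eq_zero_or_pos d with hd | hd
    · subst hd; simp; linarith
    · have hd' : (1 : ℝ) ≤ d := by exact_mod_cast hd
      have e1 : k₀ / (8 * d) ≤ 1 := by
        rw [div_le_one (by positivity)]; linarith
      have e2 := sinh_le_two_mul (by positivity : 0 ≤ k₀ / (8 * d)) e1
      calc Real.sinh (k₀ / (8 * d)) * (2 * d) ≤ 2 * (k₀ / (8 * d)) * (2 * d) :=
            mul_le_mul_of_nonneg_right e2 (by positivity)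
        _ = k₀ / 2 := by field_simp; norm_num
        _ ≤ _ := le_rfl

end Pool.Agent.ANR.H89
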