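import Pool.Agent.Helper89_FAR.Hf
import Pool.Agent.Helper89_FAR.Geo

/-!
# FAR: the dyadic torus has the geometry
-/

set_option autoImplicit false

noncomputable section

namespace Pool.Agent.ANR.H89

open Pool.Agent.AND2B

theorem geoF_T (d μ J N : ℕ) (l r : ℕ → ℕ) (hl : Monotone l) : GeoF (Gt d μ J N l r) where
  ok := ANP.H61.trg d μ l _ hl J N
  one := fun _ => Nat.one_le_two_pow
  nb := fun _ _ h => nb_D h

end Pool.Agent.ANR.H89
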