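import Pool.Agent.Helper89_FAR.Hf

/-!
# FAR, part 8: `loc` and `hold` of the block lemma
-/

set_option autoImplicit false

open scoped BigOperators Matrix NNReal

noncomputable section

namespace Pool.Agent.ANR.H89

open Pool.Agent.ANR
open Pool.Agent.BED (Tor adj ev)
open Pool.Agent.ANP (Cfg Geo Fc)
open Pool.Agent.AND2B (Hr Vef kap net res)
open Pool.Agent.AHH (Env Al gg)
open Pool.Agent.LE.QF (KK)

section gen

variable {X : Type} [Fintype X] [DecidableEq X]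
variable {H H' : Matrix X X ℝ} {κ κ' φ : X → ℝ} {F A S : Finset X} {h₀ k₀ β : ℝ}

/-- `loc` of the block lemma, first part -/
theorem Upd.loc (h : Upd H H' κ κ' φ F A S h₀ k₀ β) {x : X} (hx : x ∈ A) (hxF : x ∉ F)
    (hFA : F ⊆ A) :
    ∑ c ∈ F, KK (Gr H' κ') x c ^ 2 ≤ 4 / k₀ ^ 4 * Real.exp (-(2 * β * φ x)) ∧
    ‖Gr H' κ' x x - Gr H κ x x‖ ≤ 4 / k₀ * Real.exp (-(2 * β * φ x)) := by
  have hk := h.hk₀
  constructor
  · obtain ⟨_, _, h3⟩ := h.mass hxF
    have e1 : ∑ c ∈ F, KK (Gr H' κ') x c ≤ 2 / k₀ ^ 2 * Real.exp (-(2 * β * φ x)) := by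
      have e2 : k₀ * ∑ c ∈ F, KK (Gr H' κ') x c ≤ ∑ b ∈ F, κ' b * ‖Gr H' κ' b x‖ ^ 2 := by
        rw [Finset.mul_sum]
        refine Finset.sum_le_sum fun c hc => ?_
        unfold KK
        rw [(hGeq X H' κ' h.n').2.1 x c]
        exact mul_le_mul_of_nonneg_right (h.hA c (hFA hc)).2 (sq_nonneg _)
      have e3 : 2 / κ x * Real.exp (-(2 * β * φ x)) ≤ 2 / k₀ * Real.exp (-(2 * β * φ x)) := by
        refine mul_le_mul_of_nonneg_right ?_ (Real.exp_pos _).le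
        exact div_le_div_of_nonneg_left (by norm_num) hk (h.hA x hx).1
      have e4 := e2.trans (h3.trans e3)
      have e5 : ∑ c ∈ F, KK (Gr H' κ') x c = 1 / k₀ * (k₀ * ∑ c ∈ F, KK (Gr H' κ') x c) := by
        field_simp
      rw [e5]
      refine (mul_le_mul_of_nonneg_left e4 (by positivity)).trans (le_of_eq ?_)
      field_simp
    have e6 : ∑ c ∈ F, KK (Gr H' κ') x c ^ 2 ≤ (∑ c ∈ F, KK (Gr H' κ') x c) ^ 2 :=
      Finset.sum_sq_le_sq_sum_of_nonneg fun c _ => by unfold KK; exact sq_nonneg _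
    refine e6.trans ((pow_le_pow_left₀ (Finset.sum_nonneg fun c _ => by
      unfold KK; exact sq_nonneg _) e1 2).trans ?_)
    have e7 : (2 / k₀ ^ 2 * Real.exp (-(2 * β * φ x))) ^ 2 =
        4 / k₀ ^ 4 * (Real.exp (-(2 * β * φ x)) * Real.exp (-(2 * β * φ x))) := by
      field_simp; norm_num
    rw [e7]
    refine mul_le_mul_of_nonneg_left ?_ (by positivity)
    have e8 : Real.exp (-(2 * β * φ x)) ≤ 1 := by
      rw [Real.exp_le_one_iff]
      have := mul_nonneg h.hβ (h.plt.nn x)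
      linarith
    nlinarith [Real.exp_pos (-(2 * β * φ x))]
  · have e1 := h.ent hx hx (fun hh => hxF hh.1)
    have e2 : -(β * (φ x + φ x)) = -(2 * β * φ x) := by ring
    rwa [e2] at e1

end gen

variable {d M : ℕ} [NeZero M]

/-- the flux to a set `Old` of sites, if the absorption is at least `σ` in its neighbourhood of radius
`R` (dead sites of the levels `I` excepted) and `c` is outside of this neighbourhood -/
theorem old_flux {Γ : Geo (Tor d M)} (hΓ : GeoF Γ) {E e₀ σ : ℝ} {T : Cfg (Tor d M)} (he : 0 < e₀)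
    (hm : ∀ x, 0 ≤ (T.s x : ℝ) * (T.mb x).im) {I : Finset ℕ} {Dn : ℕ → ℕ}
    {dd : ℕ → Finset (Tor d M)} (hcard : ∀ j ∈ I, ∀ B, (dd j ∩ Γ.blk j B).card ≤ Dn j)
    (hsum : ∑ i ∈ I, (3 ^ d * Dn i : ℝ) / Γ.L i ≤ 1 / 4) (hσ : 0 < σ) (hσ1 : σ ≤ 1)
    {Old : Finset (Tor d M)} {R N₀ : ℕ}
    (hold : ∀ x ∈ Old, ∀ y, Γ.D x y ≤ R → (∃ j ∈ I, y ∈ dd j) ∨ σ ≤ kap e₀ T y)
    (hN₀ : (N₀ : ℝ) ≤ 1 / 2 * (R - 1) - cI d Dn I) {c : Tor d M}
    (hc : ∀ x ∈ Old, R ≤ Γ.D x c) :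
    ∑ x ∈ Old, kap e₀ T x * KK (net E e₀ T) x c ≤
      2 / kap e₀ T c * Real.exp (-(σ / (4 * d) * N₀)) := by
  have hN := net_tor E e₀ T he hm
  have hκc := hN.pos c
  rcases Finset.eq_empty_or_nonempty Old with hO | hO
  · rw [hO, Finset.sum_empty]; positivity
  -- the plateau distance from Old
  choose f h1 h2 h3 h4 h5 using fun x => ACN.plateau (fun x y : Tor d M => Nb x y)
    (fun x y h => h.symm) (fun x y => (Γ.D x y : ℝ)) (↑(I.biUnion dd) : Set (Tor d M)) (1 / 2)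
    (1 + 2 * ∑ i ∈ I, (3 ^ d * Dn i : ℝ))
    (fun x y w hw => ANP.H61.pth Γ d hΓ.ok hΓ.one (fun x y => Nb x y) hΓ.nb I dd Dn
      (fun i hi B => hcard i hi B) hsum x y w hw) x N₀
  set m : Tor d M → ℕ := fun y => Old.inf' hO fun x => f x y with hm'
  have hmN : ∀ y, m y ≤ N₀ := fun y => by
    obtain ⟨x, hx⟩ := hO
    exact (Finset.inf'_le _ hx).trans (h3 x y)
  have hmlip : ∀ y z, Nb y z → m z ≤ m y + 1 := fun y z hyz => by
    obtain ⟨x, hx, hxy⟩ := Finset.exists_mem_eq_inf' hO fun x => f x y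
    have e1 : m z ≤ f x z := Finset.inf'_le _ hx
    have e2 : m y = f x y := hxy
    have e3 := h4 x y z hyz
    omega
  have hmdead : ∀ y z, Nb y z → (y ∈ (↑(I.biUnion dd) : Set (Tor d M)) ∨
      z ∈ (↑(I.biUnion dd) : Set (Tor d M))) → m z = m y := fun y z hyz hd => by
    simp only [hm']
    exact Finset.inf'_congr hO rfl fun x _ => h5 x y z hyz hd
  have hm0 : ∀ x ∈ Old, m x = 0 := fun x hx => by
    have e1 : m x ≤ f x x := Finset.inf'_le _ hx
    rw [h1 x] at e1; omega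
  -- far from Old
  have hfar : ∀ y, (∀ x ∈ Old, R ≤ Γ.D x y + 1) → m y = N₀ := fun y hy => by
    refine le_antisymm (hmN y) ?_
    refine Finset.le_inf' hO _ fun x hx => ?_
    have e1 := h2 x y
    have e2 : (R : ℝ) ≤ Γ.D x y + 1 := by exact_mod_cast hy x hx
    have e3 : (N₀ : ℝ) ≤ 1 / 2 * (Γ.D x y : ℝ) - (1 + 2 * ∑ i ∈ I, (3 ^ d * Dn i : ℝ)) := by
      unfold cI at hN₀; linarith
    rw [min_eq_left e3] at e1
    exact_mod_cast e1
  set φ : Tor d M → ℝ := fun y => ((N₀ - m y : ℕ) : ℝ) with hφ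
  set S : Finset (Tor d M) := Finset.univ.filter fun y => σ ≤ kap e₀ T y with hS
  have hlip : ∀ x y, Nb x y → φ x ≠ φ y → x ∈ S ∧ y ∈ S ∧ |φ x - φ y| ≤ 1 :=
    fun y z hyz hne => by
      have hne' : m y ≠ m z := fun h => hne (by simp only [hφ]; rw [h])
      have hyd : ¬ (y ∈ (↑(I.biUnion dd) : Set (Tor d M)) ∨
          z ∈ (↑(I.biUnion dd) : Set (Tor d M))) := fun hd => hne' (hmdead y z hyz hd).symm
      push Not at hyd
      have hnd : ∀ y, y ∉ (↑(I.biUnion dd) : Set (Tor d M)) → ¬ ∃ j ∈ I, y ∈ dd j :=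
        fun y hy hh => hy (by
          obtain ⟨j, hj, hyj⟩ := hh
          rw [Finset.mem_coe, Finset.mem_biUnion]; exact ⟨j, hj, hyj⟩)
      have hex : ∃ x ∈ Old, Γ.D x y ≤ R ∧ Γ.D x z ≤ R := by
        by_contra hcon
        push Not at hcon
        have hD : Γ.D y z ≤ 1 := hΓ.nb y z hyz
        have e1 : ∀ x ∈ Old, R ≤ Γ.D x y + 1 ∧ R ≤ Γ.D x z + 1 := fun x hx => by
          have t1 := hΓ.ok.tri x y z
          have t2 := hΓ.ok.tri x z y
          rw [hΓ.ok.comm z y] at t2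
          by_cases hxy : Γ.D x y ≤ R
          · have := hcon x hx hxy; omega
          · omega
        exact hne' (by rw [hfar y fun x hx => (e1 x hx).1, hfar z fun x hx => (e1 x hx).2])
      obtain ⟨x, hx, hxy, hxz⟩ := hex
      refine ⟨?_, ?_, ?_⟩
      · rw [hS, Finset.mem_filter]
        refine ⟨Finset.mem_univ _, ?_⟩
        rcases hold x hx y hxy with hh | hh
        · exact absurd hh (hnd y hyd.1)
        · exact hh
      · rw [hS, Finset.mem_filter]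
        refine ⟨Finset.mem_univ _, ?_⟩
        rcases hold x hx z hxz with hh | hh
        · exact absurd hh (hnd z hyd.2)
        · exact hh
      · have e1 := hmlip y z hyz
        have e2 := hmlip z y hyz.symm
        have e3 := hmN y
        have e4 := hmN z
        simp only [hφ]
        rw [abs_le]
        have e5 : ((N₀ - m y : ℕ) : ℝ) ≤ ((N₀ - m z : ℕ) : ℝ) + 1 := by
          exact_mod_cast (by omega : N₀ - m y ≤ N₀ - m z + 1)
        have e6 : ((N₀ - m z : ℕ) : ℝ) ≤ ((N₀ - m y : ℕ) : ℝ) + 1 := by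
          exact_mod_cast (by omega : N₀ - m z ≤ N₀ - m y + 1)
        constructor <;> linarith
  have hP : Plt (Hr (Vef T) E) φ S (2 * d) := plt_tor _ _ (fun x => Nat.cast_nonneg _) hlip
  have hcφ : φ c = 0 := by
    have := hfar c fun x hx => (hc x hx).trans (Nat.le_succ _)
    simp only [hφ]; rw [this]; simp
  have hβc : Real.sinh (σ / (8 * d)) * (2 * d) ≤ σ / 2 := by
    rcases Nat.eq_zero_or_pos d with hd | hd
    · subst hd; simp; linarith
    · have hd' : (1 : ℝ) ≤ d := by exact_mod_cast hd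
      have e1 : σ / (8 * d) ≤ 1 := by
        rw [div_le_one (by positivity)]; linarith
      have h0 : 0 ≤ σ / (8 * d) := by positivity
      have e2 : Real.sinh (σ / (8 * d)) ≤ 2 * (σ / (8 * d)) := by
        rw [Real.sinh_eq]
        have e1 := abs_le.1 (Real.abs_exp_sub_one_sub_id_le
          (by rw [abs_of_nonneg h0]; exact e1))
        have e2 := Real.add_one_le_exp (-(σ / (8 * d)))
        nlinarith [e1.2]
      calc Real.sinh (σ / (8 * d)) * (2 * d) ≤ 2 * (σ / (8 * d)) * (2 * d) :=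
            mul_le_mul_of_nonneg_right e2 (by positivity)
        _ = σ / 2 := by field_simp; norm_num
  have hw := wwd hN hP (by positivity : 0 ≤ σ / (8 * d)) hβc
    (fun x hx => by rw [hS, Finset.mem_filter] at hx; exact hx.2) hcφ
  have hG := hGeq (Tor d M) (Hr (Vef T) E) (kap e₀ T) hN
  have hnet : net E e₀ T = Gr (Hr (Vef T) E) (kap e₀ T) := rfl
  have e1 : Real.exp (σ / (4 * d) * N₀) * ∑ x ∈ Old, kap e₀ T x * KK (net E e₀ T) x c ≤
      ∑ b, kap e₀ T b * (Real.exp (2 * (σ / (8 * d)) * φ b) *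
        ‖Gr (Hr (Vef T) E) (kap e₀ T) c b‖ ^ 2) := by
    rw [Finset.mul_sum]
    refine le_trans (Finset.sum_le_sum fun x hx => ?_) (Finset.sum_le_univ_sum_of_nonneg
      (s := Old) fun b => mul_nonneg (hN.pos b).le
        (mul_nonneg (Real.exp_pos _).le (sq_nonneg _)))
    have e2 : φ x = N₀ := by simp only [hφ]; rw [hm0 x hx]; simp
    have e3 : 2 * (σ / (8 * d)) * φ x = σ / (4 * d) * N₀ := by
      rw [e2]
      rcases Nat.eq_zero_or_pos d with hd | hd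
      · subst hd; simp
      · have hd' : (0 : ℝ) < d := by exact_mod_cast hd
        field_simp; ring
    rw [e3]
    unfold KK
    rw [hnet, hG.2.1 x c]
    exact le_of_eq (by ring)
  have e4 : (Gr (Hr (Vef T) E) (kap e₀ T) c c).im ≤ 1 / kap e₀ T c := im_le hN hκc le_rfl
  have e5 := e1.trans (hw.trans (mul_le_mul_of_nonneg_left e4 (by norm_num)))
  have hE := Real.exp_pos (σ / (4 * d) * N₀)
  rw [Real.exp_neg]
  have e6 : ∑ x ∈ Old, kap e₀ T x * KK (net E e₀ T) x c = (Real.exp (σ / (4 * d) * N₀))⁻¹ *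
      (Real.exp (σ / (4 * d) * N₀) * ∑ x ∈ Old, kap e₀ T x * KK (net E e₀ T) x c) := by
    field_simp
  rw [e6]
  refine (mul_le_mul_of_nonneg_left e5 (inv_pos.2 hE).le).trans (le_of_eq ?_)
  ring

/-- the invariant on the old sites (helper93, helper14): super-stage `m + 1` -/
def OldOk (V : Env d M) (m : ℕ) (T : Cfg (Tor d M)) : Prop :=
  ∃ dd : ℕ → Finset (Tor d M), (∀ j B, (dd j ∩ V.Γ.blk j B).card ≤ V.Dn j) ∧
    ∀ x, V.cl (V.kk m) < T.s x → ∀ y, V.Γ.D x y ≤ 3 * V.Γ.ρ m →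
      (T.s y = 0 ∧ ∃ j ≤ m, y ∈ dd j) ∨ V.cl (V.kk (m + 1)) ≤ T.s y

/-- `hold` of the block lemma, super-stage `n = m + 1`; `T'` is any configuration on the way from `T` to
`T.hf th b ζ` -/
theorem hold_hf {V : Env d M} (hΓ : GeoF V.Γ) (hth : V.th ≤ 1)
    (hcl : ∀ k, V.cl (k + 1) = V.th * V.cl k) (hclp : ∀ k, 0 < V.cl k) (hcl1 : V.cl 0 ≤ 1)
    (he : 0 < V.e₀) (hc : 0 < V.c₀) (hc1 : V.c₀ ≤ 1) {m k : ℕ} {P run : Finset (Tor d M)}
    {T T' : Cfg (Tor d M)} {B : Tor d M} (hg : ∀ x ∈ Al T, V.c₀ ≤ gg T x)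
    (hF : Fc V.Γ V.kk V.cl V.Dn (m + 1) k P T run) (hk : V.kk m ≤ k)
    (hO : OldOk V m T)
    (hsum : ∑ i ∈ Finset.range (m + 1), (3 ^ d * V.Dn i : ℝ) / V.Γ.L i ≤ 1 / 4)
    (hρ : cI d V.Dn (Finset.range (m + 1)) + 1 / 2 ≤ V.Γ.ρ m / 2) (hmb : T'.mb = T.mb)
    (hoff : ∀ x, x ∉ run ∩ V.Γ.blk (m + 1) B → T'.V x = T.V x ∧ T'.s x = T.s x)
    (hon : ∀ x ∈ run ∩ V.Γ.blk (m + 1) B, V.cl (k + 1) ≤ T'.s x) {c : Tor d M}
    (hcb : c ∈ run ∩ V.Γ.blk (m + 1) B) :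
    ∑ x ∈ (Al T).filter (fun x => V.cl (V.kk m) < T.s x), kap V.e₀ T' x *
        KK (net V.E V.e₀ T') x c ≤
      2 / (V.c₀ * V.cl (k + 1)) *
        Real.exp (-(V.c₀ * V.cl (V.kk (m + 1)) / (4 * d) * V.Γ.ρ m)) := by
  set b := run ∩ V.Γ.blk (m + 1) B with hb
  have hanti := cl_anti hth hcl
  have hold_run : ∀ x, V.cl (V.kk m) < T.s x → x ∉ run := fun x hx hr => by
    have h1 : T.s x ≤ V.cl k := by
      rw [hF.runs x hr]
      split
      · exact hanti (Nat.le_succ k)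
      · exact le_rfl
    exact absurd (hx.trans_le (h1.trans (hanti hk))) (lt_irrefl _)
  have hshell : ∀ x, V.cl (V.kk m) < T.s x → ∀ y ∈ run, 3 * V.Γ.ρ m < V.Γ.D x y :=
    fun x hx y hy => hF.shell m rfl x (hold_run x hx) hx y hy
  have hgg : ∀ x, 0 < T.s x → V.c₀ ≤ (T.mb x).im := fun x hx => hg x (by
    unfold Al; rw [Finset.mem_filter]; exact ⟨Finset.mem_univ _, hx⟩)
  have hbpos : ∀ x ∈ b, 0 < T.s x := fun x hx => by
    have hxr := (Finset.mem_inter.1 hx).1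
    rw [hF.runs x hxr]
    split
    · exact hclp _
    · exact hclp _
  have hpos' : ∀ x, 0 < T'.s x → 0 < T.s x := fun x hx => by
    by_cases hxb : x ∈ b
    · exact hbpos x hxb
    · rwa [(hoff x hxb).2] at hx
  have hm' : ∀ x, 0 ≤ (T'.s x : ℝ) * (T'.mb x).im := fun x => by
    by_cases hx : 0 < T'.s x
    · rw [hmb]; exact mul_nonneg (T'.s x).2 (hc.le.trans (hgg x (hpos' x hx)))
    · have : T'.s x = 0 := by simpa using hx
      rw [this]; simp
  obtain ⟨dd, hdd, hO⟩ := hO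
  have hkap : ∀ (x : Tor d M) (t : ℝ≥0), 0 < T.s x → t ≤ T'.s x →
      V.c₀ * t ≤ kap V.e₀ T' x := fun x t hx ht => by
    unfold kap
    rw [hmb]
    have h1 : (t : ℝ) ≤ T'.s x := by exact_mod_cast ht
    have h2 : V.c₀ * t ≤ (T'.s x : ℝ) * (T.mb x).im := by
      rw [mul_comm]
      exact mul_le_mul h1 (hgg x hx) hc.le (T'.s x).2
    linarith
  have hσ : 0 < V.c₀ * (V.cl (V.kk (m + 1)) : ℝ) := mul_pos hc (by exact_mod_cast hclp _)
  have hσ1 : V.c₀ * (V.cl (V.kk (m + 1)) : ℝ) ≤ 1 := by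
    have h1 : (V.cl (V.kk (m + 1)) : ℝ) ≤ 1 := by
      have := (hanti (Nat.zero_le (V.kk (m + 1)))).trans hcl1
      exact_mod_cast this
    have h2 : (0 : ℝ) ≤ V.cl (V.kk (m + 1)) := (V.cl (V.kk (m + 1))).2
    nlinarith
  have hmain := old_flux hΓ (E := V.E) (e₀ := V.e₀) (σ := V.c₀ * V.cl (V.kk (m + 1))) (T := T')
    he hm' (I := Finset.range (m + 1)) (Dn := V.Dn) (dd := dd) (fun j _ B => hdd j B) hsum hσ hσ1
    (Old := (Al T).filter fun x => V.cl (V.kk m) < T.s x) (R := 3 * V.Γ.ρ m) (N₀ := V.Γ.ρ m)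
    (fun x hx y hxy => by
      have hx' := (Finset.mem_filter.1 hx).2
      rcases hO x hx' y hxy with ⟨_, j, hj, hyj⟩ | h2
      · exact Or.inl ⟨j, Finset.mem_range.2 (by omega), hyj⟩
      · right
        have hyrun : y ∉ run := fun hy => absurd (hshell x hx' y hy) (by omega)
        have hyb : y ∉ b := fun hy => hyrun (Finset.mem_inter.1 hy).1
        refine hkap y _ (lt_of_lt_of_le (hclp _) h2) ?_
        rw [(hoff y hyb).2]; exact h2)
    (by push_cast; linarith) (c := c)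
    (fun x hx => (hshell x (Finset.mem_filter.1 hx).2 c (Finset.mem_inter.1 hcb).1).le)
  refine hmain.trans (mul_le_mul_of_nonneg_right ?_ (Real.exp_pos _).le)
  exact div_le_div_of_nonneg_left (by norm_num) (mul_pos hc (by exact_mod_cast hclp _))
    (hkap c _ (hbpos c hcb) (hon c hcb))

/-- `loc` of the block lemma, first part -/
theorem loc_hf {V : Env d M} (hΓ : GeoF V.Γ) (hth : V.th ≤ 1)
    (hcl : ∀ k, V.cl (k + 1) = V.th * V.cl k) (hclp : ∀ k, 0 < V.cl k) (hcl1 : V.cl 0 ≤ 1)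
    (he : 0 < V.e₀) (hc : 0 < V.c₀) (hc1 : V.c₀ ≤ 1) {n k : ℕ} {P run : Finset (Tor d M)}
    {T T' : Cfg (Tor d M)} {B : Tor d M} (hg : ∀ x ∈ Al T, V.c₀ ≤ gg T x)
    (hF : Fc V.Γ V.kk V.cl V.Dn n k P T run)
    (hsum : ∑ i ∈ Finset.range (n + 1), (3 ^ d * V.Dn i : ℝ) / V.Γ.L i ≤ 1 / 4)
    (hL : 4 * (cI d V.Dn (Finset.range (n + 1)) + 1) ≤ V.Γ.L n) (hB : V.Γ.bl n B = B)
    (hne : (run ∩ V.Γ.blk n B).Nonempty) (hmb : T'.mb = T.mb)
    (hoff : ∀ x, x ∉ run ∩ V.Γ.blk n B → T'.V x = T.V x ∧ T'.s x = T.s x)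
    (hon : ∀ x ∈ run ∩ V.Γ.blk n B, V.cl (k + 1) ≤ T'.s x) {x : Tor d M} (hx : x ∈ Al T)
    (hxB : 2 * V.Γ.L n < V.Γ.D x B) :
    ∑ c ∈ run ∩ V.Γ.blk n B, KK (net V.E V.e₀ T') x c ^ 2 ≤ 4 / (V.c₀ * V.cl (k + 1)) ^ 4 *
        Real.exp (-(V.c₀ * V.cl (k + 1) / (32 * d) * V.Γ.D x B)) ∧
    ‖net V.E V.e₀ T' x x - net V.E V.e₀ T x x‖ ≤ 4 / (V.c₀ * V.cl (k + 1)) *
        Real.exp (-(V.c₀ * V.cl (k + 1) / (32 * d) * V.Γ.D x B)) := by
  obtain ⟨hiff, φ, hU, hφ⟩ := upd_hf hΓ hth hcl hclp hcl1 he hc hc1 hg hF hsum hL hB hne hmb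
    hoff hon
  have hk0 : 0 < V.c₀ * (V.cl (k + 1) : ℝ) := mul_pos hc (by exact_mod_cast hclp _)
  have hxF : x ∉ run ∩ V.Γ.blk n B := fun h => by
    have h1 : V.Γ.bl n x = B := by
      have := (Finset.mem_inter.1 h).2
      unfold Geo.blk at this
      exact (Finset.mem_filter.1 this).2
    have h2 : V.Γ.D x B ≤ V.Γ.L n := hΓ.ok.diam n x B (by rw [h1, hB])
    omega
  have hFA : run ∩ V.Γ.blk n B ⊆ Al T := fun y hy => by
    unfold Al
    rw [Finset.mem_filter]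
    refine ⟨Finset.mem_univ _, ?_⟩
    rw [hF.runs y (Finset.mem_inter.1 hy).1]
    split
    · exact hclp _
    · exact hclp _
  obtain ⟨e1, e2⟩ := hU.loc hx hxF hFA
  have e3 : Real.exp (-(2 * (V.c₀ * V.cl (k + 1) / (8 * d)) * φ x)) ≤
      Real.exp (-(V.c₀ * V.cl (k + 1) / (32 * d) * V.Γ.D x B)) := by
    apply Real.exp_le_exp.2
    have h1 := mul_le_mul_of_nonneg_left (hφ x hxB)
      (by positivity : 0 ≤ 2 * (V.c₀ * (V.cl (k + 1) : ℝ) / (8 * d)))
    have h2 : 2 * (V.c₀ * (V.cl (k + 1) : ℝ) / (8 * d)) * (V.Γ.D x B / 8) =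
        V.c₀ * V.cl (k + 1) / (32 * d) * V.Γ.D x B := by
      rcases Nat.eq_zero_or_pos d with hd | hd
      · subst hd; simp
      · have hd' : (0 : ℝ) < d := by exact_mod_cast hd
        field_simp; ring
    linarith
  exact ⟨e1.trans (mul_le_mul_of_nonneg_left e3 (by positivity)),
    e2.trans (mul_le_mul_of_nonneg_left e3 (by positivity))⟩

end Pool.Agent.ANR.H89
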