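import Pool.Agent.Helper89_FAR.Plt
import Pool.Agent.AHH.Defs

/-!
# FAR, part 7: block updates in the language of `AHH`, locality, the flux to the old nodes
-/

set_option autoImplicit false

open scoped BigOperators Matrix NNReal

noncomputable section

namespace Pool.Agent.ANR.H89

open Pool.Agent.ANR
open Pool.Agent.BED (Tor adj ev)
open Pool.Agent.ANP (Cfg Geo Fc)
open Pool.Agent.AND2B (Hr Vef kap net)
open Pool.Agent.AHH (Env Al gg)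
open Pool.Agent.LE.QF (KK)

variable {d M : ℕ} [NeZero M]

/-- what FAR needs from the geometry -/
structure GeoF (Γ : Geo (Tor d M)) : Prop where
  ok : ANP.GeoOk Γ d
  one : ∀ i, 1 ≤ Γ.L i
  nb : ∀ x y, Nb x y → Γ.D x y ≤ 1

/-- the constant of the alive distance -/
def cI (d : ℕ) (Dn : ℕ → ℕ) (I : Finset ℕ) : ℝ := 1 + 2 * ∑ i ∈ I, (3 ^ d * Dn i : ℝ)

theorem cI_pos (d : ℕ) (Dn : ℕ → ℕ) (I : Finset ℕ) : 1 ≤ cI d Dn I := by
  unfold cI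
  have : 0 ≤ ∑ i ∈ I, (3 ^ d * Dn i : ℝ) := Finset.sum_nonneg fun i _ => by positivity
  linarith

/-- Upd for two configurations which agree off `F` -/
theorem upd_gen {Γ : Geo (Tor d M)} (hΓ : GeoF Γ) {E e₀ k₀ : ℝ} {T T' : Cfg (Tor d M)}
    {F : Finset (Tor d M)} (hFne : F.Nonempty) {I : Finset ℕ} {Dn : ℕ → ℕ} (he : 0 < e₀)
    (hm : ∀ x, 0 ≤ (T.s x : ℝ) * (T.mb x).im) (hm' : ∀ x, 0 ≤ (T'.s x : ℝ) * (T'.mb x).im)
    (hoff : ∀ x, x ∉ F → T'.V x = T.V x ∧ T'.s x = T.s x ∧ T'.mb x = T.mb x)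
    (dens : ∃ dd : ℕ → Finset (Tor d M), (∀ x, T.s x = 0 → ∃ j ∈ I, x ∈ dd j) ∧
      ∀ j B, (dd j ∩ Γ.blk j B).card ≤ Dn j)
    (hsum : ∑ i ∈ I, (3 ^ d * Dn i : ℝ) / Γ.L i ≤ 1 / 4)
    (hk : 0 < k₀) (hk1 : k₀ ≤ 1) (hal : ∀ x, 0 < T.s x → k₀ ≤ kap e₀ T x)
    (hal' : ∀ x, 0 < T'.s x → k₀ ≤ kap e₀ T' x) :
    ∃ φ : Tor d M → ℝ,
      Upd (Hr (Vef T) E) (Hr (Vef T') E) (kap e₀ T) (kap e₀ T') φ F (Al T ∩ Al T') (Al T \ F)
        (2 * d) k₀ (k₀ / (8 * d)) ∧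
      ∀ y, ∃ x ∈ F, 1 / 2 * (Γ.D x y : ℝ) - (cI d Dn I + 1) ≤ φ y := by
  obtain ⟨dd, hdd, hcard⟩ := dens
  set N₀ : ℕ := ∑ x, ∑ y, Γ.D x y with hN₀
  have hD : ∀ x y, Γ.D x y ≤ N₀ := fun x y => by
    refine le_trans ?_ (Finset.single_le_sum (f := fun x => ∑ y, Γ.D x y)
      (fun i _ => Nat.zero_le _) (Finset.mem_univ x))
    exact Finset.single_le_sum (f := fun y => Γ.D x y) (fun i _ => Nat.zero_le _)
      (Finset.mem_univ y)
  obtain ⟨φ, h0, hN, hb, hlip, hlow⟩ := plat_set (fun x y : Tor d M => Nb x y)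
    (fun x y h => h.symm) (fun x y => (Γ.D x y : ℝ))
    (↑(I.biUnion dd) : Set (Tor d M)) (1 / 2) (1 + 2 * ∑ i ∈ I, (3 ^ d * Dn i : ℝ))
    (fun x y w hw => ANP.H61.pth Γ d hΓ.ok hΓ.one (fun x y => Nb x y) hΓ.nb I dd Dn
      (fun i _ B => hcard i B) hsum x y w hw) F hFne N₀
  have halive : ∀ x, x ∉ (↑(I.biUnion dd) : Set (Tor d M)) → 0 < T.s x := fun x hx => by
    rw [pos_iff_ne_zero]
    intro h
    obtain ⟨j, hj, hxj⟩ := hdd x h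
    exact hx (by rw [Finset.mem_coe, Finset.mem_biUnion]; exact ⟨j, hj, hxj⟩)
  have hmemS : ∀ x, x ∉ (↑(I.biUnion dd) : Set (Tor d M)) → x ∉ F → x ∈ Al T \ F :=
    fun x hx hxF => by
      rw [Finset.mem_sdiff]
      unfold Al
      rw [Finset.mem_filter]
      exact ⟨⟨Finset.mem_univ _, halive x hx⟩, hxF⟩
  refine ⟨φ, upd_tor he hm hm' hoff h0 hb (fun x y hxy hne => ?_) ?_ (fun x hx => ?_)
    (fun x hx => ?_) hk (by positivity) ?_, fun y => ?_⟩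
  · obtain ⟨a1, a2, a3, a4, a5⟩ := hlip x y hxy hne
    exact ⟨hmemS x a1 a3, hmemS y a2 a4, a5⟩
  · exact Finset.sdiff_disjoint
  · rw [Finset.mem_sdiff] at hx
    unfold Al at hx
    rw [Finset.mem_filter] at hx
    exact hal x hx.1.2
  · rw [Finset.mem_inter] at hx
    unfold Al at hx
    rw [Finset.mem_filter, Finset.mem_filter] at hx
    exact ⟨hal x hx.1.2, hal' x hx.2.2⟩
  · rcases Nat.eq_zero_or_pos d with hd | hd
    · subst hd; simp; linarith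
    · have hd' : (1 : ℝ) ≤ d := by exact_mod_cast hd
      have e1 : k₀ / (8 * d) ≤ 1 := by
        rw [div_le_one (by positivity)]; linarith
      have e2 : Real.sinh (k₀ / (8 * d)) ≤ 2 * (k₀ / (8 * d)) := by
        have h0 : 0 ≤ k₀ / (8 * d) := by positivity
        rw [Real.sinh_eq]
        have e1 := abs_le.1 (Real.abs_exp_sub_one_sub_id_le
          (by rw [abs_of_nonneg h0]; exact e1))
        have e2 := Real.add_one_le_exp (-(k₀ / (8 * d)))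
        nlinarith [e1.2]
      calc Real.sinh (k₀ / (8 * d)) * (2 * d) ≤ 2 * (k₀ / (8 * d)) * (2 * d) :=
            mul_le_mul_of_nonneg_right e2 (by positivity)
        _ = k₀ / 2 := by field_simp; norm_num
        _ ≤ _ := le_rfl
  · obtain ⟨x, hx, hxy⟩ := hlow y
    refine ⟨x, hx, le_trans ?_ hxy⟩
    have e1 : (Γ.D x y : ℝ) ≤ N₀ := by exact_mod_cast hD x y
    have e2 : (0 : ℝ) ≤ Γ.D x y := Nat.cast_nonneg _
    have e3 : 1 / 2 * (Γ.D x y : ℝ) - (cI d Dn I) ≤ N₀ := by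
      have := cI_pos d Dn I
      linarith
    have e4 : min (N₀ : ℝ) (1 / 2 * (Γ.D x y : ℝ) - (1 + 2 * ∑ i ∈ I, (3 ^ d * Dn i : ℝ))) =
        1 / 2 * (Γ.D x y : ℝ) - cI d Dn I := min_eq_right e3
    rw [e4]; linarith

/-- the clocks -/
theorem cl_anti {V : Env d M} (hth : V.th ≤ 1) (hcl : ∀ k, V.cl (k + 1) = V.th * V.cl k) :
    Antitone V.cl := antitone_nat_of_succ_le fun k => by
  rw [hcl]
  calc V.th * V.cl k ≤ 1 * V.cl k := by gcongr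
    _ = V.cl k := one_mul _

/-- alive sites have at least the clock of the next stage -/
theorem clk_le {V : Env d M} (hth : V.th ≤ 1) (hcl : ∀ k, V.cl (k + 1) = V.th * V.cl k)
    {n k : ℕ} {P run : Finset (Tor d M)} {T : Cfg (Tor d M)}
    (hF : Fc V.Γ V.kk V.cl V.Dn n k P T run) {x : Tor d M} (hx : 0 < T.s x) :
    V.cl (k + 1) ≤ T.s x := by
  have h1 : V.cl (k + 1) ≤ V.cl k := cl_anti hth hcl (Nat.le_succ k)
  have h2 : V.cl (k + 1) ≤ if x ∈ P then V.cl (k + 1) else V.cl k := by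
    split
    · exact le_rfl
    · exact h1
  by_cases hr : x ∈ run
  · rw [hF.runs x hr]; exact h2
  · rcases hF.rest x hr with h | h
    · exact absurd h hx.ne'
    · exact h2.trans h.1

/-- FAR for a block update, with the bound of `φ` at all the sites -/
theorem upd_hfx {V : Env d M} (hΓ : GeoF V.Γ) (hth : V.th ≤ 1)
    (hcl : ∀ k, V.cl (k + 1) = V.th * V.cl k) (hclp : ∀ k, 0 < V.cl k) (hcl1 : V.cl 0 ≤ 1)
    (he : 0 < V.e₀) (hc : 0 < V.c₀) (hc1 : V.c₀ ≤ 1) {n k : ℕ} {P run : Finset (Tor d M)}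
    {T T' : Cfg (Tor d M)} {B : Tor d M} (hg : ∀ x ∈ Al T, V.c₀ ≤ gg T x)
    (hF : Fc V.Γ V.kk V.cl V.Dn n k P T run)
    (hsum : ∑ i ∈ Finset.range (n + 1), (3 ^ d * V.Dn i : ℝ) / V.Γ.L i ≤ 1 / 4)
    (hL : 4 * (cI d V.Dn (Finset.range (n + 1)) + 1) ≤ V.Γ.L n) (hB : V.Γ.bl n B = B)
    (hne : (run ∩ V.Γ.blk n B).Nonempty) (hmb : T'.mb = T.mb)
    (hoff : ∀ x, x ∉ run ∩ V.Γ.blk n B → T'.V x = T.V x ∧ T'.s x = T.s x)
    (hon : ∀ x ∈ run ∩ V.Γ.blk n B, V.cl (k + 1) ≤ T'.s x) :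
    (∀ x, 0 < T'.s x ↔ 0 < T.s x) ∧ ∃ φ : Tor d M → ℝ,
      Upd (Hr (Vef T) V.E) (Hr (Vef T') V.E) (kap V.e₀ T) (kap V.e₀ T') φ (run ∩ V.Γ.blk n B)
        (Al T) (Al T \ (run ∩ V.Γ.blk n B)) (2 * d) (V.c₀ * V.cl (k + 1))
        (V.c₀ * V.cl (k + 1) / (8 * d)) ∧
      (∀ x, 2 * V.Γ.L n < V.Γ.D x B → (V.Γ.D x B : ℝ) / 8 ≤ φ x) ∧
      ∀ y, ∃ x ∈ run ∩ V.Γ.blk n B,
        1 / 2 * (V.Γ.D x y : ℝ) - (cI d V.Dn (Finset.range (n + 1)) + 1) ≤ φ y := by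
  set b := run ∩ V.Γ.blk n B with hb
  have hbpos : ∀ x ∈ b, 0 < T.s x := fun x hx => by
    have hxr := (Finset.mem_inter.1 hx).1
    rw [hF.runs x hxr]
    split
    · exact hclp _
    · exact hclp _
  have hiff : ∀ x, 0 < T'.s x ↔ 0 < T.s x := fun x => by
    by_cases hx : x ∈ b
    · exact ⟨fun _ => hbpos x hx, fun _ => lt_of_lt_of_le (hclp _) (hon x hx)⟩
    · rw [(hoff x hx).2]
  have hkapc : ∀ (S : Cfg (Tor d M)) (x : Tor d M), S.mb = T.mb → 0 < T.s x →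
      V.cl (k + 1) ≤ S.s x → V.c₀ * V.cl (k + 1) ≤ kap V.e₀ S x := fun S x hS hx hcx => by
    unfold kap
    have hgx : V.c₀ ≤ (T.mb x).im := hg x (by
      unfold Al; rw [Finset.mem_filter]; exact ⟨Finset.mem_univ _, hx⟩)
    rw [hS]
    have h1 : (V.cl (k + 1) : ℝ) ≤ S.s x := by exact_mod_cast hcx
    have h2 : V.c₀ * V.cl (k + 1) ≤ (S.s x : ℝ) * (T.mb x).im := by
      rw [mul_comm]
      exact mul_le_mul h1 hgx hc.le (S.s x).2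
    linarith
  have hpos : ∀ (S : Cfg (Tor d M)), S.mb = T.mb → (∀ x, 0 < S.s x → 0 < T.s x) →
      ∀ x, 0 ≤ (S.s x : ℝ) * (S.mb x).im := fun S hS hSs x => by
    by_cases hx : 0 < S.s x
    · have hgx : V.c₀ ≤ (T.mb x).im := hg x (by
        unfold Al; rw [Finset.mem_filter]; exact ⟨Finset.mem_univ _, hSs x hx⟩)
      rw [hS]
      exact mul_nonneg (S.s x).2 (hc.le.trans hgx)
    · have : S.s x = 0 := by simpa using hx
      rw [this]; simp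
  have hk0 : 0 < V.c₀ * (V.cl (k + 1) : ℝ) := mul_pos hc (by exact_mod_cast hclp _)
  have hk1 : V.c₀ * (V.cl (k + 1) : ℝ) ≤ 1 := by
    have h1 : (V.cl (k + 1) : ℝ) ≤ 1 := by
      have := (cl_anti hth hcl (Nat.zero_le (k + 1))).trans hcl1
      exact_mod_cast this
    have h2 : (0 : ℝ) ≤ V.cl (k + 1) := (V.cl (k + 1)).2
    nlinarith
  obtain ⟨φ, hU, hlow⟩ := upd_gen hΓ (E := V.E) (e₀ := V.e₀) (k₀ := V.c₀ * V.cl (k + 1)) (T := T)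
    (T' := T') (F := b) hne (I := Finset.range (n + 1)) (Dn := V.Dn) he
    (hpos T rfl fun x h => h) (hpos T' hmb fun x h => (hiff x).1 h)
    (fun x hx => ⟨(hoff x hx).1, (hoff x hx).2, by rw [hmb]⟩)
    (by
      obtain ⟨dd, h1, h2⟩ := hF.dens
      refine ⟨dd, fun x hx => ?_, h2⟩
      obtain ⟨j, hj, hxj⟩ := h1 x hx
      exact ⟨j, Finset.mem_range.2 (by omega), hxj⟩)
    hsum hk0 hk1 (fun x hx => hkapc T x rfl hx (clk_le hth hcl hF hx))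
    (fun x hx => by
      by_cases hxb : x ∈ b
      · exact hkapc T' x hmb ((hiff x).1 hx) (hon x hxb)
      · refine hkapc T' x hmb ((hiff x).1 hx) ?_
        rw [(hoff x hxb).2]
        exact clk_le hth hcl hF ((hiff x).1 hx))
  have hAl : Al T ∩ Al T' = Al T := by
    ext x
    rw [Finset.mem_inter]
    unfold Al
    rw [Finset.mem_filter, Finset.mem_filter]
    exact ⟨fun h => h.1, fun h => ⟨h, Finset.mem_univ _, (hiff x).2 h.2⟩⟩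
  rw [hAl] at hU
  refine ⟨hiff, φ, hU, fun x hx => ?_, hlow⟩
  obtain ⟨y, hy, hxy⟩ := hlow x
  refine le_trans ?_ hxy
  have h1 : V.Γ.bl n y = B := by
    have := (Finset.mem_inter.1 hy).2
    unfold Geo.blk at this
    exact (Finset.mem_filter.1 this).2
  have h2 : V.Γ.D y B ≤ V.Γ.L n := hΓ.ok.diam n y B (by rw [h1, hB])
  have h3 := hΓ.ok.tri x y B
  rw [hΓ.ok.comm x y] at h3
  have h4 : (V.Γ.D x B : ℝ) ≤ V.Γ.D y x + V.Γ.D y B := by exact_mod_cast h3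
  have h5 : (V.Γ.D y B : ℝ) ≤ V.Γ.L n := by exact_mod_cast h2
  have h6 : 2 * (V.Γ.L n : ℝ) < V.Γ.D x B := by exact_mod_cast hx
  linarith

/-- FAR for a block update: `T'` agrees with `T` off `b = run ∩ blk n B`, on `b` its clocks are at least
the next ones. `k₀ = c₀ cl (k + 1)`, `β = k₀ / (8 d)`; `φ` is at least `D(x, B) / 8` far from `B`. -/
theorem upd_hf {V : Env d M} (hΓ : GeoF V.Γ) (hth : V.th ≤ 1)
    (hcl : ∀ k, V.cl (k + 1) = V.th * V.cl k) (hclp : ∀ k, 0 < V.cl k) (hcl1 : V.cl 0 ≤ 1)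
    (he : 0 < V.e₀) (hc : 0 < V.c₀) (hc1 : V.c₀ ≤ 1) {n k : ℕ} {P run : Finset (Tor d M)}
    {T T' : Cfg (Tor d M)} {B : Tor d M} (hg : ∀ x ∈ Al T, V.c₀ ≤ gg T x)
    (hF : Fc V.Γ V.kk V.cl V.Dn n k P T run)
    (hsum : ∑ i ∈ Finset.range (n + 1), (3 ^ d * V.Dn i : ℝ) / V.Γ.L i ≤ 1 / 4)
    (hL : 4 * (cI d V.Dn (Finset.range (n + 1)) + 1) ≤ V.Γ.L n) (hB : V.Γ.bl n B = B)
    (hne : (run ∩ V.Γ.blk n B).Nonempty) (hmb : T'.mb = T.mb)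
    (hoff : ∀ x, x ∉ run ∩ V.Γ.blk n B → T'.V x = T.V x ∧ T'.s x = T.s x)
    (hon : ∀ x ∈ run ∩ V.Γ.blk n B, V.cl (k + 1) ≤ T'.s x) :
    (∀ x, 0 < T'.s x ↔ 0 < T.s x) ∧ ∃ φ : Tor d M → ℝ,
      Upd (Hr (Vef T) V.E) (Hr (Vef T') V.E) (kap V.e₀ T) (kap V.e₀ T') φ (run ∩ V.Γ.blk n B)
        (Al T) (Al T \ (run ∩ V.Γ.blk n B)) (2 * d) (V.c₀ * V.cl (k + 1))
        (V.c₀ * V.cl (k + 1) / (8 * d)) ∧
      ∀ x, 2 * V.Γ.L n < V.Γ.D x B → (V.Γ.D x B : ℝ) / 8 ≤ φ x := by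
  obtain ⟨h1, φ, h2, h3, -⟩ :=
    upd_hfx hΓ hth hcl hclp hcl1 he hc hc1 hg hF hsum hL hB hne hmb hoff hon
  exact ⟨h1, φ, h2, h3⟩

end Pool.Agent.ANR.H89
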