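import Pool.Agent.Helper89_FAR.Far

/-!
# FAR, part 2: the total mass of the change, fourth powers, conductances
-/

set_option autoImplicit false

open scoped BigOperators ComplexConjugate

noncomputable section

namespace Pool.Agent.ANR.H89

open Pool.Agent.ANR

variable {X : Type} [Fintype X] [DecidableEq X]

/-- entries of a network -/
theorem ent_le {H : Matrix X X ℝ} {κ : X → ℝ} (hN : Net H κ) {k₀ : ℝ} (hk : 0 < k₀) {x y : X}
    (hx : k₀ ≤ κ x) (hy : k₀ ≤ κ y) : ‖Gr H κ x y‖ ≤ 1 / k₀ := by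
  have h1 := (hGeq X H κ hN).2.2.2.2 x y
  have h2 : (k₀ * ‖Gr H κ x y‖) ^ 2 ≤ 1 ^ 2 := by
    rw [one_pow]
    refine le_trans ?_ h1
    rw [mul_pow, sq k₀]
    exact mul_le_mul_of_nonneg_right (mul_le_mul hx hy hk.le (hN.pos x).le) (sq_nonneg _)
  have h3 := (pow_le_pow_iff_left₀ (mul_nonneg hk.le (norm_nonneg _)) zero_le_one (by norm_num)).1 h2
  rw [le_div_iff₀ hk, mul_comm]; exact h3

theorem ward {H : Matrix X X ℝ} {κ : X → ℝ} (hN : Net H κ) (x : X) :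
    ∑ y, κ y * ‖Gr H κ x y‖ ^ 2 = (Gr H κ x x).im := by
  rw [← (hGeq X H κ hN).2.2.1 x]
  exact Finset.sum_congr rfl fun y _ => by rw [(hGeq X H κ hN).2.1 x y]

theorem im_le {H : Matrix X X ℝ} {κ : X → ℝ} (hN : Net H κ) {k₀ : ℝ} (hk : 0 < k₀) {x : X}
    (hx : k₀ ≤ κ x) : (Gr H κ x x).im ≤ 1 / k₀ := by
  have h1 := (hGeq X H κ hN).2.2.2.1 x
  have h2 : (Gr H κ x x).im ≤ ‖Gr H κ x x‖ := (le_abs_self _).trans (Complex.abs_im_le_norm _)
  rw [le_div_iff₀ hk]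
  nlinarith [norm_nonneg (Gr H κ x x), hN.pos x]

namespace Upd

variable {H H' : Matrix X X ℝ} {κ κ' φ : X → ℝ} {F A S : Finset X} {h₀ k₀ β : ℝ}

/-- FAR, the total mass of the change (the absorption at `F` at most doubles the other way) -/
theorem mass_all (h : Upd H H' κ κ' φ F A S h₀ k₀ β) (hkk : ∀ x ∈ F, κ x ≤ 2 * κ' x) {x : X}
    (hx : x ∉ F) :
    ∑ z, κ z * ‖Gr H' κ' x z - Gr H κ x z‖ ^ 2 ≤ 20 / κ x * Real.exp (-(2 * β * φ x)) := by
  obtain ⟨h1, h2, h3⟩ := h.mass hx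
  rw [← Finset.sum_add_sum_compl F]
  have hsG := (hGeq X H κ h.n).2.1
  have hsG' := (hGeq X H' κ' h.n').2.1
  have h4 : ∑ z ∈ F, κ z * ‖Gr H' κ' x z - Gr H κ x z‖ ^ 2 ≤
      4 * (2 / κ x * Real.exp (-(2 * β * φ x))) + 2 * (2 / κ x * Real.exp (-(2 * β * φ x))) := by
    refine le_trans ?_ (add_le_add (mul_le_mul_of_nonneg_left h3 (by norm_num : (0 : ℝ) ≤ 4))
      (mul_le_mul_of_nonneg_left h2 (by norm_num : (0 : ℝ) ≤ 2)))
    rw [Finset.mul_sum, Finset.mul_sum, ← Finset.sum_add_distrib]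
    refine Finset.sum_le_sum fun z hz => ?_
    rw [hsG x z, hsG' x z]
    have h5 := H17.sq_norm_sub_le (Gr H' κ' z x) (Gr H κ z x)
    have h6 := hkk z hz
    nlinarith [sq_nonneg ‖Gr H' κ' z x‖, mul_le_mul_of_nonneg_left h5 (h.n.pos z).le,
      mul_le_mul_of_nonneg_right h6 (sq_nonneg ‖Gr H' κ' z x‖)]
  have h5 : ∑ z ∈ Fᶜ, κ z * ‖Gr H' κ' x z - Gr H κ x z‖ ^ 2 ≤
      8 / κ x * Real.exp (-(2 * β * φ x)) := by
    refine le_trans (le_of_eq ?_) h1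
    refine Finset.sum_congr rfl fun z _ => ?_
    rw [hsG x z, hsG' x z, norm_sub_rev]
  have h6 : 20 / κ x * Real.exp (-(2 * β * φ x)) = 4 * (2 / κ x * Real.exp (-(2 * β * φ x))) +
      2 * (2 / κ x * Real.exp (-(2 * β * φ x))) + 8 / κ x * Real.exp (-(2 * β * φ x)) := by ring
  rw [h6]
  linarith

/-- FAR, fourth powers -/
theorem lar (h : Upd H H' κ κ' φ F A S h₀ k₀ β) {R : Finset X} (hR : R ⊆ A) {x : X} (hx : x ∈ A)
    (hxF : x ∉ F) :
    |∑ y ∈ R, ‖Gr H' κ' x y‖ ^ 4 - ∑ y ∈ R, ‖Gr H κ x y‖ ^ 4| ≤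
      16 / k₀ ^ 4 * Real.exp (-(β * φ x)) := by
  have hk := h.hk₀
  rw [← Finset.sum_sub_distrib]
  have h1 : ∀ y ∈ R, |‖Gr H' κ' x y‖ ^ 4 - ‖Gr H κ x y‖ ^ 4| ≤
      8 / k₀ ^ 3 * Real.exp (-(β * φ x)) * (κ' y * ‖Gr H' κ' x y‖ ^ 2 + κ y * ‖Gr H κ x y‖ ^ 2) :=
    fun y hy => by
      have hyA := hR hy
      have e1 := h.ent hx hyA (fun hh => hxF hh.1)
      have e2 := ent_le h.n' hk (h.hA x hx).2 (h.hA y hyA).2
      have e3 := ent_le h.n hk (h.hA x hx).1 (h.hA y hyA).1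
      set a := ‖Gr H' κ' x y‖ with ha
      set b := ‖Gr H κ x y‖ with hb
      have ha0 : 0 ≤ a := norm_nonneg _
      have hb0 : 0 ≤ b := norm_nonneg _
      have e4 : |a - b| ≤ 4 / k₀ * Real.exp (-(β * φ x)) := by
        refine (abs_norm_sub_norm_le _ _).trans (e1.trans ?_)
        refine mul_le_mul_of_nonneg_left (Real.exp_le_exp.2 ?_) (by positivity)
        nlinarith [h.plt.nn y, h.hβ, mul_nonneg h.hβ (h.plt.nn y)]
      have e5 : a ^ 4 - b ^ 4 = (a - b) * ((a + b) * (a ^ 2 + b ^ 2)) := by ring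
      rw [e5, abs_mul, abs_of_nonneg (by positivity : 0 ≤ (a + b) * (a ^ 2 + b ^ 2))]
      have e6 : (a + b) * (a ^ 2 + b ^ 2) ≤ 2 / k₀ * (1 / k₀ * (κ' y * a ^ 2 + κ y * b ^ 2)) := by
        have e7 : a + b ≤ 2 / k₀ := by
          have : 2 / k₀ = 1 / k₀ + 1 / k₀ := by ring
          rw [this]; exact add_le_add e2 e3
        have e8 : a ^ 2 + b ^ 2 ≤ 1 / k₀ * (κ' y * a ^ 2 + κ y * b ^ 2) := by
          rw [one_div, ← div_eq_inv_mul, le_div_iff₀ hk]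
          nlinarith [mul_le_mul_of_nonneg_right (h.hA y hyA).2 (sq_nonneg a),
            mul_le_mul_of_nonneg_right (h.hA y hyA).1 (sq_nonneg b)]
        exact mul_le_mul e7 e8 (by positivity) (by positivity)
      calc |a - b| * ((a + b) * (a ^ 2 + b ^ 2)) ≤
          4 / k₀ * Real.exp (-(β * φ x)) * (2 / k₀ * (1 / k₀ * (κ' y * a ^ 2 + κ y * b ^ 2))) :=
            mul_le_mul e4 e6 (by positivity) (by positivity)
        _ = _ := by field_simp; ring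
  have h2 : ∑ y ∈ R, (κ' y * ‖Gr H' κ' x y‖ ^ 2 + κ y * ‖Gr H κ x y‖ ^ 2) ≤ 2 / k₀ := by
    rw [Finset.sum_add_distrib]
    have e1 : ∑ y ∈ R, κ' y * ‖Gr H' κ' x y‖ ^ 2 ≤ 1 / k₀ := by
      refine (Finset.sum_le_univ_sum_of_nonneg fun y =>
        mul_nonneg (h.n'.pos y).le (sq_nonneg _)).trans ?_
      rw [ward h.n']; exact im_le h.n' hk (h.hA x hx).2
    have e2 : ∑ y ∈ R, κ y * ‖Gr H κ x y‖ ^ 2 ≤ 1 / k₀ := by
      refine (Finset.sum_le_univ_sum_of_nonneg fun y =>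
        mul_nonneg (h.n.pos y).le (sq_nonneg _)).trans ?_
      rw [ward h.n]; exact im_le h.n hk (h.hA x hx).1
    have : 2 / k₀ = 1 / k₀ + 1 / k₀ := by ring
    rw [this]; exact add_le_add e1 e2
  refine (Finset.abs_sum_le_sum_abs _ _).trans ((Finset.sum_le_sum h1).trans ?_)
  rw [← Finset.mul_sum]
  refine (mul_le_mul_of_nonneg_left h2 (by positivity)).trans (le_of_eq ?_)
  field_simp; norm_num

/-- FAR, the increments of the conductances -/
theorem cond (h : Upd H H' κ κ' φ F A S h₀ k₀ β) {x y : X} (hxy : ¬ (x ∈ F ∧ y ∈ F)) :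
    |κ' x * κ' y * ‖Gr H' κ' x y‖ ^ 2 - κ x * κ y * ‖Gr H κ x y‖ ^ 2| ≤
      8 * Real.exp (-(β * (φ x + φ y))) := by
  have hsG := (hGeq X H κ h.n).2.1
  have hsG' := (hGeq X H' κ' h.n').2.1
  have key : ∀ u v, u ∈ F → v ∉ F →
      |κ' u * κ' v * ‖Gr H' κ' u v‖ ^ 2 - κ u * κ v * ‖Gr H κ u v‖ ^ 2| ≤
      8 * Real.exp (-(β * (φ u + φ v))) := fun u v hu hv => by
    obtain ⟨_, h2, h3⟩ := h.mass hv
    have hκv := h.n.pos v
    have e2 : κ u * ‖Gr H κ u v‖ ^ 2 ≤ 2 / κ v * Real.exp (-(2 * β * φ v)) :=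
      (Finset.single_le_sum (f := fun b => κ b * ‖Gr H κ b v‖ ^ 2)
        (fun b _ => mul_nonneg (h.n.pos b).le (sq_nonneg _)) hu).trans h2
    have e3 : κ' u * ‖Gr H' κ' u v‖ ^ 2 ≤ 2 / κ v * Real.exp (-(2 * β * φ v)) :=
      (Finset.single_le_sum (f := fun b => κ' b * ‖Gr H' κ' b v‖ ^ 2)
        (fun b _ => mul_nonneg (h.n'.pos b).le (sq_nonneg _)) hu).trans h3
    have hv' : κ' v = κ v := (h.off v hv).1
    have e4 : κ v * (2 / κ v * Real.exp (-(2 * β * φ v))) = 2 * Real.exp (-(2 * β * φ v)) := by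
      field_simp
    have e5 : κ u * κ v * ‖Gr H κ u v‖ ^ 2 ≤ 2 * Real.exp (-(2 * β * φ v)) := by
      rw [← e4]; nlinarith [mul_le_mul_of_nonneg_left e2 hκv.le]
    have e6 : κ' u * κ' v * ‖Gr H' κ' u v‖ ^ 2 ≤ 2 * Real.exp (-(2 * β * φ v)) := by
      rw [← e4, hv']; nlinarith [mul_le_mul_of_nonneg_left e3 hκv.le]
    have e7 : 0 ≤ κ u * κ v * ‖Gr H κ u v‖ ^ 2 :=
      mul_nonneg (mul_pos (h.n.pos u) hκv).le (sq_nonneg _)
    have e8 : 0 ≤ κ' u * κ' v * ‖Gr H' κ' u v‖ ^ 2 :=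
      mul_nonneg (mul_pos (h.n'.pos u) (h.n'.pos v)).le (sq_nonneg _)
    have e9 : Real.exp (-(2 * β * φ v)) ≤ Real.exp (-(β * (φ u + φ v))) := by
      rw [h.hF u hu]
      apply Real.exp_le_exp.2
      nlinarith [mul_nonneg h.hβ (h.plt.nn v)]
    rw [abs_le]
    have e10 := (Real.exp_pos (-(β * (φ u + φ v)))).le
    constructor <;> linarith
  by_cases hxF : x ∈ F
  · exact key x y hxF fun hyF => hxy ⟨hxF, hyF⟩
  · by_cases hyF : y ∈ F
    · have := key y x hyF hxF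
      rw [hsG x y, hsG' x y, add_comm (φ x), mul_comm (κ' x), mul_comm (κ x)]
      exact this
    · rw [(h.off x hxF).1, (h.off y hyF).1, ← mul_sub, abs_mul,
        abs_of_pos (mul_pos (h.n.pos x) (h.n.pos y))]
      have h1 := h.ent_off hxF hyF
      set k := κ x * κ y with hk
      have hk0 : 0 < k := mul_pos (h.n.pos x) (h.n.pos y)
      set q := Real.sqrt k with hq
      have hq2 : q ^ 2 = k := Real.sq_sqrt hk0.le
      have hq0 : 0 ≤ q := Real.sqrt_nonneg _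
      set a := ‖Gr H' κ' x y‖ with ha
      set b := ‖Gr H κ x y‖ with hb
      have ha0 : 0 ≤ a := norm_nonneg _
      have hb0 : 0 ≤ b := norm_nonneg _
      have g5 := (hGeq X H κ h.n).2.2.2.2 x y
      have g5' := (hGeq X H' κ' h.n').2.2.2.2 x y
      rw [(h.off x hxF).1, (h.off y hyF).1] at g5'
      have e1 : q * a ≤ 1 := by
        refine (pow_le_pow_iff_left₀ (mul_nonneg hq0 ha0) zero_le_one (by norm_num : (2 : ℕ) ≠ 0)).1 ?_
        rw [mul_pow, hq2, one_pow]; exact g5'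
      have e2 : q * b ≤ 1 := by
        refine (pow_le_pow_iff_left₀ (mul_nonneg hq0 hb0) zero_le_one (by norm_num : (2 : ℕ) ≠ 0)).1 ?_
        rw [mul_pow, hq2, one_pow]; exact g5
      have e3 : q * |a - b| ≤ 4 * Real.exp (-(β * (φ x + φ y))) := by
        refine (pow_le_pow_iff_left₀ (mul_nonneg hq0 (abs_nonneg _)) (by positivity)
          (by norm_num : (2 : ℕ) ≠ 0)).1 ?_
        rw [mul_pow, hq2, sq_abs]
        refine le_trans ?_ h1
        refine mul_le_mul_of_nonneg_left ?_ hk0.le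
        have e4 : |a - b| ≤ ‖Gr H κ x y - Gr H' κ' x y‖ := by
          rw [norm_sub_rev]; exact abs_norm_sub_norm_le _ _
        rw [← sq_abs]
        exact pow_le_pow_left₀ (abs_nonneg _) e4 2
      have e5 : k * |a ^ 2 - b ^ 2| = (q * |a - b|) * (q * a + q * b) := by
        have : a ^ 2 - b ^ 2 = (a - b) * (a + b) := by ring
        rw [this, abs_mul, abs_of_nonneg (add_nonneg ha0 hb0), ← hq2]; ring
      rw [e5]
      calc (q * |a - b|) * (q * a + q * b) ≤ 4 * Real.exp (-(β * (φ x + φ y))) * 2 :=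
            mul_le_mul e3 (by linarith) (by positivity) (by positivity)
        _ = _ := by ring

/-- FAR, the conductances between a site off `F` and a site of `F` -/
theorem cond_F (h : Upd H H' κ κ' φ F A S h₀ k₀ β) {x : X} (hx : x ∉ F) :
    ∑ c ∈ F, κ x * κ c * ‖Gr H κ x c‖ ^ 2 ≤ 2 * Real.exp (-(2 * β * φ x)) := by
  obtain ⟨_, h2, _⟩ := h.mass hx
  have hκ := h.n.pos x
  have e1 : ∑ c ∈ F, κ x * κ c * ‖Gr H κ x c‖ ^ 2 = κ x * ∑ b ∈ F, κ b * ‖Gr H κ b x‖ ^ 2 := by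
    rw [Finset.mul_sum]
    exact Finset.sum_congr rfl fun c _ => by rw [(hGeq X H κ h.n).2.1 x c]; ring
  rw [e1]
  refine (mul_le_mul_of_nonneg_left h2 hκ.le).trans (le_of_eq ?_)
  field_simp

/-- FAR, all conductances of the old network: decay in the plateau distance -/
theorem cond_all (h : Upd H H' κ κ' φ F A S h₀ k₀ β) (x y : X) :
    κ x * κ y * ‖Gr H κ x y‖ ^ 2 ≤ 2 * Real.exp (-(2 * β * |φ y - φ x|)) := by
  have h1 := h.ww x
  have h2 : κ y * (Real.exp (2 * β * |φ y - φ x|) * ‖Gr H κ x y‖ ^ 2) ≤ 2 * (Gr H κ x x).im :=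
    (Finset.single_le_sum (f := fun b => κ b * (Real.exp (2 * β * |φ b - φ x|) *
      ‖Gr H κ x b‖ ^ 2)) (fun b _ => mul_nonneg (h.n.pos b).le
        (mul_nonneg (Real.exp_pos _).le (sq_nonneg _))) (Finset.mem_univ y)).trans h1
  have h3 := (hGeq X H κ h.n).2.2.2.1 x
  have h4 : (Gr H κ x x).im ≤ ‖Gr H κ x x‖ := (le_abs_self _).trans (Complex.abs_im_le_norm _)
  have h5 : κ x * (Gr H κ x x).im ≤ 1 := (mul_le_mul_of_nonneg_left h4 (h.n.pos x).le).trans h3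
  have he := Real.exp_pos (2 * β * |φ y - φ x|)
  rw [Real.exp_neg]
  have h6 : κ x * κ y * ‖Gr H κ x y‖ ^ 2 = (Real.exp (2 * β * |φ y - φ x|))⁻¹ *
      (κ x * (κ y * (Real.exp (2 * β * |φ y - φ x|) * ‖Gr H κ x y‖ ^ 2))) := by
    field_simp
  rw [h6, mul_comm (2 : ℝ) ((Real.exp (2 * β * |φ y - φ x|))⁻¹)]
  refine mul_le_mul_of_nonneg_left ?_ (inv_pos.2 he).le
  nlinarith [mul_le_mul_of_nonneg_left h2 (h.n.pos x).le]

end Upd

end Pool.Agent.ANR.H89
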