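import Pool.Agent.Helper89_FAR.Far2
import Pool.Agent.Helper10_ABY.CMP
import Pool.Agent.Helper82_ABY.VEX

/-!
# FAR, part 4: the virtual pair of block Y at far sites
-/

set_option autoImplicit false

open scoped BigOperators Matrix

noncomputable section

namespace Pool.Agent.ANR.H89

open Pool.Agent.ANR Pool.Agent.ABY Pool.Agent.AFJ Pool.Agent.LE.QF

theorem hCmp : CmpStmt := Pool.Agent.ABY.H10.cmp

variable {X : Type} [Fintype X] [DecidableEq X]

/-- the difference of two virtual vectors -/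
theorem vir_diff {𝕜 : Type} [RCLike 𝕜] {M M' : Matrix X X 𝕜} {K K' : Matrix X X ℝ}
    {P P' w g : X → ℝ} {U R : Finset X} {ρ ρ' : ℝ} (hC : Cmp M K P g U R ρ)
    (hC' : Cmp M' K' P' g U R ρ') (u : X → ℝ)
    (hu : ∀ a ∈ R, ∑ b, ‖M' a b - M a b‖ * ‖psi P w (vir M P w) b‖ +
      ∑ b, K' a b * (|P' b - P b| * ‖vir M P w b‖) ≤ u a - ∑ b, K' a b * (P' b * u b)) :
    ∀ a ∈ R, ‖vir M' P' w a - vir M P w a‖ ≤ u a := by
  have hV := Pool.Agent.ABY.H82.vex hCmp 𝕜 X M K P g U R ρ hC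
  have hV' := Pool.Agent.ABY.H82.vex hCmp 𝕜 X M' K' P' g U R ρ' hC'
  have hc := (hCmp 𝕜 X M' K' P' g U R ρ' hC').2 (fun a => vir M' P' w a - vir M P w a) u
  refine hc fun a ha => le_trans ?_ (hu a ha)
  have e1 := hV'.2.1 w a
  have e2 := hV.2.1 w a
  have e3 : vir M' P' w a - vir M P w a -
      ∑ b, M' a b * (((P' b : ℝ) : 𝕜) * (vir M' P' w b - vir M P w b)) =
      ∑ b, (M' a b - M a b) * psi P w (vir M P w) b +
        ∑ b, M' a b * (((P' b - P b : ℝ) : 𝕜) * vir M P w b) := by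
    rw [e1, e2, ← Finset.sum_sub_distrib, ← Finset.sum_sub_distrib, ← Finset.sum_add_distrib]
    refine Finset.sum_congr rfl fun b _ => ?_
    unfold psi
    push_cast
    ring
  rw [e3]
  refine (norm_add_le _ _).trans (add_le_add ?_ ?_)
  · refine (norm_sum_le _ _).trans (Finset.sum_le_sum fun b _ => ?_)
    rw [norm_mul]
  · refine (norm_sum_le _ _).trans (Finset.sum_le_sum fun b _ => ?_)
    rw [norm_mul, norm_mul, RCLike.norm_ofReal]
    exact mul_le_mul_of_nonneg_right (hC'.hM a b) (mul_nonneg (abs_nonneg _) (norm_nonneg _))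

/-- the hypotheses of FAR for block Y -/
structure YFar (H H' : Matrix X X ℝ) (κ κ' φ : X → ℝ) (F A S : Finset X) (h₀ k₀ β : ℝ)
    (P P' w g : X → ℝ) (U R : Finset X) (c₀ : ℝ) : Prop where
  upd : Upd H H' κ κ' φ F A S h₀ k₀ β
  hkk : ∀ x ∈ F, κ x ≤ 2 * κ' x ∧ κ' x ≤ κ x
  hc₀ : 0 < c₀
  hR : R ⊆ A
  hU : U ⊆ R
  hFR : F ⊆ R
  hg : ∀ a ∈ R, c₀ ≤ g a ∧ (Gr H κ a a).im ≤ 3 / 2 * g a ∧ (Gr H' κ' a a).im ≤ 3 / 2 * g a
  hP : (∀ x, 0 ≤ P x) ∧ (∀ x, x ∉ U → P x = 0) ∧ ∀ x ∈ U, 2 * (P x * g x) ≤ κ x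
  hP' : (∀ x, 0 ≤ P' x) ∧ (∀ x, x ∉ U → P' x = 0) ∧ ∀ x ∈ U, 2 * (P' x * g x) ≤ κ' x
  hPP : (∀ x, x ∉ F → P' x = P x) ∧ ∀ x ∈ F, |P' x - P x| * g x ≤ κ' x
  hw : (∀ x, 0 ≤ w x) ∧ ∀ x, w x ≤ κ' x

namespace YFar

variable {H H' : Matrix X X ℝ} {κ κ' φ : X → ℝ} {F A S : Finset X} {h₀ k₀ β : ℝ}
  {P P' w g : X → ℝ} {U R : Finset X} {c₀ : ℝ}

theorem kle (h : YFar H H' κ κ' φ F A S h₀ k₀ β P P' w g U R c₀) (x : X) :
    κ' x ≤ κ x ∧ κ x ≤ 2 * κ' x := by
  by_cases hx : x ∈ F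
  · exact ⟨(h.hkk x hx).2, (h.hkk x hx).1⟩
  · have := (h.upd.off x hx).1
    have hp := h.upd.n.pos x
    constructor
    · rw [this]
    · rw [this]; linarith

theorem cmp (h : YFar H H' κ κ' φ F A S h₀ k₀ β P P' w g U R c₀) {𝕜 : Type} [RCLike 𝕜]
    {M : Matrix X X 𝕜} (hM : ∀ a b, ‖M a b‖ ≤ KK (Gr H κ) a b) :
    Cmp M (KK (Gr H κ)) P g U R (3 / 4) where
  hM := hM
  hP := ⟨h.hP.1, h.hP.2.1⟩
  hU := h.hU
  hg := fun a ha => lt_of_lt_of_le h.hc₀ (h.hg a ha).1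
  hρ := by norm_num
  hK := fun a ha => by
    have e1 : ∑ b, KK (Gr H κ) a b * P b * g b ≤ ∑ b, 1 / 2 * (κ b * ‖Gr H κ a b‖ ^ 2) := by
      refine Finset.sum_le_sum fun b _ => ?_
      unfold KK
      by_cases hb : b ∈ U
      · nlinarith [mul_le_mul_of_nonneg_right (h.hP.2.2 b hb) (sq_nonneg ‖Gr H κ a b‖)]
      · rw [h.hP.2.1 b hb, mul_zero, zero_mul]
        exact mul_nonneg (by norm_num) (mul_nonneg (h.upd.n.pos b).le (sq_nonneg _))
    rw [← Finset.mul_sum, ward h.upd.n] at e1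
    linarith [(h.hg a ha).2.1]

theorem cmp' (h : YFar H H' κ κ' φ F A S h₀ k₀ β P P' w g U R c₀) {𝕜 : Type} [RCLike 𝕜]
    {M : Matrix X X 𝕜} (hM : ∀ a b, ‖M a b‖ ≤ KK (Gr H' κ') a b) :
    Cmp M (KK (Gr H' κ')) P' g U R (3 / 4) where
  hM := hM
  hP := ⟨h.hP'.1, h.hP'.2.1⟩
  hU := h.hU
  hg := fun a ha => lt_of_lt_of_le h.hc₀ (h.hg a ha).1
  hρ := by norm_num
  hK := fun a ha => by
    have e1 : ∑ b, KK (Gr H' κ') a b * P' b * g b ≤
        ∑ b, 1 / 2 * (κ' b * ‖Gr H' κ' a b‖ ^ 2) := by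
      refine Finset.sum_le_sum fun b _ => ?_
      unfold KK
      by_cases hb : b ∈ U
      · nlinarith [mul_le_mul_of_nonneg_right (h.hP'.2.2 b hb) (sq_nonneg ‖Gr H' κ' a b‖)]
      · rw [h.hP'.2.1 b hb, mul_zero, zero_mul]
        exact mul_nonneg (by norm_num) (mul_nonneg (h.upd.n'.pos b).le (sq_nonneg _))
    rw [← Finset.mul_sum, ward h.upd.n'] at e1
    linarith [(h.hg a ha).2.2]

/-- bounds for the virtual vector -/
theorem vir_le (h : YFar H H' κ κ' φ F A S h₀ k₀ β P P' w g U R c₀) {𝕜 : Type} [RCLike 𝕜]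
    {M : Matrix X X 𝕜} (hM : ∀ a b, ‖M a b‖ ≤ KK (Gr H κ) a b) :
    (∀ a ∈ R, ‖vir M P w a‖ ≤ 6 * g a) ∧ ∀ y, ‖psi P w (vir M P w) y‖ ≤ 4 * κ y := by
  have hC := h.cmp hM
  have hV := Pool.Agent.ABY.H82.vex hCmp 𝕜 X M (KK (Gr H κ)) P g U R (3 / 4) hC
  have h1 : ∀ a ∈ R, ‖vir M P w a‖ ≤ 6 * g a := fun a ha => by
    have e1 := hV.2.2.2.1 (M *ᵥ fun x => ((w x : ℝ) : 𝕜)) (3 / 2) (by norm_num) (fun b hb => by
      have e2 : (M *ᵥ fun x => ((w x : ℝ) : 𝕜)) b = ∑ c, M b c * ((w c : ℝ) : 𝕜) := rfl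
      rw [e2]
      refine (norm_sum_le _ _).trans ?_
      have e3 : ∑ c, ‖M b c * ((w c : ℝ) : 𝕜)‖ ≤ ∑ c, κ c * ‖Gr H κ b c‖ ^ 2 := by
        refine Finset.sum_le_sum fun c _ => ?_
        rw [norm_mul, RCLike.norm_ofReal, abs_of_nonneg (h.hw.1 c), mul_comm (κ c)]
        refine mul_le_mul (hM b c) ((h.hw.2 c).trans (h.kle c).1) (h.hw.1 c) ?_
        exact sq_nonneg _
      rw [ward h.upd.n] at e3
      exact e3.trans (h.hg b hb).2.1) a ha
    have e4 : (3 / 2 : ℝ) / (1 - 3 / 4) = 6 := by norm_num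
    rw [e4] at e1
    exact e1
  refine ⟨h1, fun y => ?_⟩
  unfold psi
  refine (norm_add_le _ _).trans ?_
  rw [RCLike.norm_ofReal, abs_of_nonneg (h.hw.1 y), norm_mul, RCLike.norm_ofReal,
    abs_of_nonneg (h.hP.1 y)]
  have hwy := (h.hw.2 y).trans (h.kle y).1
  have hκ := h.upd.n.pos y
  by_cases hy : y ∈ U
  · have e5 := mul_le_mul_of_nonneg_left (h1 y (h.hU hy)) (h.hP.1 y)
    have e6 := h.hP.2.2 y hy
    linarith
  · rw [h.hP.2.1 y hy, zero_mul]; linarith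

/-- FAR for the virtual vector -/
theorem far (h : YFar H H' κ κ' φ F A S h₀ k₀ β P P' w g U R c₀) {𝕜 : Type} [RCLike 𝕜]
    {M M' : Matrix X X 𝕜} (hM : ∀ a b, ‖M a b‖ ≤ KK (Gr H κ) a b)
    (hM' : ∀ a b, ‖M' a b‖ ≤ KK (Gr H' κ') a b)
    (hMM : ∀ a b, ‖M' a b - M a b‖ ≤ ‖Gr H' κ' a b - Gr H κ a b‖ *
      (‖Gr H' κ' a b‖ + ‖Gr H κ a b‖)) {a : X} (ha : a ∈ R) :
    ‖vir M' P' w a - vir M P w a‖ ≤
      400 / (c₀ * k₀) * (Real.exp (-(β / 6 * φ a)) * g a) := by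
  have hk := h.upd.hk₀
  have hc := h.hc₀
  obtain ⟨hv6, hψ⟩ := h.vir_le hM
  have hK0 : ∀ x y, 0 ≤ KK (Gr H' κ') x y := fun x y => by unfold KK; exact sq_nonneg _
  refine vir_diff (h.cmp hM) (h.cmp' hM')
    (fun a => 400 / (c₀ * k₀) * (Real.exp (-(β / 6 * φ a)) * g a)) (fun a ha => ?_) a ha
  have haA := h.upd.hA a (h.hR ha)
  have hga := h.hg a ha
  -- sums over the rows
  have hw1 : ∑ b, κ b * ‖Gr H κ a b‖ ^ 2 ≤ 1 / k₀ := by
    rw [ward h.upd.n]; exact im_le h.upd.n hk haA.1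
  have hw2' : ∑ b, κ' b * ‖Gr H' κ' a b‖ ^ 2 ≤ 1 / k₀ := by
    rw [ward h.upd.n']; exact im_le h.upd.n' hk haA.2
  have hw2 : ∑ b, κ b * ‖Gr H' κ' a b‖ ^ 2 ≤ 2 / k₀ := by
    have : 2 / k₀ = 2 * (1 / k₀) := by ring
    rw [this]
    refine le_trans ?_ (mul_le_mul_of_nonneg_left hw2' (by norm_num))
    rw [Finset.mul_sum]
    refine Finset.sum_le_sum fun b _ => ?_
    nlinarith [mul_le_mul_of_nonneg_right (h.kle b).2 (sq_nonneg ‖Gr H' κ' a b‖)]
  -- the source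
  have hS1 : ∑ b, ‖M' a b - M a b‖ * ‖psi P w (vir M P w) b‖ ≤
      52 / k₀ * Real.exp (-(β * φ a)) := by
    have e1 : ∀ b, ‖M' a b - M a b‖ * ‖psi P w (vir M P w) b‖ ≤
        4 * (κ b * (‖Gr H' κ' a b - Gr H κ a b‖ * (‖Gr H' κ' a b‖ + ‖Gr H κ a b‖))) := fun b => by
      refine (mul_le_mul (hMM a b) (hψ b) (norm_nonneg _) (by positivity)).trans (le_of_eq ?_)
      ring
    refine (Finset.sum_le_sum fun b _ => e1 b).trans ?_
    rw [← Finset.mul_sum]
    have e2 : ∑ b, κ b * (‖Gr H' κ' a b - Gr H κ a b‖ * (‖Gr H' κ' a b‖ + ‖Gr H κ a b‖)) ≤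
        13 / k₀ * Real.exp (-(β * φ a)) := by
      by_cases haF : a ∈ F
      · rw [h.upd.hF a haF, mul_zero, neg_zero, Real.exp_zero, mul_one]
        have e3 : ∀ b, κ b * (‖Gr H' κ' a b - Gr H κ a b‖ * (‖Gr H' κ' a b‖ + ‖Gr H κ a b‖)) ≤
            2 * (κ b * ‖Gr H' κ' a b‖ ^ 2) + 2 * (κ b * ‖Gr H κ a b‖ ^ 2) := fun b => by
          have e4 := norm_sub_le (Gr H' κ' a b) (Gr H κ a b)
          have e5 := h.upd.n.pos b
          have e6 : ‖Gr H' κ' a b - Gr H κ a b‖ * (‖Gr H' κ' a b‖ + ‖Gr H κ a b‖) ≤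
              2 * ‖Gr H' κ' a b‖ ^ 2 + 2 * ‖Gr H κ a b‖ ^ 2 := by
            have e7 : 0 ≤ ‖Gr H' κ' a b‖ + ‖Gr H κ a b‖ := by positivity
            nlinarith [mul_le_mul_of_nonneg_right e4 e7,
              sq_nonneg (‖Gr H' κ' a b‖ - ‖Gr H κ a b‖)]
          nlinarith [mul_le_mul_of_nonneg_left e6 e5.le]
        refine (Finset.sum_le_sum fun b _ => e3 b).trans ?_
        rw [Finset.sum_add_distrib, ← Finset.mul_sum, ← Finset.mul_sum]
        have e8 : 13 / k₀ = 2 * (2 / k₀) + 2 * (1 / k₀) + 7 / k₀ := by ring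
        have e9 : 0 ≤ 7 / k₀ := by positivity
        rw [e8]; linarith
      · have hmass := h.upd.mass_all (fun x hx => (h.hkk x hx).1) haF
        have hm2 : ∑ z, κ z * ‖Gr H' κ' a z - Gr H κ a z‖ ^ 2 ≤
            20 / k₀ * Real.exp (-(2 * β * φ a)) := by
          refine hmass.trans (mul_le_mul_of_nonneg_right ?_ (Real.exp_pos _).le)
          exact div_le_div_of_nonneg_left (by norm_num) hk haA.1
        set l := Real.exp (β * φ a) with hl
        have hl0 : 0 < l := Real.exp_pos _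
        have hli : Real.exp (-(β * φ a)) = l⁻¹ := Real.exp_neg _
        have hl2 : Real.exp (-(2 * β * φ a)) = l⁻¹ * l⁻¹ := by
          rw [← hli, ← Real.exp_add]; congr 1; ring
        rw [hli]
        have e3 : ∀ b, κ b * (‖Gr H' κ' a b - Gr H κ a b‖ * (‖Gr H' κ' a b‖ + ‖Gr H κ a b‖)) ≤
            l / 2 * (κ b * ‖Gr H' κ' a b - Gr H κ a b‖ ^ 2) +
              l⁻¹ * (κ b * ‖Gr H' κ' a b‖ ^ 2 + κ b * ‖Gr H κ a b‖ ^ 2) := fun b => by
          have e5 := h.upd.n.pos b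
          have e6 : ‖Gr H' κ' a b - Gr H κ a b‖ * (‖Gr H' κ' a b‖ + ‖Gr H κ a b‖) ≤
              l / 2 * ‖Gr H' κ' a b - Gr H κ a b‖ ^ 2 +
                l⁻¹ * (‖Gr H' κ' a b‖ ^ 2 + ‖Gr H κ a b‖ ^ 2) := by
            set x := ‖Gr H' κ' a b - Gr H κ a b‖
            set y := ‖Gr H' κ' a b‖
            set z := ‖Gr H κ a b‖
            have e7 : 0 ≤ l / 2 * (x - l⁻¹ * (y + z)) ^ 2 + l⁻¹ / 2 * (y - z) ^ 2 := by
              positivity
            have e8 : l / 2 * (x - l⁻¹ * (y + z)) ^ 2 + l⁻¹ / 2 * (y - z) ^ 2 =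
                l / 2 * x ^ 2 + l⁻¹ * (y ^ 2 + z ^ 2) - x * (y + z) := by
              field_simp; ring
            linarith
          nlinarith [mul_le_mul_of_nonneg_left e6 e5.le]
        refine (Finset.sum_le_sum fun b _ => e3 b).trans ?_
        rw [Finset.sum_add_distrib, ← Finset.mul_sum, ← Finset.mul_sum, Finset.sum_add_distrib]
        rw [hl2] at hm2
        have e9 : l / 2 * ∑ z, κ z * ‖Gr H' κ' a z - Gr H κ a z‖ ^ 2 ≤ 10 / k₀ * l⁻¹ := by
          refine (mul_le_mul_of_nonneg_left hm2 (by positivity)).trans (le_of_eq ?_)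
          field_simp; norm_num
        have e10 : l⁻¹ * (∑ b, κ b * ‖Gr H' κ' a b‖ ^ 2 + ∑ b, κ b * ‖Gr H κ a b‖ ^ 2) ≤
            3 / k₀ * l⁻¹ := by
          rw [mul_comm]
          refine mul_le_mul_of_nonneg_right ?_ (inv_pos.2 hl0).le
          have : 3 / k₀ = 2 / k₀ + 1 / k₀ := by ring
          rw [this]; exact add_le_add hw2 hw1
        have e11 : 13 / k₀ * l⁻¹ = 10 / k₀ * l⁻¹ + 3 / k₀ * l⁻¹ := by ring
        rw [e11]; exact add_le_add e9 e10
    have e3 : 52 / k₀ * Real.exp (-(β * φ a)) = 4 * (13 / k₀ * Real.exp (-(β * φ a))) := by ring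
    rw [e3]; exact mul_le_mul_of_nonneg_left e2 (by norm_num)
  have hS2 : ∑ b, KK (Gr H' κ') a b * (|P' b - P b| * ‖vir M P w b‖) ≤
      12 / k₀ * Real.exp (-(β * φ a)) := by
    have e1 : ∑ b, KK (Gr H' κ') a b * (|P' b - P b| * ‖vir M P w b‖) ≤
        6 * ∑ b ∈ F, κ' b * ‖Gr H' κ' a b‖ ^ 2 := by
      rw [← Finset.sum_add_sum_compl F, Finset.mul_sum]
      have e2 : ∑ b ∈ Fᶜ, KK (Gr H' κ') a b * (|P' b - P b| * ‖vir M P w b‖) = 0 :=
        Finset.sum_eq_zero fun b hb => by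
          rw [h.hPP.1 b (Finset.mem_compl.1 hb), sub_self, abs_zero, zero_mul, mul_zero]
      rw [e2, add_zero]
      refine Finset.sum_le_sum fun b hb => ?_
      have e3 := hv6 b (h.hFR hb)
      have e4 := h.hPP.2 b hb
      have e5 : |P' b - P b| * ‖vir M P w b‖ ≤ 6 * κ' b := by
        refine (mul_le_mul_of_nonneg_left e3 (abs_nonneg _)).trans ?_
        linarith
      refine (mul_le_mul_of_nonneg_left e5 (hK0 a b)).trans (le_of_eq ?_)
      unfold KK; ring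
    refine e1.trans ?_
    have e6 : ∑ b ∈ F, κ' b * ‖Gr H' κ' a b‖ ^ 2 ≤ 2 / k₀ * Real.exp (-(β * φ a)) := by
      by_cases haF : a ∈ F
      · rw [h.upd.hF a haF, mul_zero, neg_zero, Real.exp_zero, mul_one]
        refine (Finset.sum_le_univ_sum_of_nonneg fun b =>
          mul_nonneg (h.upd.n'.pos b).le (sq_nonneg _)).trans (hw2'.trans ?_)
        exact div_le_div_of_nonneg_right (by norm_num) hk.le
      · obtain ⟨_, _, m3⟩ := h.upd.mass haF
        have e7 : ∑ b ∈ F, κ' b * ‖Gr H' κ' a b‖ ^ 2 = ∑ b ∈ F, κ' b * ‖Gr H' κ' b a‖ ^ 2 :=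
          Finset.sum_congr rfl fun b _ => by rw [(hGeq X H' κ' h.upd.n').2.1 a b]
        rw [e7]
        refine m3.trans (mul_le_mul ?_ (Real.exp_le_exp.2 ?_) (Real.exp_pos _).le (by positivity))
        · exact div_le_div_of_nonneg_left (by norm_num) hk haA.1
        · nlinarith [mul_nonneg h.upd.hβ (h.upd.plt.nn a)]
    have e7 : 12 / k₀ * Real.exp (-(β * φ a)) = 6 * (2 / k₀ * Real.exp (-(β * φ a))) := by ring
    rw [e7]; exact mul_le_mul_of_nonneg_left e6 (by norm_num)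
  -- the supersolution
  have hβ := h.upd.hβ
  have hsup : ∑ b, KK (Gr H' κ') a b * (P' b * (400 / (c₀ * k₀) *
      (Real.exp (-(β / 6 * φ b)) * g b))) ≤
      13 / 16 * (400 / (c₀ * k₀) * (Real.exp (-(β / 6 * φ a)) * g a)) := by
    have e1 : ∀ b, KK (Gr H' κ') a b * (P' b * (400 / (c₀ * k₀) *
        (Real.exp (-(β / 6 * φ b)) * g b))) ≤ 400 / (c₀ * k₀) * Real.exp (-(β / 6 * φ a)) *
          (11 / 12 * (KK (Gr H' κ') a b * P' b * g b) +
            1 / 24 * (κ' b * (Real.exp (2 * β * |φ b - φ a|) * ‖Gr H' κ' a b‖ ^ 2))) :=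
      fun b => by
        have hc0 : 0 ≤ 400 / (c₀ * k₀) := by positivity
        have hea : 0 < Real.exp (-(β / 6 * φ a)) := Real.exp_pos _
        by_cases hb : b ∈ U
        · have hbR := h.hU hb
          have hgb : 0 ≤ g b := h.hc₀.le.trans (h.hg b hbR).1
          have hPg : 0 ≤ KK (Gr H' κ') a b * P' b * g b :=
            mul_nonneg (mul_nonneg (hK0 a b) (h.hP'.1 b)) hgb
          set y := 2 * β * |φ b - φ a| with hy
          have hy0 : 0 ≤ y := by positivity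
          have e2 : Real.exp (-(β / 6 * φ b)) ≤ Real.exp (-(β / 6 * φ a)) * Real.exp (y / 12) := by
            rw [← Real.exp_add]
            apply Real.exp_le_exp.2
            have : -(φ b) ≤ -(φ a) + |φ b - φ a| := by
              have := neg_abs_le (φ b - φ a); linarith
            rw [hy]; nlinarith
          have e3 : Real.exp (y / 12) ≤ 11 / 12 + 1 / 12 * Real.exp y := by
            have hconv := convexOn_exp.2 (Set.mem_univ (0 : ℝ)) (Set.mem_univ y)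
              (by norm_num : (0 : ℝ) ≤ 11 / 12) (by norm_num : (0 : ℝ) ≤ 1 / 12) (by norm_num)
            simp only [smul_eq_mul, mul_zero, zero_add, Real.exp_zero, mul_one] at hconv
            have : (1 / 12 : ℝ) * y = y / 12 := by ring
            rwa [this] at hconv
          have e4 : KK (Gr H' κ') a b * P' b * g b ≤ 1 / 2 * (κ' b * ‖Gr H' κ' a b‖ ^ 2) := by
            unfold KK
            nlinarith [mul_le_mul_of_nonneg_right (h.hP'.2.2 b hb) (sq_nonneg ‖Gr H' κ' a b‖)]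
          calc KK (Gr H' κ') a b * (P' b * (400 / (c₀ * k₀) * (Real.exp (-(β / 6 * φ b)) * g b)))
              = 400 / (c₀ * k₀) * ((KK (Gr H' κ') a b * P' b * g b) *
                  Real.exp (-(β / 6 * φ b))) := by ring
            _ ≤ 400 / (c₀ * k₀) * ((KK (Gr H' κ') a b * P' b * g b) *
                  (Real.exp (-(β / 6 * φ a)) * (11 / 12 + 1 / 12 * Real.exp y))) := by
                refine mul_le_mul_of_nonneg_left (mul_le_mul_of_nonneg_left ?_ hPg) hc0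
                exact e2.trans (mul_le_mul_of_nonneg_left e3 hea.le)
            _ = 400 / (c₀ * k₀) * Real.exp (-(β / 6 * φ a)) *
                  (11 / 12 * (KK (Gr H' κ') a b * P' b * g b) +
                    1 / 12 * Real.exp y * (KK (Gr H' κ') a b * P' b * g b)) := by ring
            _ ≤ _ := by
                refine mul_le_mul_of_nonneg_left ?_ (mul_nonneg hc0 hea.le)
                refine add_le_add le_rfl ?_
                have := mul_le_mul_of_nonneg_left e4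
                  (by positivity : 0 ≤ 1 / 12 * Real.exp y)
                refine this.trans (le_of_eq ?_)
                ring
        · rw [h.hP'.2.1 b hb]
          simp only [zero_mul, mul_zero, zero_add]
          have := h.upd.n'.pos b
          positivity
    refine (Finset.sum_le_sum fun b _ => e1 b).trans ?_
    rw [← Finset.mul_sum, Finset.sum_add_distrib, ← Finset.mul_sum, ← Finset.mul_sum]
    have e5 : ∑ b, KK (Gr H' κ') a b * P' b * g b ≤ 3 / 4 * g a :=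
      (h.cmp' hM').hK a ha
    have e6 := h.upd.ww' a
    have e7 : 11 / 12 * ∑ b, KK (Gr H' κ') a b * P' b * g b + 1 / 24 * ∑ b, κ' b *
        (Real.exp (2 * β * |φ b - φ a|) * ‖Gr H' κ' a b‖ ^ 2) ≤ 13 / 16 * g a := by
      linarith [hga.2.2]
    refine (mul_le_mul_of_nonneg_left e7 (by positivity)).trans (le_of_eq ?_)
    ring
  have hfin : (52 / k₀ + 12 / k₀) * Real.exp (-(β * φ a)) ≤
      3 / 16 * (400 / (c₀ * k₀) * (Real.exp (-(β / 6 * φ a)) * g a)) := by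
    have e1 : Real.exp (-(β * φ a)) ≤ Real.exp (-(β / 6 * φ a)) := by
      apply Real.exp_le_exp.2
      nlinarith [mul_nonneg hβ (h.upd.plt.nn a)]
    have e2 : (52 / k₀ + 12 / k₀) ≤ 3 / 16 * (400 / (c₀ * k₀) * g a) := by
      have e3 : 3 / 16 * (400 / (c₀ * k₀) * c₀) ≤ 3 / 16 * (400 / (c₀ * k₀) * g a) := by
        refine mul_le_mul_of_nonneg_left ?_ (by norm_num)
        exact mul_le_mul_of_nonneg_left hga.1 (by positivity)
      have e4 : 3 / 16 * (400 / (c₀ * k₀) * c₀) = 75 / k₀ := by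
        field_simp; norm_num
      have e5 : 52 / k₀ + 12 / k₀ ≤ 75 / k₀ := by
        rw [← add_div]; exact div_le_div_of_nonneg_right (by norm_num) hk.le
      linarith
    calc (52 / k₀ + 12 / k₀) * Real.exp (-(β * φ a)) ≤
        (3 / 16 * (400 / (c₀ * k₀) * g a)) * Real.exp (-(β / 6 * φ a)) :=
          mul_le_mul e2 e1 (Real.exp_pos _).le (le_trans (by positivity) e2)
      _ = _ := by ring
  linarith

/-- FAR for the pair -/
theorem pair (h : YFar H H' κ κ' φ F A S h₀ k₀ β P P' w g U R c₀) {a : X} (ha : a ∈ R) :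
    ‖vir (BB (Gr H' κ')) P' w a - vir (BB (Gr H κ)) P w a‖ ≤
      400 / (c₀ * k₀) * (Real.exp (-(β / 6 * φ a)) * g a) ∧
    |vir (KK (Gr H' κ')) P' w a - vir (KK (Gr H κ)) P w a| ≤
      400 / (c₀ * k₀) * (Real.exp (-(β / 6 * φ a)) * g a) := by
  constructor
  · refine h.far (fun a b => ?_) (fun a b => ?_) (fun a b => ?_) ha
    · unfold BB KK; rw [norm_pow]
    · unfold BB KK; rw [norm_pow]
    · unfold BB
      have : Gr H' κ' a b ^ 2 - Gr H κ a b ^ 2 =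
          (Gr H' κ' a b - Gr H κ a b) * (Gr H' κ' a b + Gr H κ a b) := by ring
      rw [this, norm_mul]
      exact mul_le_mul_of_nonneg_left (norm_add_le _ _) (norm_nonneg _)
  · have := h.far (M := KK (Gr H κ)) (M' := KK (Gr H' κ')) (fun a b => ?_) (fun a b => ?_)
      (fun a b => ?_) ha
    · rwa [Real.norm_eq_abs] at this
    · rw [Real.norm_eq_abs, abs_of_nonneg]; unfold KK; exact sq_nonneg _
    · rw [Real.norm_eq_abs, abs_of_nonneg]; unfold KK; exact sq_nonneg _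
    · unfold KK
      have : ‖Gr H' κ' a b‖ ^ 2 - ‖Gr H κ a b‖ ^ 2 =
          (‖Gr H' κ' a b‖ - ‖Gr H κ a b‖) * (‖Gr H' κ' a b‖ + ‖Gr H κ a b‖) := by ring
      rw [this, norm_mul, Real.norm_eq_abs, Real.norm_eq_abs,
        abs_of_nonneg (add_nonneg (norm_nonneg (Gr H' κ' a b)) (norm_nonneg (Gr H κ a b)))]
      exact mul_le_mul_of_nonneg_right (abs_norm_sub_norm_le _ _) (by positivity)

end YFar

end Pool.Agent.ANR.H89
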