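import Pool.Agent.Helper61_ANP.Pth

/-!
# The alive distance as a pseudo-metric
-/

set_option autoImplicit false

open scoped BigOperators

noncomputable section

namespace Pool.Agent.ANR.H89

variable {X : Type}

/-- `x` and `y` are joined by a walk with at most `n` alive steps -/
inductive AW (adj : X → X → Prop) (dead : Set X) : ℕ → X → X → Prop
  | refl (x : X) : AW adj dead 0 x x
  | step {n : ℕ} {x y z : X} : adj x y → AW adj dead n y z → AW adj dead (n + 1) x z
  | free {n : ℕ} {x y z : X} : adj x y → (x ∈ dead ∨ y ∈ dead) → AW adj dead n y z →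
      AW adj dead n x z

variable {adj : X → X → Prop} {dead : Set X}

theorem AW.trans {m n : ℕ} {x y z : X} (h : AW adj dead m x y) (h' : AW adj dead n y z) :
    AW adj dead (m + n) x z := by
  induction h with
  | refl x => rw [Nat.zero_add]; exact h'
  | step ha _ ih =>
    have := AW.step ha (ih h')
    rw [Nat.add_right_comm] at this
    exact this
  | free ha hd _ ih => exact AW.free ha hd (ih h')

theorem AW.symm (hs : ∀ x y, adj x y → adj y x) {n : ℕ} {x y : X} (h : AW adj dead n x y) :
    AW adj dead n y x := by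
  induction h with
  | refl x => exact AW.refl x
  | step ha _ ih =>
    have := ih.trans (AW.step (hs _ _ ha) (AW.refl _))
    rw [Nat.zero_add] at this
    exact this
  | free ha hd _ ih =>
    have := ih.trans (AW.free (hs _ _ ha) hd.symm (AW.refl _))
    rw [Nat.add_zero] at this
    exact this

/-- a walk as a list -/
theorem AW.list {n : ℕ} {x y : X} (h : AW adj dead n x y) :
    ∃ l, ACN.IsWalk adj x y l ∧ ACN.cost dead l ≤ n := by
  induction h with
  | refl x =>
    refine ⟨[x], ⟨by simp, rfl, rfl⟩, by simp [ACN.cost]⟩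
  | @step n x y z ha _ ih =>
    obtain ⟨l, ⟨h1, h2, h3⟩, h4⟩ := ih
    cases l with
    | nil => simp at h2
    | cons a l =>
      simp only [List.head?_cons, Option.some.injEq] at h2
      subst h2
      refine ⟨x :: a :: l, ⟨?_, rfl, ?_⟩, ?_⟩
      · rw [List.isChain_cons_cons]; exact ⟨ha, h1⟩
      · rw [List.getLast?_cons_cons]; exact h3
      · simp only [ACN.cost]
        split <;> omega
  | @free n x y z ha hd _ ih =>
    obtain ⟨l, ⟨h1, h2, h3⟩, h4⟩ := ih
    cases l with
    | nil => simp at h2
    | cons a l =>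
      simp only [List.head?_cons, Option.some.injEq] at h2
      subst h2
      refine ⟨x :: a :: l, ⟨?_, rfl, ?_⟩, ?_⟩
      · rw [List.isChain_cons_cons]; exact ⟨ha, h1⟩
      · rw [List.getLast?_cons_cons]; exact h3
      · simp only [ACN.cost]
        rw [if_pos hd]; omega

/-- the alive distance, cut off at `N` -/
def ad (adj : X → X → Prop) (dead : Set X) (N : ℕ) (x y : X) : ℕ :=
  sInf {n | n = N ∨ AW adj dead n x y}

theorem ad_mem (N : ℕ) (x y : X) : ad adj dead N x y = N ∨ AW adj dead (ad adj dead N x y) x y :=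
  Nat.sInf_mem (s := {n | n = N ∨ AW adj dead n x y}) ⟨N, Or.inl rfl⟩

theorem ad_le (N : ℕ) (x y : X) : ad adj dead N x y ≤ N := Nat.sInf_le (Or.inl rfl)

theorem ad_le_of {N n : ℕ} {x y : X} (h : AW adj dead n x y) : ad adj dead N x y ≤ n :=
  Nat.sInf_le (Or.inr h)

theorem ad_self (N : ℕ) (x : X) : ad adj dead N x x = 0 :=
  Nat.le_zero.1 (ad_le_of (AW.refl x))

theorem ad_comm (hs : ∀ x y, adj x y → adj y x) (N : ℕ) (x y : X) :
    ad adj dead N x y = ad adj dead N y x := by
  unfold ad
  congr 1
  ext n
  exact ⟨fun h => h.imp id fun h => h.symm hs, fun h => h.imp id fun h => h.symm hs⟩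

theorem ad_tri (N : ℕ) (x y z : X) :
    ad adj dead N x z ≤ ad adj dead N x y + ad adj dead N y z := by
  rcases ad_mem (adj := adj) (dead := dead) N x y with h | h
  · have := ad_le (adj := adj) (dead := dead) N x z; omega
  · rcases ad_mem (adj := adj) (dead := dead) N y z with h' | h'
    · have := ad_le (adj := adj) (dead := dead) N x z; omega
    · exact ad_le_of (h.trans h')

theorem ad_adj (N : ℕ) {x y : X} (h : adj x y) : ad adj dead N x y ≤ 1 :=
  ad_le_of (by have := AW.step (dead := dead) h (AW.refl y); rwa [Nat.zero_add] at this)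

theorem ad_dead (N : ℕ) {x y : X} (h : adj x y) (hd : x ∈ dead ∨ y ∈ dead) :
    ad adj dead N x y = 0 := Nat.le_zero.1 (ad_le_of (AW.free h hd (AW.refl y)))

theorem le_ad {D : X → X → ℝ} {c r : ℝ}
    (hw : ∀ x y l, ACN.IsWalk adj x y l → c * D x y - r ≤ ACN.cost dead l) (N : ℕ) (x y : X) :
    min (N : ℝ) (c * D x y - r) ≤ ad adj dead N x y := by
  rcases ad_mem (adj := adj) (dead := dead) N x y with h | h
  · rw [h]; exact min_le_left _ _
  · obtain ⟨l, hl, hc⟩ := h.list
    refine (min_le_right _ _).trans ((hw x y l hl).trans ?_)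
    exact_mod_cast hc

end Pool.Agent.ANR.H89
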