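import Pool.Agent.Helper89_FAR.Lev
import Pool.Agent.Helper17_ANR.LV2
import Pool.Agent.Helper92_ANR.LV1
import Pool.Agent.Helper77_ANR.DIR
import Pool.Agent.Helper72_ANR.GEQ
import Pool.Agent.Helper31_ANR.QSY

/-!
# FAR: a block update seen from far away, for every noise

`G = Gr H κ`, `G' = Gr H' κ'`, the rows of `H`, `κ` change at the sites of `F` only, arbitrarily. `φ` is a
plateau function which vanishes on `F` and across the bonds which touch `F`.
-/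

set_option autoImplicit false

open scoped BigOperators ComplexConjugate

noncomputable section

namespace Pool.Agent.ANR.H89

open Pool.Agent.ANR

theorem hGrn : GrnStmt := H63.grn
theorem hDir : DirStmt := H77.dir hGrn
theorem hGeq : GeqStmt := H72.geq hDir hGrn
theorem hLv1 : Lv1Stmt := H92.lv1 hGrn hDir (H31.qsy hGrn)
theorem hLv2 : Lv2Stmt := H17.lv2 hLv1 hDir hGeq

variable {X : Type} [Fintype X] [DecidableEq X]

/-- WWD: the weighted Ward identity -/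
theorem wwd {H : Matrix X X ℝ} {κ : X → ℝ} (hN : Net H κ) {S : Finset X} {φ : X → ℝ}
    {h₀ k₀ β : ℝ} (hP : Plt H φ S h₀) (hβ : 0 ≤ β) (hc : Real.sinh β * h₀ ≤ k₀ / 2)
    (hk : ∀ x ∈ S, k₀ ≤ κ x) {a : X} (ha : φ a = 0) :
    ∑ b, κ b * (Real.exp (2 * β * φ b) * ‖Gr H κ a b‖ ^ 2) ≤ 2 * (Gr H κ a a).im := by
  obtain ⟨g1, g2, g3, g4, g5⟩ := hGeq X H κ hN
  set ψ : X → ℂ := fun z => Gr H κ z a with hψ
  set W : X → ℝ := fun z => Real.exp (2 * β * φ z) with hW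
  have h1 := wgreen H κ W hN.sym ψ
  have h2 : ∑ x, ((W x : ℝ) : ℂ) * (conj (ψ x) * opv H κ ψ x) = conj (Gr H κ a a) := by
    rw [Finset.sum_eq_single a]
    · rw [g1 a a, if_pos rfl, hψ]
      have : W a = 1 := by simp only [hW]; rw [ha]; simp
      rw [this]; simp
    · intro x _ hx
      rw [g1 x a, if_neg hx]; simp
    · intro h; exact absurd (Finset.mem_univ a) h
  rw [h2, Complex.conj_im] at h1
  have hσ : 0 ≤ Real.sinh β := by rw [← Real.sinh_zero]; exact Real.sinh_le_sinh.2 hβ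
  have h4 := com_le (κ := κ) hN.sym (fun x => (Real.exp_pos (2 * β * φ x)).le) hσ
    (fun x y hH hne => exp_wt hP hβ x y hH hne) hP.row hk hc ψ
  have h5 : ∑ x ∈ S, W x * (κ x * ‖ψ x‖ ^ 2) ≤ ∑ x, W x * (κ x * ‖ψ x‖ ^ 2) :=
    Finset.sum_le_sum_of_subset_of_nonneg (Finset.subset_univ _) fun x _ _ =>
      mul_nonneg (Real.exp_pos _).le (mul_nonneg (hN.pos x).le (sq_nonneg _))
  have h6 : |com H W ψ| ≤ 1 / 2 * ∑ x ∈ S, W x * (κ x * ‖ψ x‖ ^ 2) := h4
  have h7 := (abs_le.1 h6).2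
  have h8 : ∑ b, κ b * (Real.exp (2 * β * φ b) * ‖Gr H κ a b‖ ^ 2) =
      ∑ x, W x * (κ x * ‖ψ x‖ ^ 2) :=
    Finset.sum_congr rfl fun x _ => by simp only [hW, hψ]; rw [g2 a x]; ring
  rw [h8]
  linarith

/-- the plateau function centered at another site -/
theorem Plt.center {H : Matrix X X ℝ} {φ : X → ℝ} {S : Finset X} {h₀ : ℝ} (h : Plt H φ S h₀)
    (a : X) : Plt H (fun x => |φ x - φ a|) S h₀ where
  nn := fun x => abs_nonneg _
  lip := fun x y hH hne => by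
    have h1 : φ x ≠ φ y := fun h => hne (by rw [h])
    obtain ⟨hx, hy, hxy⟩ := h.lip x y hH h1
    refine ⟨hx, hy, le_trans ?_ hxy⟩
    have h2 := abs_abs_sub_abs_le_abs_sub (φ x - φ a) (φ y - φ a)
    have h3 : φ x - φ a - (φ y - φ a) = φ x - φ y := by ring
    rwa [h3] at h2
  row := h.row

/-- a change at the sites of `F` only -/
structure Upd (H H' : Matrix X X ℝ) (κ κ' φ : X → ℝ) (F A S : Finset X) (h₀ k₀ β : ℝ) : Prop where
  n : Net H κ
  n' : Net H' κ'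
  off : Off H κ H' κ' F
  plt : Plt H φ S h₀
  hβ : 0 ≤ β
  hc : Real.sinh β * h₀ ≤ k₀ / 2
  hk₀ : 0 < k₀
  hF : ∀ x ∈ F, φ x = 0
  hSF : Disjoint S F
  hkS : ∀ x ∈ S, k₀ ≤ κ x
  hA : ∀ x ∈ A, k₀ ≤ κ x ∧ k₀ ≤ κ' x

namespace Upd

variable {H H' : Matrix X X ℝ} {κ κ' φ : X → ℝ} {F A S : Finset X} {h₀ k₀ β : ℝ}

/-- the leverage of a site off `F` -/
theorem lev (h : Upd H H' κ κ' φ F A S h₀ k₀ β) {x : X} (hx : x ∉ F) :
    Lev H κ F x (2 / κ x * Real.exp (-(2 * β * φ x))) :=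
  lev_decay h.n h.plt h.hβ h.hc h.hkS h.hF h.hSF hx

/-- the plateau function for the new network -/
theorem plt' (h : Upd H H' κ κ' φ F A S h₀ k₀ β) : Plt H' φ S h₀ where
  nn := h.plt.nn
  lip := fun x y hH hne => by
    by_cases hx : x ∈ F
    · by_cases hy : y ∈ F
      · exact absurd (by rw [h.hF x hx, h.hF y hy]) hne
      · have h1 : H' x y = H x y := by rw [h.n'.sym, (h.off y hy).2 x, h.n.sym]
        exact h.plt.lip x y (by rwa [h1] at hH) hne
    · have h1 : H' x y = H x y := (h.off x hx).2 y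
      exact h.plt.lip x y (by rwa [h1] at hH) hne
  row := fun x hx => by
    have hxF : x ∉ F := Finset.disjoint_left.1 h.hSF hx
    refine le_trans (le_of_eq ?_) (h.plt.row x hx)
    exact Finset.sum_congr rfl fun y _ => by rw [(h.off x hxF).2 y]

theorem hkS' (h : Upd H H' κ κ' φ F A S h₀ k₀ β) : ∀ x ∈ S, k₀ ≤ κ' x := fun x hx => by
  rw [(h.off x (Finset.disjoint_left.1 h.hSF hx)).1]; exact h.hkS x hx

/-- WWD for the new network, centered at `a` -/
theorem ww' (h : Upd H H' κ κ' φ F A S h₀ k₀ β) (a : X) :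
    ∑ b, κ' b * (Real.exp (2 * β * |φ b - φ a|) * ‖Gr H' κ' a b‖ ^ 2) ≤
      2 * (Gr H' κ' a a).im :=
  wwd h.n' (h.plt'.center a) h.hβ h.hc h.hkS' (by simp)

/-- WWD for the old network, centered at `a` -/
theorem ww (h : Upd H H' κ κ' φ F A S h₀ k₀ β) (a : X) :
    ∑ b, κ b * (Real.exp (2 * β * |φ b - φ a|) * ‖Gr H κ a b‖ ^ 2) ≤ 2 * (Gr H κ a a).im :=
  wwd h.n (h.plt.center a) h.hβ h.hc h.hkS (by simp)

/-- the fluxes into `F` and the mass of the change, for every site off `F` -/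
theorem mass (h : Upd H H' κ κ' φ F A S h₀ k₀ β) {x : X} (hx : x ∉ F) :
    ∑ z ∈ Fᶜ, κ z * ‖Gr H κ z x - Gr H' κ' z x‖ ^ 2 ≤ 8 / κ x * Real.exp (-(2 * β * φ x)) ∧
    ∑ b ∈ F, κ b * ‖Gr H κ b x‖ ^ 2 ≤ 2 / κ x * Real.exp (-(2 * β * φ x)) ∧
    ∑ b ∈ F, κ' b * ‖Gr H' κ' b x‖ ^ 2 ≤ 2 / κ x * Real.exp (-(2 * β * φ x)) := by
  have hL : 0 ≤ 2 / κ x * Real.exp (-(2 * β * φ x)) :=
    mul_nonneg (div_nonneg (by norm_num) (h.n.pos x).le) (Real.exp_pos _).le
  obtain ⟨_, h2, h3, h4⟩ := hLv2 X H H' κ κ' F x x _ _ h.n h.n' h.off hx hx hL hL (h.lev hx)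
    (h.lev hx)
  refine ⟨h2.trans (le_of_eq (by ring)), h3, h4⟩

/-- the entries, both sites off `F`, sharp constants -/
theorem ent_off (h : Upd H H' κ κ' φ F A S h₀ k₀ β) {x y : X} (hx : x ∉ F) (hy : y ∉ F) :
    κ x * κ y * ‖Gr H κ x y - Gr H' κ' x y‖ ^ 2 ≤ (4 * Real.exp (-(β * (φ x + φ y)))) ^ 2 := by
  have hL : ∀ z, 0 ≤ 2 / κ z * Real.exp (-(2 * β * φ z)) := fun z =>
    mul_nonneg (div_nonneg (by norm_num) (h.n.pos z).le) (Real.exp_pos _).le
  obtain ⟨h1, _⟩ := hLv2 X H H' κ κ' F x y _ _ h.n h.n' h.off hx hy (hL x) (hL y) (h.lev hx)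
    (h.lev hy)
  have hκx := h.n.pos x
  have hκy := h.n.pos y
  calc κ x * κ y * ‖Gr H κ x y - Gr H' κ' x y‖ ^ 2 ≤
      κ x * κ y * (4 * (2 / κ x * Real.exp (-(2 * β * φ x))) *
        (2 / κ y * Real.exp (-(2 * β * φ y)))) :=
        mul_le_mul_of_nonneg_left h1 (mul_pos hκx hκy).le
    _ = 16 * (Real.exp (-(2 * β * φ x)) * Real.exp (-(2 * β * φ y))) := by
        field_simp; norm_num
    _ = _ := by
        rw [mul_pow, ← Real.exp_add, ← Real.exp_nat_mul]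
        congr 1
        · norm_num
        · congr 1; push_cast; ring

/-- FAR, entries -/
theorem ent (h : Upd H H' κ κ' φ F A S h₀ k₀ β) {x y : X} (hx : x ∈ A) (hy : y ∈ A)
    (hxy : ¬ (x ∈ F ∧ y ∈ F)) :
    ‖Gr H' κ' x y - Gr H κ x y‖ ≤ 4 / k₀ * Real.exp (-(β * (φ x + φ y))) := by
  have hk := h.hk₀
  -- one site in `F`
  have key : ∀ u v, u ∈ F → u ∈ A → v ∉ F → v ∈ A → ‖Gr H' κ' u v - Gr H κ u v‖ ≤
      4 / k₀ * Real.exp (-(β * (φ u + φ v))) := fun u v hu huA' hv hvA => by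
    obtain ⟨_, h2, h3⟩ := h.mass hv
    have huA := h.hA u huA'
    have hvA' := h.hA v hvA
    have e1 : ∀ (k : ℝ) (z : ℂ), k₀ ≤ k → k * ‖z‖ ^ 2 ≤ 2 / κ v * Real.exp (-(2 * β * φ v)) →
        ‖z‖ ≤ 2 / k₀ * Real.exp (-(β * φ v)) := fun k z hkk hz => by
      have e2 : k₀ * ‖z‖ ^ 2 ≤ 2 / k₀ * Real.exp (-(2 * β * φ v)) := by
        refine (mul_le_mul_of_nonneg_right hkk (sq_nonneg _)).trans (hz.trans ?_)
        refine mul_le_mul_of_nonneg_right ?_ (Real.exp_pos _).le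
        exact div_le_div_of_nonneg_left (by norm_num) hk hvA'.1
      have e3 : ‖z‖ ^ 2 ≤ (2 / k₀ * Real.exp (-(β * φ v))) ^ 2 := by
        have e4 : (2 / k₀ * Real.exp (-(β * φ v))) ^ 2 = 4 / k₀ ^ 2 * Real.exp (-(2 * β * φ v)) := by
          rw [mul_pow, ← Real.exp_nat_mul, div_pow]
          congr 1
          · norm_num
          · congr 1; push_cast; ring
        rw [e4]
        have e5 : ‖z‖ ^ 2 = 1 / k₀ * (k₀ * ‖z‖ ^ 2) := by field_simp
        rw [e5]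
        calc 1 / k₀ * (k₀ * ‖z‖ ^ 2) ≤ 1 / k₀ * (2 / k₀ * Real.exp (-(2 * β * φ v))) :=
              mul_le_mul_of_nonneg_left e2 (by positivity)
          _ = 2 / k₀ ^ 2 * Real.exp (-(2 * β * φ v)) := by field_simp
          _ ≤ _ := by
              refine mul_le_mul_of_nonneg_right ?_ (Real.exp_pos _).le
              exact div_le_div_of_nonneg_right (by norm_num) (by positivity)
      exact (pow_le_pow_iff_left₀ (norm_nonneg _) (by positivity) (by norm_num)).1 e3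
    have e6 := e1 (κ u) (Gr H κ u v) huA.1 ((Finset.single_le_sum
      (f := fun b => κ b * ‖Gr H κ b v‖ ^ 2)
      (fun b _ => mul_nonneg (h.n.pos b).le (sq_nonneg _)) hu).trans h2)
    have e7 := e1 (κ' u) (Gr H' κ' u v) huA.2 ((Finset.single_le_sum
      (f := fun b => κ' b * ‖Gr H' κ' b v‖ ^ 2)
      (fun b _ => mul_nonneg (h.n'.pos b).le (sq_nonneg _)) hu).trans h3)
    refine (norm_sub_le _ _).trans ?_
    rw [h.hF u hu, zero_add]
    have : 4 / k₀ * Real.exp (-(β * φ v)) = 2 / k₀ * Real.exp (-(β * φ v)) +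
      2 / k₀ * Real.exp (-(β * φ v)) := by ring
    rw [this]
    exact add_le_add e7 e6
  by_cases hxF : x ∈ F
  · have hyF : y ∉ F := fun hyF => hxy ⟨hxF, hyF⟩
    exact key x y hxF hx hyF hy
  · by_cases hyF : y ∈ F
    · have := key y x hyF hy hxF hx
      rw [(hGeq X H κ h.n).2.1 x y, (hGeq X H' κ' h.n').2.1 x y, add_comm (φ x)]
      exact this
    · have h1 := h.ent_off hxF hyF
      have hx' := (h.hA x hx).1
      have hy' := (h.hA y hy).1
      have h2 : (k₀ * ‖Gr H' κ' x y - Gr H κ x y‖) ^ 2 ≤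
          (4 * Real.exp (-(β * (φ x + φ y)))) ^ 2 := by
        refine le_trans ?_ h1
        rw [mul_pow, norm_sub_rev]
        refine mul_le_mul_of_nonneg_right ?_ (sq_nonneg _)
        rw [sq]; exact mul_le_mul hx' hy' hk.le (h.n.pos x).le
      have h3 := (pow_le_pow_iff_left₀ (by positivity) (by positivity) (by norm_num)).1 h2
      have h4 : ‖Gr H' κ' x y - Gr H κ x y‖ = 1 / k₀ * (k₀ * ‖Gr H' κ' x y - Gr H κ x y‖) := by
        field_simp
      rw [h4]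
      calc 1 / k₀ * (k₀ * ‖Gr H' κ' x y - Gr H κ x y‖) ≤
          1 / k₀ * (4 * Real.exp (-(β * (φ x + φ y)))) :=
            mul_le_mul_of_nonneg_left h3 (by positivity)
        _ = _ := by ring

end Upd

end Pool.Agent.ANR.H89
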