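import Pool.Agent.Helper89_FAR.Far2
import Pool.Agent.Helper22_LTG.Lad
import Pool.Agent.AFJ.Defs

/-!
# FAR, part 3: the increments of the form, compared with the ladder
-/

set_option autoImplicit false

open scoped BigOperators Matrix

noncomputable section

namespace Pool.Agent.ANR.H89

open Pool.Agent.ANR

section ladder

variable {X : Type*} [Fintype X] [DecidableEq X]

/-- the bilinear form of `T - T E1 T` -/
def bf (E1 : Matrix X X ℝ) (τ u v : X → ℝ) : ℝ :=
  ∑ c, τ c * u c * v c - ∑ c, ∑ e, τ c * u c * (E1 c e * (τ e * v e))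

theorem bf_quad (E1 : Matrix X X ℝ) (τ u v : X → ℝ) (hs : ∀ x y, E1 x y = E1 y x) (t : ℝ) :
    bf E1 τ (fun x => u x + t * v x) (fun x => u x + t * v x) =
      bf E1 τ v v * (t * t) + 2 * bf E1 τ u v * t + bf E1 τ u u := by
  have h1 : ∑ c, ∑ e, τ c * v c * (E1 c e * (τ e * u e)) =
      ∑ c, ∑ e, τ c * u c * (E1 c e * (τ e * v e)) := by
    rw [Finset.sum_comm]
    exact Finset.sum_congr rfl fun c _ => Finset.sum_congr rfl fun e _ => by rw [hs e c]; ring
  have h2 : ∑ c, ∑ e, τ c * (u c + t * v c) * (E1 c e * (τ e * (u e + t * v e))) =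
      ∑ c, ∑ e, τ c * u c * (E1 c e * (τ e * u e)) +
        t * (∑ c, ∑ e, τ c * u c * (E1 c e * (τ e * v e)) +
          ∑ c, ∑ e, τ c * v c * (E1 c e * (τ e * u e))) +
        t * t * ∑ c, ∑ e, τ c * v c * (E1 c e * (τ e * v e)) := by
    simp only [Finset.mul_sum, ← Finset.sum_add_distrib]
    exact Finset.sum_congr rfl fun c _ => Finset.sum_congr rfl fun e _ => by ring
  have h3 : ∑ c, τ c * (u c + t * v c) * (u c + t * v c) = ∑ c, τ c * u c * u c +
      2 * t * ∑ c, τ c * u c * v c + t * t * ∑ c, τ c * v c * v c := by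
    simp only [Finset.mul_sum, ← Finset.sum_add_distrib]
    exact Finset.sum_congr rfl fun c _ => by ring
  unfold bf
  rw [h2, h3, h1]; ring

/-- the ladder changes an entry by at most the product of the fluxes into the resistances -/
theorem lad_tail {E E1 : Matrix X X ℝ} {τ : X → ℝ} (h : LTG.Lad E E1 τ) (x y : X) :
    (E x y - E1 x y) ^ 2 ≤ (∑ c, τ c * E x c ^ 2) * ∑ c, τ c * E y c ^ 2 := by
  have hs : ∀ a b, E a b = E b a := fun a b => (congrFun (congrFun h.sym.eq a) b).symm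
  have hs1 : ∀ a b, E1 a b = E1 b a := fun a b =>
    (congrFun (congrFun (LTG.lad_symm h).eq a) b).symm
  have heq : ∀ a b, E1 a b + ∑ c, E a c * τ c * E1 c b = E a b := fun a b => by
    have := congrFun (congrFun h.eq a) b
    rw [Matrix.add_apply, Matrix.mul_apply] at this
    rw [← this]
    congr 1
    refine Finset.sum_congr rfl fun c _ => ?_
    rw [Matrix.mul_diagonal]
  -- nonnegativity
  have hpos : ∀ v : X → ℝ, 0 ≤ bf E1 τ v v := fun v => by
    set w : X → ℝ := fun a => v a - ∑ e, E1 a e * (τ e * v e) with hw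
    have h1 : ∀ a, v a = w a + ∑ c, E a c * (τ c * w c) := fun a => by
      have h2 : ∑ c, E a c * (τ c * w c) = ∑ e, E1 a e * (τ e * v e) := by
        have h3 : ∀ e, E1 a e = E a e - ∑ c, E a c * τ c * E1 c e := fun e => by
          linarith [heq a e]
        have h4 : ∑ e, E1 a e * (τ e * v e) =
            ∑ e, (E a e - ∑ c, E a c * τ c * E1 c e) * (τ e * v e) :=
          Finset.sum_congr rfl fun e _ => by rw [← h3 e]
        have h5 : ∑ e, (∑ c, E a c * τ c * E1 c e) * (τ e * v e) =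
            ∑ c, E a c * (τ c * ∑ e, E1 c e * (τ e * v e)) := by
          simp only [Finset.mul_sum, Finset.sum_mul]
          rw [Finset.sum_comm]
          exact Finset.sum_congr rfl fun e _ => Finset.sum_congr rfl fun c _ => by ring
        rw [h4]
        simp only [sub_mul, Finset.sum_sub_distrib]
        rw [h5, ← Finset.sum_sub_distrib]
        exact Finset.sum_congr rfl fun e _ => by simp only [hw]; ring
      rw [h2]; simp only [hw]; ring
    have h4 : bf E1 τ v v = ∑ a, τ a * w a ^ 2 + LTG.qd E (fun a => τ a * w a) := by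
      have h5 : bf E1 τ v v = ∑ a, τ a * v a * w a := by
        unfold bf
        rw [← Finset.sum_sub_distrib]
        refine Finset.sum_congr rfl fun a _ => ?_
        simp only [hw]
        rw [mul_sub, Finset.mul_sum]
      rw [h5]
      unfold LTG.qd
      rw [← Finset.sum_add_distrib]
      refine Finset.sum_congr rfl fun a _ => ?_
      have h6 : (E *ᵥ fun a => τ a * w a) a = ∑ c, E a c * (τ c * w c) := rfl
      rw [h6]
      have h7 := h1 a
      calc τ a * v a * w a = τ a * w a * v a := by ring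
        _ = τ a * w a * (w a + ∑ c, E a c * (τ c * w c)) := by rw [← h7]
        _ = _ := by ring
    rw [h4]
    exact add_nonneg (Finset.sum_nonneg fun a _ => mul_nonneg (h.tau a) (sq_nonneg _)) (h.psd _)
  have hle : ∀ v : X → ℝ, bf E1 τ v v ≤ ∑ c, τ c * v c ^ 2 := fun v => by
    have h1 := LTG.lad_nonneg h (fun a => τ a * v a)
    have h2 : LTG.qd E1 (fun a => τ a * v a) =
        ∑ c, ∑ e, τ c * v c * (E1 c e * (τ e * v e)) := by
      unfold LTG.qd
      refine Finset.sum_congr rfl fun a _ => ?_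
      have h6 : (E1 *ᵥ fun a => τ a * v a) a = ∑ c, E1 a c * (τ c * v c) := rfl
      rw [h6, Finset.mul_sum]
    unfold bf
    rw [← h2]
    have h3 : ∑ c, τ c * v c * v c = ∑ c, τ c * v c ^ 2 :=
      Finset.sum_congr rfl fun c _ => by ring
    linarith
  -- the entry
  have hent : E x y - E1 x y = bf E1 τ (E x) (E y) := by
    have h1 : E x y - E1 x y = ∑ c, E x c * τ c * E1 c y := by linarith [heq x y]
    have h2 : ∀ c, E1 c y = E c y - ∑ e, E1 c e * (τ e * E y e) := fun c => by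
      have h3 := heq y c
      have h4 : ∑ e, E y e * τ e * E1 e c = ∑ e, E1 c e * (τ e * E y e) :=
        Finset.sum_congr rfl fun e _ => by rw [hs1 e c]; ring
      rw [hs1 c y, hs c y]; linarith
    rw [h1, Finset.sum_congr rfl fun c _ => by rw [h2 c]]
    unfold bf
    rw [← Finset.sum_sub_distrib]
    refine Finset.sum_congr rfl fun c _ => ?_
    rw [mul_sub, Finset.mul_sum, hs c y]
    congr 1
    · ring
    · exact Finset.sum_congr rfl fun e _ => by ring
  -- Cauchy-Schwarz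
  have hd := discrim_le_zero (a := bf E1 τ (E y) (E y)) (b := 2 * bf E1 τ (E x) (E y))
    (c := bf E1 τ (E x) (E x)) fun t => by rw [← bf_quad E1 τ (E x) (E y) hs1 t]; exact hpos _
  unfold discrim at hd
  rw [hent]
  have h5 : bf E1 τ (E x) (E y) ^ 2 ≤ bf E1 τ (E x) (E x) * bf E1 τ (E y) (E y) := by nlinarith
  exact h5.trans (mul_le_mul (hle _) (hle _) (hpos _)
    (Finset.sum_nonneg fun c _ => mul_nonneg (h.tau c) (sq_nonneg _)))

end ladder

variable {X : Type} [Fintype X] [DecidableEq X]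

open Pool.Agent.AFJ Pool.Agent.LE.QF

theorem ee_off (G : Matrix X X ℂ) (κ : X → ℝ) (A : Finset X) {x y : X} (hxy : x ≠ y) :
    EE G κ A x y = -(cd G κ A x y) := by
  unfold EE Dl
  rw [Matrix.sub_apply, Matrix.diagonal_apply_ne _ hxy, zero_sub]

theorem ee_diag (G : Matrix X X ℂ) (κ : X → ℝ) (A : Finset X) (x : X) :
    EE G κ A x x = ∑ y ∈ Finset.univ.erase x, cd G κ A x y := by
  unfold EE Dl
  rw [Matrix.sub_apply, Matrix.diagonal_apply_eq, ← Finset.add_sum_erase _ _ (Finset.mem_univ x)]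
  ring

namespace Upd

variable {H H' : Matrix X X ℝ} {κ κ' φ : X → ℝ} {F A S : Finset X} {h₀ k₀ β : ℝ}

/-- the fluxes of the form into `F` -/
theorem ee_flux (h : Upd H H' κ κ' φ F A S h₀ k₀ β) {τ : X → ℝ} {τs : ℝ}
    (hτ : ∀ x, 0 ≤ τ x ∧ τ x ≤ τs) (hτF : ∀ x, x ∉ F → τ x = 0) (x : X) :
    ∑ c, τ c * EE (Gr H κ) κ A x c ^ 2 ≤
      if x ∈ A then τs * (2 * Real.exp (-(2 * β * φ x))) ^ 2 else 0 := by
  have hτs : 0 ≤ τs := (hτ x).1.trans (hτ x).2
  have hcd0 : ∀ a b, 0 ≤ cd (Gr H κ) κ A a b := fun a b => by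
    unfold cd; split
    · exact mul_nonneg (mul_pos (h.n.pos a) (h.n.pos b)).le (sq_nonneg _)
    · exact le_rfl
  by_cases hx : x ∈ A
  swap
  · rw [if_neg hx]
    refine le_of_eq (Finset.sum_eq_zero fun c _ => ?_)
    have : EE (Gr H κ) κ A x c = 0 := by
      have h0 : ∀ b, cd (Gr H κ) κ A x b = 0 := fun b => by
        unfold cd; rw [if_neg fun hh => hx hh.1]
      by_cases hc : x = c
      · subst hc; rw [ee_diag]; exact Finset.sum_eq_zero fun b _ => h0 b
      · rw [ee_off _ _ _ hc, h0, neg_zero]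
    rw [this]; ring
  rw [if_pos hx]
  have h1 : ∑ c, τ c * EE (Gr H κ) κ A x c ^ 2 ≤ τs * ∑ c ∈ F, |EE (Gr H κ) κ A x c| ^ 2 := by
    rw [← Finset.sum_add_sum_compl F]
    have h2 : ∑ c ∈ Fᶜ, τ c * EE (Gr H κ) κ A x c ^ 2 = 0 := Finset.sum_eq_zero fun c hc => by
      rw [hτF c (Finset.mem_compl.1 hc), zero_mul]
    rw [h2, add_zero, Finset.mul_sum]
    refine Finset.sum_le_sum fun c _ => ?_
    rw [sq_abs]
    exact mul_le_mul_of_nonneg_right (hτ c).2 (sq_nonneg _)
  refine h1.trans (mul_le_mul_of_nonneg_left ?_ hτs)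
  have h3 : ∑ c ∈ F, |EE (Gr H κ) κ A x c| ^ 2 ≤ (∑ c ∈ F, |EE (Gr H κ) κ A x c|) ^ 2 :=
    Finset.sum_sq_le_sq_sum_of_nonneg fun c _ => abs_nonneg _
  refine h3.trans (pow_le_pow_left₀ (Finset.sum_nonneg fun c _ => abs_nonneg _) ?_ 2)
  have hcdle : ∀ b, cd (Gr H κ) κ A x b ≤ κ x * κ b * ‖Gr H κ x b‖ ^ 2 := fun b => by
    unfold cd KK; split
    · exact le_rfl
    · exact mul_nonneg (mul_pos (h.n.pos x) (h.n.pos b)).le (sq_nonneg _)
  by_cases hxF : x ∈ F
  · rw [h.hF x hxF, mul_zero, neg_zero, Real.exp_zero, mul_one]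
    have h5 : ∑ b, κ x * κ b * ‖Gr H κ x b‖ ^ 2 ≤ 1 := by
      have e1 : ∑ b, κ x * κ b * ‖Gr H κ x b‖ ^ 2 = κ x * (Gr H κ x x).im := by
        rw [← ward h.n, Finset.mul_sum]
        exact Finset.sum_congr rfl fun b _ => by ring
      rw [e1]
      have h3 := (hGeq X H κ h.n).2.2.2.1 x
      have h4 : (Gr H κ x x).im ≤ ‖Gr H κ x x‖ :=
        (le_abs_self _).trans (Complex.abs_im_le_norm _)
      exact (mul_le_mul_of_nonneg_left h4 (h.n.pos x).le).trans h3
    have h6 : ∑ b ∈ Finset.univ.erase x, cd (Gr H κ) κ A x b ≤ 1 := by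
      refine (Finset.sum_le_sum fun b _ => hcdle b).trans ?_
      exact (Finset.sum_le_univ_sum_of_nonneg fun b =>
        mul_nonneg (mul_pos (h.n.pos x) (h.n.pos b)).le (sq_nonneg _)).trans h5
    have h7 : ∑ c ∈ F, |EE (Gr H κ) κ A x c| ≤
        EE (Gr H κ) κ A x x + ∑ b ∈ Finset.univ.erase x, cd (Gr H κ) κ A x b := by
      rw [← Finset.add_sum_erase F _ hxF]
      have e2 : |EE (Gr H κ) κ A x x| = EE (Gr H κ) κ A x x := abs_of_nonneg (by
        rw [ee_diag]; exact Finset.sum_nonneg fun b _ => hcd0 x b)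
      rw [e2]
      refine add_le_add le_rfl ?_
      refine le_trans (le_of_eq ?_) (Finset.sum_le_sum_of_subset_of_nonneg
        (Finset.erase_subset_erase x (Finset.subset_univ F)) fun b _ _ => hcd0 x b)
      refine Finset.sum_congr rfl fun c hc => ?_
      rw [ee_off _ _ _ (Finset.ne_of_mem_erase hc).symm, abs_neg, abs_of_nonneg (hcd0 x c)]
    rw [ee_diag] at h7
    linarith
  · have h5 := h.cond_F hxF
    refine le_trans (Finset.sum_le_sum fun c hc => ?_) h5
    have hne : x ≠ c := fun hh => hxF (by rw [hh]; exact hc)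
    rw [ee_off _ _ _ hne, abs_neg, abs_of_nonneg (hcd0 x c)]
    exact hcdle c

/-- FAR, the form after the block update compared with the ladder -/
theorem ee_tail (h : Upd H H' κ κ' φ F A S h₀ k₀ β) {τ : X → ℝ} {τs : ℝ}
    (hτ : ∀ x, 0 ≤ τ x ∧ τ x ≤ τs) (hτF : ∀ x, x ∉ F → τ x = 0) {E1 : Matrix X X ℝ}
    (hE : LTG.Lad (EE (Gr H κ) κ A) E1 τ) {x y : X} (hne : x ≠ y) (hxy : ¬ (x ∈ F ∧ y ∈ F)) :
    |EE (Gr H' κ') κ' A x y - E1 x y| ≤
      if x ∈ A ∧ y ∈ A then (8 + 4 * τs) * Real.exp (-(β * (φ x + φ y))) else 0 := by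
  have hτs : 0 ≤ τs := (hτ x).1.trans (hτ x).2
  have h1 := lad_tail hE x y
  have h2 := h.ee_flux hτ hτF x
  have h3 := h.ee_flux hτ hτF y
  have h4 : 0 ≤ ∑ c, τ c * EE (Gr H κ) κ A x c ^ 2 :=
    Finset.sum_nonneg fun c _ => mul_nonneg (hτ c).1 (sq_nonneg _)
  have h5 : 0 ≤ ∑ c, τ c * EE (Gr H κ) κ A y c ^ 2 :=
    Finset.sum_nonneg fun c _ => mul_nonneg (hτ c).1 (sq_nonneg _)
  by_cases hA : x ∈ A ∧ y ∈ A
  · rw [if_pos hA]
    rw [if_pos hA.1] at h2
    rw [if_pos hA.2] at h3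
    have h6 : |EE (Gr H κ) κ A x y - E1 x y| ≤ 4 * τs * Real.exp (-(β * (φ x + φ y))) := by
      have e1 : (EE (Gr H κ) κ A x y - E1 x y) ^ 2 ≤
          (4 * τs * Real.exp (-(2 * β * (φ x + φ y)))) ^ 2 := by
        refine h1.trans ((mul_le_mul h2 h3 h5 (by positivity)).trans (le_of_eq ?_))
        have e2 : Real.exp (-(2 * β * (φ x + φ y))) =
            Real.exp (-(2 * β * φ x)) * Real.exp (-(2 * β * φ y)) := by
          rw [← Real.exp_add]; congr 1; ring
        rw [e2]; ring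
      have e3 : |EE (Gr H κ) κ A x y - E1 x y| ≤ 4 * τs * Real.exp (-(2 * β * (φ x + φ y))) :=
        abs_le_of_sq_le_sq e1 (by positivity)
      refine e3.trans (mul_le_mul_of_nonneg_left (Real.exp_le_exp.2 ?_) (by positivity))
      nlinarith [mul_nonneg h.hβ (add_nonneg (h.plt.nn x) (h.plt.nn y))]
    have h7 : |EE (Gr H' κ') κ' A x y - EE (Gr H κ) κ A x y| ≤
        8 * Real.exp (-(β * (φ x + φ y))) := by
      rw [ee_off _ _ _ hne, ee_off _ _ _ hne]
      unfold cd KK
      rw [if_pos hA, if_pos hA]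
      have e1 := h.cond hxy
      rw [neg_sub_neg, abs_sub_comm]
      exact e1
    have h8 := abs_sub_le (EE (Gr H' κ') κ' A x y) (EE (Gr H κ) κ A x y) (E1 x y)
    have h9 : (8 + 4 * τs) * Real.exp (-(β * (φ x + φ y))) =
        8 * Real.exp (-(β * (φ x + φ y))) + 4 * τs * Real.exp (-(β * (φ x + φ y))) := by ring
    rw [h9]; linarith
  · rw [if_neg hA]
    have e1 : ∀ (G : Matrix X X ℂ) (k : X → ℝ), EE G k A x y = 0 := fun G k => by
      rw [ee_off _ _ _ hne]; unfold cd; rw [if_neg hA, neg_zero]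
    have e2 : (EE (Gr H κ) κ A x y - E1 x y) ^ 2 ≤ 0 := by
      refine h1.trans ?_
      by_cases hx : x ∈ A
      · have hy : y ∉ A := fun hy => hA ⟨hx, hy⟩
        rw [if_neg hy] at h3
        have : ∑ c, τ c * EE (Gr H κ) κ A y c ^ 2 = 0 := le_antisymm h3 h5
        rw [this, mul_zero]
      · rw [if_neg hx] at h2
        have : ∑ c, τ c * EE (Gr H κ) κ A x c ^ 2 = 0 := le_antisymm h2 h4
        rw [this, zero_mul]
    have e3 : EE (Gr H κ) κ A x y - E1 x y = 0 := by nlinarith [sq_nonneg (EE (Gr H κ) κ A x y - E1 x y)]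
    rw [e1] at e3 ⊢
    rw [e3, abs_zero]

end Upd

end Pool.Agent.ANR.H89
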