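import Pool.Agent.Helper89_FAR.LclZ
import Pool.Agent.Helper67_AHH.OkT

/-!
# FAR: `LNum` for the concrete environment
-/

set_option autoImplicit false

open scoped BigOperators Matrix NNReal

noncomputable section

namespace Pool.Agent.ANR.H89

open Pool.Agent.ANR
open Pool.Agent.BED (Tor adj ev)
open Pool.Agent.ANP (Cfg Geo Fc)
open Pool.Agent.AND2B (Ev Gt)
open Pool.Agent.AND.Num
open Pool.Agent.AHH (toE Al gg Old Ded)
open Pool.Agent.AHH.H61

/-- THE NUMBERS OF THE LOCALITY -/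
theorem lnum (d : ℕ) (hd : 1 ≤ d) (a es c C : ℝ) (hc : 0 < c) :
    Ev d a es c C fun V => ∀ n k, n ≤ V.N → V.kk n ≤ k → k < V.kk (n + 1) →
      AHH.H67.LNum (toE V c C) n k (AHH.H17.parZ V c C n k) := by
  have hd' : (1 : ℝ) ≤ d := by exact_mod_cast hd
  have hd0 : (0 : ℝ) < d := by linarith
  refine Ev.imp (fun V h => ?_) (((ev_good.and ev_w1).and (ev_cI 4)).and
    (ev_small (fun _ _ _ α _ s =>
      (4 / (c / 2) ^ 4 * s ^ (-(4 : ℝ)) * Real.exp (-((c / 2) / (16 * d) * s ^ (-(4 : ℝ)))) ≤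
        s ^ (1 : ℝ) ∧
      4 / (c / 2) * s ^ (-(1 : ℝ)) * Real.exp (-((c / 2) / (16 * d) * s ^ (-(4 : ℝ)))) ≤
        s ^ (1 : ℝ)) ∧
      2 / (c / 2) * s ^ (-((α : ℝ) + 1)) *
        Real.exp (-((c / 2) / (4 * d) * s ^ (-(2 : ℝ)))) ≤ s ^ (10 * ((α : ℝ) + 1)))
    fun th c₁ C₁ α J _ _ _ _ => ((small_exp_pow _ _ _ _ _ (by positivity) (by norm_num)).and
      (small_exp_pow _ _ _ _ _ (by positivity) (by norm_num))).and
      (small_exp_pow _ _ _ _ _ (by positivity) (by norm_num))))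
  obtain ⟨⟨⟨h1, hw1⟩, hcI⟩, hsm⟩ := h
  intro n k hn hk1 hk2
  have hp := h1.toPre
  have hth : V.th ≤ 1 := h1.th.2.le
  have hth0 := th_pos hp
  have hσ := sg_pos hp (n + 1)
  have hσ1 : V.sg (n + 1) ≤ 1 := (sg_le hp _).trans hw1
  have hsm1 := (hsm (V.sg (n + 1)) hσ (sg_le hp _)).1
  have hclk1 : V.sg (n + 1) ≤ V.cl (k + 1) := cl_anti' hp (by omega)
  have hclk : V.sg (n + 1) ≤ V.cl k := cl_anti' hp (by omega)
  have hclk0 : (0 : ℝ) < V.cl (k + 1) := cl_pos' hp _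
  have hLn : ((V.G.L n : ℕ) : ℝ) = 2 ^ V.l n := by
    show (((2 ^ V.l n : ℕ)) : ℝ) = 2 ^ V.l n
    push_cast; rfl
  have hll := h1.sc.llow n hn
  rw [← hLn] at hll
  -- the exponent
  have hexp : Real.exp (-(c / 2 * V.cl (k + 1) / (16 * d) * V.G.L n)) ≤
      Real.exp (-((c / 2) / (16 * d) * V.sg (n + 1) ^ (-(4 : ℝ)))) := by
    apply Real.exp_le_exp.2
    rw [neg_le_neg_iff]
    have e1 : V.sg (n + 1) ^ (-(4 : ℝ)) = V.sg (n + 1) * V.sg (n + 1) ^ (-(5 : ℝ)) := by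
      have := Real.rpow_add hσ 1 (-5)
      rw [Real.rpow_one] at this
      rw [← this]; norm_num
    rw [e1]
    calc c / 2 / (16 * d) * (V.sg (n + 1) * V.sg (n + 1) ^ (-(5 : ℝ))) ≤
        c / 2 / (16 * d) * (V.cl (k + 1) * V.G.L n) := by
          refine mul_le_mul_of_nonneg_left ?_ (by positivity)
          exact mul_le_mul hclk1 hll (Real.rpow_nonneg hσ.le _) hclk0.le
      _ = _ := by ring
  have hinv : ∀ q : ℕ, 1 / (V.cl (k + 1) : ℝ) ^ q ≤ V.sg (n + 1) ^ (-(q : ℝ)) := fun q => by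
    rw [Real.rpow_neg hσ.le, Real.rpow_natCast, one_div]
    exact inv_anti₀ (by positivity) (pow_le_pow_left₀ hσ.le hclk1 q)
  have hE2 : ∀ x : ℝ, x / (32 * d) * (2 * V.G.L n) = x / (16 * d) * V.G.L n := fun x => by
    field_simp; ring
  refine ⟨hsum_G hp (by omega), (hcI n hn).1, ?_, ?_, ?_, ?_, ?_⟩
  · intro m hm
    have e1 := (hcI m (by omega)).2
    have e2 := cI_pos d V.Dn (Finset.range (m + 1))
    show cI d V.Dn (Finset.range (m + 1)) + 1 / 2 ≤ (V.G.ρ m : ℝ) / 2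
    linarith
  · -- `L`
    show 4 / (c / 2 * V.cl (k + 1)) ^ 4 *
      Real.exp (-(c / 2 * V.cl (k + 1) / (32 * d) * (2 * V.G.L n))) ≤ 4 * (AHH.qq V n k).lam
    rw [hE2]
    have e1 : (1 : ℝ) ≤ 4 * (AHH.qq V n k).lam := by
      show (1 : ℝ) ≤ 4 * (1 / 4 * (V.cl k : ℝ) ^ (-(3 / 4) : ℝ) * (2 - V.sg n ^ (1 / 400 : ℝ)))
      have e2 : (1 : ℝ) ≤ (V.cl k : ℝ) ^ (-(3 / 4) : ℝ) :=
        Real.one_le_rpow_of_pos_of_le_one_of_nonpos (cl_pos' hp k)
          ((cl_le' hp k).trans hw1) (by norm_num)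
      have e3 : V.sg n ^ (1 / 400 : ℝ) ≤ 1 :=
        Real.rpow_le_one (sg_pos hp n).le ((sg_le hp n).trans hw1) (by norm_num)
      nlinarith
    refine le_trans ?_ e1
    have e4 : V.sg (n + 1) ^ (1 : ℝ) ≤ 1 := by rw [Real.rpow_one]; exact hσ1
    refine le_trans ?_ (hsm1.1.trans e4)
    have e5 := hinv 4
    push_cast at e5
    calc 4 / (c / 2 * V.cl (k + 1)) ^ 4 *
          Real.exp (-(c / 2 * V.cl (k + 1) / (16 * d) * V.G.L n)) =
        4 / (c / 2) ^ 4 * (1 / (V.cl (k + 1) : ℝ) ^ 4) *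
          Real.exp (-(c / 2 * V.cl (k + 1) / (16 * d) * V.G.L n)) := by
          rw [mul_pow]; field_simp
      _ ≤ _ := by
          refine mul_le_mul ?_ hexp (Real.exp_pos _).le (by positivity)
          exact mul_le_mul_of_nonneg_left e5 (by positivity)
  · -- `δ`
    show 4 / (c / 2 * V.cl (k + 1)) *
      Real.exp (-(c / 2 * V.cl (k + 1) / (32 * d) * (2 * V.G.L n))) ≤
      (V.cl k : ℝ) ^ (1 / 8 - 1 / 200 : ℝ)
    rw [hE2]
    have e1 : V.sg (n + 1) ^ (1 : ℝ) ≤ (V.cl k : ℝ) ^ (1 / 8 - 1 / 200 : ℝ) :=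
      (Real.rpow_le_rpow_of_exponent_ge hσ hσ1 (by norm_num)).trans
        (Real.rpow_le_rpow hσ.le hclk (by norm_num))
    refine le_trans ?_ (hsm1.2.trans e1)
    have e5 := hinv 1
    push_cast at e5
    rw [pow_one] at e5
    calc 4 / (c / 2 * V.cl (k + 1)) *
          Real.exp (-(c / 2 * V.cl (k + 1) / (16 * d) * V.G.L n)) =
        4 / (c / 2) * (1 / (V.cl (k + 1) : ℝ)) *
          Real.exp (-(c / 2 * V.cl (k + 1) / (16 * d) * V.G.L n)) := by
          field_simp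
      _ ≤ _ := by
          refine mul_le_mul ?_ hexp (Real.exp_pos _).le (by positivity)
          exact mul_le_mul_of_nonneg_left e5 (by positivity)
  · show 0 ≤ (V.cl k : ℝ) ^ (10 : ℝ)
    exact Real.rpow_nonneg (NNReal.coe_nonneg _) _
  · -- the old sites
    intro m hm
    show 2 / (c / 2 * V.cl (k + 1)) *
      Real.exp (-(c / 2 * V.cl (V.kk (m + 1)) / (4 * d) * V.G.ρ m)) ≤ (V.cl k : ℝ) ^ (10 : ℝ)
    subst hm
    have hy := sg_pos hp (m + 1)
    have hsm2 := (hsm (V.sg (m + 1)) hy (sg_le hp _)).2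
    have hlow := h1.sc.low (m + 1) hn
    have hlow' : V.sg (m + 1) ^ ((V.α : ℝ) + 1) ≤ V.sg (m + 1 + 1) := by
      have e1 : V.sg (m + 1) ^ ((V.α : ℝ) + 1) = V.sg (m + 1) ^ (V.α + 1) := by
        rw [← Real.rpow_natCast]; push_cast; rfl
      rw [e1]; exact hlow
    have hρ : V.sg (m + 1) ^ (-(3 : ℝ)) ≤ V.G.ρ m := by
      have e1 := h1.sc.rlow m (by omega)
      have h8 : ((V.G.ρ m : ℕ) : ℝ) = 2 ^ V.r m := by
        show (((2 ^ V.r m : ℕ)) : ℝ) = 2 ^ V.r m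
        push_cast; rfl
      rw [h8]; exact e1
    have e0 : V.sg (m + 1) ^ (10 * ((V.α : ℝ) + 1)) ≤ (V.cl k : ℝ) ^ (10 : ℝ) := by
      have e1 : V.sg (m + 1) ^ (10 * ((V.α : ℝ) + 1)) =
          (V.sg (m + 1) ^ ((V.α : ℝ) + 1)) ^ (10 : ℝ) := by
        rw [← Real.rpow_mul hy.le]; ring_nf
      rw [e1]
      exact Real.rpow_le_rpow (Real.rpow_nonneg hy.le _) (hlow'.trans hclk) (by norm_num)
    refine le_trans ?_ (hsm2.trans e0)
    have e5 : 1 / (V.cl (k + 1) : ℝ) ≤ V.sg (m + 1) ^ (-((V.α : ℝ) + 1)) := by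
      rw [Real.rpow_neg hy.le, one_div]
      exact inv_anti₀ (Real.rpow_pos_of_pos hy _) (hlow'.trans hclk1)
    have e6 : Real.exp (-(c / 2 * V.cl (V.kk (m + 1)) / (4 * d) * V.G.ρ m)) ≤
        Real.exp (-((c / 2) / (4 * d) * V.sg (m + 1) ^ (-(2 : ℝ)))) := by
      apply Real.exp_le_exp.2
      rw [neg_le_neg_iff]
      have e1 : V.sg (m + 1) ^ (-(2 : ℝ)) = V.sg (m + 1) * V.sg (m + 1) ^ (-(3 : ℝ)) := by
        have := Real.rpow_add hy 1 (-3)
        rw [Real.rpow_one] at this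
        rw [← this]; norm_num
      rw [e1]
      have e2 : (V.cl (V.kk (m + 1)) : ℝ) = V.sg (m + 1) := rfl
      rw [e2]
      calc c / 2 / (4 * d) * (V.sg (m + 1) * V.sg (m + 1) ^ (-(3 : ℝ))) ≤
          c / 2 / (4 * d) * (V.sg (m + 1) * V.G.ρ m) := by
            refine mul_le_mul_of_nonneg_left ?_ (by positivity)
            exact mul_le_mul_of_nonneg_left hρ hy.le
        _ = _ := by ring
    calc 2 / (c / 2 * V.cl (k + 1)) *
          Real.exp (-(c / 2 * V.cl (V.kk (m + 1)) / (4 * d) * V.G.ρ m)) =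
        2 / (c / 2) * (1 / (V.cl (k + 1) : ℝ)) *
          Real.exp (-(c / 2 * V.cl (V.kk (m + 1)) / (4 * d) * V.G.ρ m)) := by
          field_simp
      _ ≤ _ := by
          refine mul_le_mul ?_ e6 (Real.exp_pos _).le (by positivity)
          exact mul_le_mul_of_nonneg_left e5 (by positivity)

end Pool.Agent.ANR.H89
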