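import Pool.Agent.Helper89_FAR.Hf
import Pool.Agent.Helper89_FAR.Far4

/-!
# FAR: block Y in one block update
-/

set_option autoImplicit false

open scoped BigOperators Matrix NNReal

noncomputable section

namespace Pool.Agent.ANR.H89

open Pool.Agent.ANR
open Pool.Agent.BED (Tor adj ev)
open Pool.Agent.LE.QF (BB KK)
open Pool.Agent.ANP (Cfg Geo Fc)
open Pool.Agent.AND2B (Hr Vef kap net res)
open Pool.Agent.AFJ (ind)
open Pool.Agent.ABY (vir)
open Pool.Agent.AHH (Env Al gg pv pw yy)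

variable {d M : ℕ} [NeZero M]

/-- the hypotheses of FAR for block Y: `T'` agrees with `T` off `b`, on `b` the clocks are `c`; the other
running sites have clocks between `c` and `2 c` -/
theorem yfar_cfg {E e₀ : ℝ} {T T' : Cfg (Tor d M)} {φ : Tor d M → ℝ}
    {b run S : Finset (Tor d M)} {h₀ k₀ β c₀ c : ℝ}
    (hU : Upd (Hr (Vef T) E) (Hr (Vef T') E) (kap e₀ T) (kap e₀ T') φ b (Al T) S h₀ k₀ β)
    (he : 0 ≤ e₀) (hrun : run ⊆ Al T) (hb : b ⊆ run) (hmb : T'.mb = T.mb)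
    (hoff : ∀ x, x ∉ b → T'.s x = T.s x) (hon : ∀ x ∈ b, (T'.s x : ℝ) = c)
    (hcl : ∀ x ∈ run, c ≤ T.s x ∧ (T.s x : ℝ) ≤ 2 * c) (hc : 0 ≤ c) (hc₀ : 0 < c₀)
    (hg : ∀ x ∈ run, c₀ ≤ gg T x)
    (hmis : ∀ x ∈ run, (net E e₀ T x x).im ≤ 3 / 2 * gg T x)
    (hmis' : ∀ x ∈ run, (net E e₀ T' x x).im ≤ 3 / 2 * gg T x) :
    YFar (Hr (Vef T) E) (Hr (Vef T') E) (kap e₀ T) (kap e₀ T') φ b (Al T) S h₀ k₀ β
      (pv T run c) (pv T' run c) (pw T run c) (gg T) run run c₀ where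
  upd := hU
  hkk := fun x hx => by
    have h1 := hcl x (hb hx)
    have h2 := hon x hx
    have h3 := (hc₀.trans_le (hg x (hb hx))).le
    have hgx : gg T x = (T.mb x).im := rfl
    unfold kap
    rw [hmb, h2]
    rw [hgx] at h3
    constructor
    · nlinarith [mul_le_mul_of_nonneg_right h1.2 h3]
    · nlinarith [mul_le_mul_of_nonneg_right h1.1 h3]
  hc₀ := hc₀
  hR := hrun
  hU := fun x hx => hx
  hFR := hb
  hg := fun a ha => ⟨hg a ha, hmis a ha, hmis' a ha⟩
  hP := by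
    refine ⟨fun x => ?_, fun x hx => ?_, fun x hx => ?_⟩
    · unfold pv ind
      split_ifs with h
      · linarith [(hcl x h).1]
      · simp
    · unfold pv ind
      rw [if_neg hx, zero_mul]
    · unfold pv ind kap
      rw [if_pos hx, one_mul]
      have h1 := hcl x hx
      have h3 := (hc₀.trans_le (hg x hx)).le
      have hgx : gg T x = (T.mb x).im := rfl
      rw [hgx] at h3 ⊢
      nlinarith [mul_le_mul_of_nonneg_right h1.2 h3]
  hP' := by
    have hcl' : ∀ x ∈ run, c ≤ T'.s x ∧ (T'.s x : ℝ) ≤ 2 * c := fun x hx => by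
      by_cases hxb : x ∈ b
      · rw [hon x hxb]; constructor <;> linarith
      · rw [hoff x hxb]; exact hcl x hx
    refine ⟨fun x => ?_, fun x hx => ?_, fun x hx => ?_⟩
    · unfold pv ind
      split_ifs with h
      · linarith [(hcl' x h).1]
      · simp
    · unfold pv ind
      rw [if_neg hx, zero_mul]
    · unfold pv ind kap
      rw [if_pos hx, one_mul, hmb]
      have h1 := hcl' x hx
      have h3 := (hc₀.trans_le (hg x hx)).le
      have hgx : gg T x = (T.mb x).im := rfl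
      rw [hgx] at h3 ⊢
      nlinarith [mul_le_mul_of_nonneg_right h1.2 h3]
  hPP := by
    refine ⟨fun x hx => ?_, fun x hx => ?_⟩
    · unfold pv; rw [hoff x hx]
    · unfold pv ind kap
      rw [if_pos (hb hx), hon x hx, hmb]
      have h1 := hcl x (hb hx)
      have h3 := (hc₀.trans_le (hg x (hb hx))).le
      have hgx : gg T x = (T.mb x).im := rfl
      rw [hgx] at h3 ⊢
      have h4 : |1 * (c - c) - 1 * ((T.s x : ℝ) - c)| = (T.s x : ℝ) - c := by
        have : 1 * (c - c) - 1 * ((T.s x : ℝ) - c) = -((T.s x : ℝ) - c) := by ring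
        rw [this, abs_neg, abs_of_nonneg (by linarith)]
      rw [h4]
      nlinarith [mul_le_mul_of_nonneg_right h1.2 h3]
  hw := by
    have hk : ∀ x, 0 ≤ kap e₀ T' x := fun x => (hU.n'.pos x).le
    refine ⟨fun x => ?_, fun x => ?_⟩
    · unfold pw ind
      split_ifs with h
      · rw [one_mul]; exact mul_nonneg hc (hc₀.le.trans (hg x h))
      · simp
    · unfold pw ind
      split_ifs with h
      · rw [one_mul]
        have h3 := hc₀.le.trans (hg x h)
        have hgx : gg T x = (T.mb x).im := rfl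
        unfold kap
        rw [hmb]
        rw [hgx] at h3 ⊢
        have h4 : c ≤ T'.s x := by
          by_cases hxb : x ∈ b
          · rw [hon x hxb]
          · rw [hoff x hxb]; exact (hcl x h).1
        nlinarith [mul_le_mul_of_nonneg_right h4 h3]
      · rw [zero_mul]; exact hk x

/-- THE FAR PART OF BLOCK Y (the hypothesis `hfar` of `AHH.H90.inc_yin`, for all running sites):
`W = 800 / (c₀ k₀)`, `β' = β / 6` -/
theorem yy_far {E e₀ : ℝ} {T T' : Cfg (Tor d M)} {φ : Tor d M → ℝ}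
    {b run S : Finset (Tor d M)} {h₀ k₀ β c₀ c : ℝ}
    (hU : Upd (Hr (Vef T) E) (Hr (Vef T') E) (kap e₀ T) (kap e₀ T') φ b (Al T) S h₀ k₀ β)
    (he : 0 ≤ e₀) (hrun : run ⊆ Al T) (hb : b ⊆ run) (hmb : T'.mb = T.mb)
    (hoff : ∀ x, x ∉ b → T'.s x = T.s x) (hon : ∀ x ∈ b, (T'.s x : ℝ) = c)
    (hcl : ∀ x ∈ run, c ≤ T.s x ∧ (T.s x : ℝ) ≤ 2 * c) (hc : 0 ≤ c) (hc₀ : 0 < c₀)
    (hg : ∀ x ∈ run, c₀ ≤ gg T x)
    (hmis : ∀ x ∈ run, (net E e₀ T x x).im ≤ 3 / 2 * gg T x)
    (hmis' : ∀ x ∈ run, (net E e₀ T' x x).im ≤ 3 / 2 * gg T x) (a : Tor d M) (ha : a ∈ run) :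
    |yy E e₀ T' run c a - yy E e₀ T run c a| ≤
      800 / (c₀ * k₀) * Real.exp (-(β / 6 * φ a)) * gg T a := by
  have h := yfar_cfg hU he hrun hb hmb hoff hon hcl hc hc₀ hg hmis hmis'
  obtain ⟨h1, h2⟩ := h.pair ha
  have hpw : pw T' run c = pw T run c := by
    funext x; unfold pw gg; rw [hmb]
  have e1 : net E e₀ T = Gr (Hr (Vef T) E) (kap e₀ T) := rfl
  have e2 : net E e₀ T' = Gr (Hr (Vef T') E) (kap e₀ T') := rfl
  unfold yy
  rw [hpw, e1, e2]
  have h3 := abs_norm_sub_norm_le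
    (vir (BB (Gr (Hr (Vef T') E) (kap e₀ T'))) (pv T' run c) (pw T run c) a)
    (vir (BB (Gr (Hr (Vef T) E) (kap e₀ T))) (pv T run c) (pw T run c) a)
  have h4 := abs_le.1 (h3.trans h1)
  have h5 := abs_le.1 h2
  have e3 : 800 / (c₀ * k₀) * Real.exp (-(β / 6 * φ a)) * gg T a =
      400 / (c₀ * k₀) * (Real.exp (-(β / 6 * φ a)) * gg T a) +
        400 / (c₀ * k₀) * (Real.exp (-(β / 6 * φ a)) * gg T a) := by ring
  rw [e3, abs_le]
  constructor
  · linarith [h4.1, h5.1]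
  · linarith [h4.2, h5.2]

end Pool.Agent.ANR.H89
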