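import Pool.Agent.Helper89_FAR.Loc
import Pool.Agent.Helper89_FAR.YHf
import Pool.Agent.Helper67_AHH.Ok

/-!
# FAR: locality and block Y in the form of `AHH.H67.Lcl` and `AHH.H90.inc_yin`
-/

set_option autoImplicit false

open scoped BigOperators Matrix NNReal

noncomputable section

namespace Pool.Agent.ANR.H89

open Pool.Agent.ANR
open Pool.Agent.BED (Tor adj ev)
open Pool.Agent.LE.QF (BB KK)
open Pool.Agent.ANP (Cfg Geo Fc)
open Pool.Agent.AND2B (Hr Vef kap net res)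
open Pool.Agent.AHH (Env Al gg pv pw yy Old Ded)

variable {d M : ℕ} [NeZero M]

theorem oldOk {V : Env d M} {m : ℕ} {T : Cfg (Tor d M)} (hO : Old V (m + 1) T)
    (hD : Ded V (m + 1) T) : OldOk V m T := by
  obtain ⟨dd, h1, h2⟩ := hD
  refine ⟨dd, h2, fun x hx y hy => ?_⟩
  rcases hO m rfl x hx y hy with h | h
  · obtain ⟨j, hj, hyj⟩ := h1 y h
    exact Or.inl ⟨h, j, by omega, hyj⟩
  · exact Or.inr h

/-- LOCALITY (`AHH.H67.Lcl`). The numbers: `e = (c₀ cl (k + 1) / (16 d)) L_n` -/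
theorem lcl {V : Env d M} (hΓ : GeoF V.Γ) (hth : V.th ≤ 1)
    (hcl : ∀ k, V.cl (k + 1) = V.th * V.cl k) (hclp : ∀ k, 0 < V.cl k) (hcl1 : V.cl 0 ≤ 1)
    (he : 0 < V.e₀) (hc : 0 < V.c₀) (hc1 : V.c₀ ≤ 1) {n k : ℕ} {P run : Finset (Tor d M)}
    {T : Cfg (Tor d M)} {B : Tor d M} (hg : ∀ x ∈ Al T, V.c₀ ≤ gg T x)
    (hF : Fc V.Γ V.kk V.cl V.Dn n k P T run) (hkk : V.kk (n - 1) ≤ k) (hk0 : V.kk 0 = 0)
    (hO : Old V n T) (hD : Ded V n T)
    (hsum : ∑ i ∈ Finset.range (n + 1), (3 ^ d * V.Dn i : ℝ) / V.Γ.L i ≤ 1 / 4)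
    (hL : 4 * (cI d V.Dn (Finset.range (n + 1)) + 1) ≤ V.Γ.L n)
    (hρ : ∀ m, n = m + 1 → cI d V.Dn (Finset.range (m + 1)) + 1 / 2 ≤ V.Γ.ρ m / 2)
    (hB : V.Γ.bl n B = B) (hne : (run ∩ V.Γ.blk n B).Nonempty) {p : AHH.H67.Par}
    (hpL : 4 / (V.c₀ * V.cl (k + 1)) ^ 4 *
      Real.exp (-(V.c₀ * V.cl (k + 1) / (16 * d) * V.Γ.L n)) ≤ p.L)
    (hpδ : 4 / (V.c₀ * V.cl (k + 1)) *
      Real.exp (-(V.c₀ * V.cl (k + 1) / (16 * d) * V.Γ.L n)) ≤ p.δ)
    (hp0 : 0 ≤ p.old) (hpo : ∀ m, n = m + 1 → 2 / (V.c₀ * V.cl (k + 1)) *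
        Real.exp (-(V.c₀ * V.cl (V.kk (m + 1)) / (4 * d) * V.Γ.ρ m)) ≤ p.old) :
    AHH.H67.Lcl V T (run ∩ V.Γ.blk n B) (AHH.H67.Q1s V n T B) (AHH.H67.Yo V n T) k p := by
  intro T' hmb hoff hon
  have hk1 : 0 < V.c₀ * (V.cl (k + 1) : ℝ) := mul_pos hc (by exact_mod_cast hclp _)
  refine ⟨fun x hx hxQ => ?_, fun c hcb => ?_⟩
  · have hxB : 2 * V.Γ.L n < V.Γ.D x B := by
      by_contra hcon
      exact hxQ (by
        unfold AHH.H67.Q1s
        rw [Finset.mem_filter]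
        exact ⟨hx, not_lt.1 hcon⟩)
    obtain ⟨h1, h2⟩ := loc_hf hΓ hth hcl hclp hcl1 he hc hc1 hg hF hsum hL hB hne hmb hoff hon hx
      hxB
    have h3 : Real.exp (-(V.c₀ * V.cl (k + 1) / (32 * d) * V.Γ.D x B)) ≤
        Real.exp (-(V.c₀ * V.cl (k + 1) / (16 * d) * V.Γ.L n)) := by
      apply Real.exp_le_exp.2
      have h4 : 2 * (V.Γ.L n : ℝ) ≤ V.Γ.D x B := by exact_mod_cast hxB.le
      have h5 := mul_le_mul_of_nonneg_left h4
        (by positivity : 0 ≤ V.c₀ * (V.cl (k + 1) : ℝ) / (32 * d))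
      have h6 : V.c₀ * (V.cl (k + 1) : ℝ) / (32 * d) * (2 * (V.Γ.L n : ℝ)) =
          V.c₀ * V.cl (k + 1) / (16 * d) * V.Γ.L n := by
        rcases Nat.eq_zero_or_pos d with hd | hd
        · subst hd; simp
        · have hd' : (0 : ℝ) < d := by exact_mod_cast hd
          field_simp; ring
      linarith
    exact ⟨(h1.trans (mul_le_mul_of_nonneg_left h3 (by positivity))).trans hpL,
      (h2.trans (mul_le_mul_of_nonneg_left h3 (by positivity))).trans hpδ⟩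
  · have hset : Al T \ AHH.H67.Yo V n T = (Al T).filter (fun x => V.cl (V.kk (n - 1)) < T.s x) := by
      ext x
      unfold AHH.H67.Yo
      rw [Finset.mem_sdiff, Finset.mem_filter, Finset.mem_filter]
      constructor
      · rintro ⟨h1, h2⟩
        exact ⟨h1, not_le.1 fun h => h2 ⟨h1, h⟩⟩
      · rintro ⟨h1, h2⟩
        exact ⟨h1, fun h => absurd h.2 (not_le.2 h2)⟩
    rw [hset]
    rcases Nat.eq_zero_or_pos n with hn | hn
    · subst hn
      have h1 : (Al T).filter (fun x => V.cl (V.kk (0 - 1)) < T.s x) = ∅ := by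
        rw [Finset.filter_eq_empty_iff]
        intro x hx
        rw [not_lt]
        show T.s x ≤ V.cl (V.kk 0)
        rw [hk0]
        by_cases hr : x ∈ run
        · rw [hF.runs x hr]
          split
          · exact cl_anti hth hcl (Nat.zero_le _)
          · exact cl_anti hth hcl (Nat.zero_le _)
        · rcases hF.rest x hr with h | h
          · rw [h]; exact zero_le
          · exact h.2
      rw [h1, Finset.sum_empty]
      exact hp0
    · obtain ⟨m, rfl⟩ : ∃ m, n = m + 1 := ⟨n - 1, by omega⟩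
      simp only [Nat.add_sub_cancel] at hkk ⊢
      refine (hold_hf hΓ hth hcl hclp hcl1 he hc hc1 hg hF hkk (oldOk hO hD)
        (le_trans (Finset.sum_le_sum_of_subset_of_nonneg
          (Finset.range_subset_range.2 (Nat.le_succ _)) fun i _ _ => by positivity) hsum)
        (hρ m rfl) hmb hoff hon hcb).trans (hpo m rfl)

/-- BLOCK Y, far part (the hypothesis `hfar` of `AHH.H90.inc_yin`), `T' = T.hf th b ζ` -/
theorem hfar_hf {V : Env d M} (hth2 : 1 / 2 ≤ V.th)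
    (hcl : ∀ k, V.cl (k + 1) = V.th * V.cl k) (hth : V.th ≤ 1)
    (he : 0 < V.e₀) (hc : 0 < V.c₀) {n k : ℕ} {P run : Finset (Tor d M)}
    {T : Cfg (Tor d M)} {B : Tor d M} {ζ φ : Tor d M → ℝ} {S : Finset (Tor d M)} {h₀ k₀ β : ℝ}
    (hU : Upd (Hr (Vef T) V.E) (Hr (Vef (T.hf V.th (run ∩ V.Γ.blk n B) ζ)) V.E) (kap V.e₀ T)
      (kap V.e₀ (T.hf V.th (run ∩ V.Γ.blk n B) ζ)) φ (run ∩ V.Γ.blk n B) (Al T) S h₀ k₀ β)
    (hrun : run ⊆ Al T) (hg : ∀ x ∈ run, V.c₀ ≤ gg T x)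
    (hF : Fc V.Γ V.kk V.cl V.Dn n k P T run) (hbP : Disjoint (run ∩ V.Γ.blk n B) P)
    (hmis : ∀ x ∈ run, ‖net V.E V.e₀ T x x - T.mb x‖ ≤ V.c₀ / 4)
    (hent : ∀ x ∈ run, ‖net V.E V.e₀ (T.hf V.th (run ∩ V.Γ.blk n B) ζ) x x -
      net V.E V.e₀ T x x‖ ≤ V.c₀ / 4) :
    ∀ a ∈ run, |yy V.E V.e₀ (T.hf V.th (run ∩ V.Γ.blk n B) ζ) run (V.cl (k + 1)) a -
      yy V.E V.e₀ T run (V.cl (k + 1)) a| ≤
        800 / (V.c₀ * k₀) * Real.exp (-(β / 6 * φ a)) * gg T a := by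
  intro a ha
  have h2 : V.cl k ≤ 2 * V.cl (k + 1) := by
    rw [hcl, ← mul_assoc]
    calc V.cl k = 1 * V.cl k := (one_mul _).symm
      _ ≤ 2 * V.th * V.cl k := by
        gcongr
        have : (1 : ℝ) ≤ 2 * V.th := by
          have : (1 / 2 : ℝ) ≤ V.th := by exact_mod_cast hth2
          linarith
        exact_mod_cast this
  have h1 : V.cl (k + 1) ≤ V.cl k := cl_anti hth hcl (Nat.le_succ k)
  have hm : ∀ x ∈ run, (net V.E V.e₀ T x x).im ≤ 3 / 2 * gg T x ∧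
      (net V.E V.e₀ (T.hf V.th (run ∩ V.Γ.blk n B) ζ) x x).im ≤ 3 / 2 * gg T x := fun x hx => by
    have e1 := hmis x hx
    have e2 := hent x hx
    have e3 := hg x hx
    have e4 := abs_le.1 ((Complex.abs_im_le_norm _).trans e1)
    have e5 := abs_le.1 ((Complex.abs_im_le_norm _).trans e2)
    rw [Complex.sub_im] at e4 e5
    have e6 : gg T x = (T.mb x).im := rfl
    rw [e6] at e3 ⊢
    constructor
    · linarith [e4.2]
    · linarith [e4.2, e5.2]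
  refine yy_far hU he.le hrun Finset.inter_subset_left rfl (fun x hx => ?_) (fun x hx => ?_)
    (fun x hx => ?_) (NNReal.coe_nonneg _) hc hg (fun x hx => (hm x hx).1)
    (fun x hx => (hm x hx).2) a ha
  · show (if x ∈ run ∩ V.Γ.blk n B then V.th * T.s x else T.s x) = T.s x
    rw [if_neg hx]
  · have e1 : (T.hf V.th (run ∩ V.Γ.blk n B) ζ).s x = V.cl (k + 1) := by
      show (if x ∈ run ∩ V.Γ.blk n B then V.th * T.s x else T.s x) = V.cl (k + 1)
      rw [if_pos hx, hF.runs x (Finset.mem_inter.1 hx).1, if_neg (Finset.disjoint_left.1 hbP hx),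
        hcl]
    rw [e1]
  · rw [hF.runs x hx]
    split
    · constructor
      · exact le_rfl
      · have := (V.cl (k + 1)).2
        have e1 : (0 : ℝ) ≤ V.cl (k + 1) := this
        linarith
    · constructor
      · exact_mod_cast h1
      · exact_mod_cast h2

end Pool.Agent.ANR.H89
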