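import Pool.Agent.Helper63_ANR.GRN

/-!
# Weighted Green identity: decay of the leverages, weighted Ward identity

`φ ≥ 0` changes by at most one across a bond, and only across bonds with both ends in `S`, where the
absorption is at least `k₀`.
-/

set_option autoImplicit false

open scoped BigOperators ComplexConjugate

noncomputable section

namespace Pool.Agent.ANR.H89

open Pool.Agent.ANR

variable {X : Type} [Fintype X] [DecidableEq X]

/-- a plateau function -/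
structure Plt (H : Matrix X X ℝ) (φ : X → ℝ) (S : Finset X) (h₀ : ℝ) : Prop where
  nn : ∀ x, 0 ≤ φ x
  lip : ∀ x y, H x y ≠ 0 → φ x ≠ φ y → x ∈ S ∧ y ∈ S ∧ |φ x - φ y| ≤ 1
  row : ∀ x ∈ S, ∑ y, (if y = x then 0 else |H x y|) ≤ h₀

theorem Plt.mono {H : Matrix X X ℝ} {φ : X → ℝ} {S S' : Finset X} {h₀ h₁ : ℝ}
    (h : Plt H φ S h₀) (hS : S ⊆ S') (hr : ∀ x ∈ S', ∑ y, (if y = x then 0 else |H x y|) ≤ h₁) :
    Plt H φ S' h₁ :=
  ⟨h.nn, fun x y h1 h2 => ⟨hS (h.lip x y h1 h2).1, hS (h.lip x y h1 h2).2.1, (h.lip x y h1 h2).2.2⟩, hr⟩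

/-- the commutator term -/
def com (H : Matrix X X ℝ) (W : X → ℝ) (ψ : X → ℂ) : ℝ :=
  1 / 2 * ∑ x, ∑ y, (W x - W y) * (H x y * (conj (ψ x) * ψ y).im)

/-- the weighted Green identity -/
theorem wgreen (H : Matrix X X ℝ) (κ W : X → ℝ) (hs : ∀ x y, H x y = H y x) (ψ : X → ℂ) :
    (∑ x, (W x : ℂ) * (conj (ψ x) * opv H κ ψ x)).im =
      -∑ x, W x * (κ x * ‖ψ x‖ ^ 2) + com H W ψ := by
  have h1 : ∀ x, ((W x : ℂ) * (conj (ψ x) * opv H κ ψ x)).im =
      W x * (∑ y, H x y * (conj (ψ x) * ψ y).im) - W x * (κ x * ‖ψ x‖ ^ 2) := fun x => by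
    have h2 : conj (ψ x) * ψ x = ((‖ψ x‖ ^ 2 : ℝ) : ℂ) := by
      rw [mul_comm, Complex.mul_conj, Complex.normSq_eq_norm_sq]
    have h3 : conj (ψ x) * opv H κ ψ x = ∑ y, (H x y : ℂ) * (conj (ψ x) * ψ y) -
        Complex.I * ((κ x * ‖ψ x‖ ^ 2 : ℝ) : ℂ) := by
      unfold opv
      rw [mul_sub, Finset.mul_sum]
      congr 1
      · exact Finset.sum_congr rfl fun y _ => by ring
      · calc conj (ψ x) * (Complex.I * (κ x : ℂ) * ψ x)
            = Complex.I * (κ x : ℂ) * (conj (ψ x) * ψ x) := by ring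
          _ = _ := by rw [h2]; push_cast; ring
    rw [Complex.im_ofReal_mul, h3, Complex.sub_im, Complex.im_sum, Complex.I_mul_im,
      Complex.ofReal_re, mul_sub]
    congr 1
    congr 1
    exact Finset.sum_congr rfl fun y _ => by rw [Complex.im_ofReal_mul]
  rw [Complex.im_sum, Finset.sum_congr rfl fun x _ => h1 x, Finset.sum_sub_distrib]
  have h4 : ∑ x, W x * (∑ y, H x y * (conj (ψ x) * ψ y).im) = com H W ψ := by
    have h5 : ∑ x, ∑ y, W y * (H x y * (conj (ψ x) * ψ y).im) =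
        -∑ x, ∑ y, W x * (H x y * (conj (ψ x) * ψ y).im) := by
      rw [Finset.sum_comm, ← Finset.sum_neg_distrib]
      refine Finset.sum_congr rfl fun x _ => ?_
      rw [← Finset.sum_neg_distrib]
      refine Finset.sum_congr rfl fun y _ => ?_
      have h6 : (conj (ψ y) * ψ x).im = -(conj (ψ x) * ψ y).im := by
        have : conj (ψ y) * ψ x = conj (conj (ψ x) * ψ y) := by
          rw [map_mul, Complex.conj_conj, mul_comm]
        rw [this, Complex.conj_im]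
      rw [hs y x, h6]; ring
    unfold com
    simp only [sub_mul, Finset.sum_sub_distrib]
    rw [h5]
    simp only [Finset.mul_sum]
    simp only [← Finset.mul_sum]
    ring
  rw [h4]; ring

/-- the bound for the commutator -/
theorem com_le {H : Matrix X X ℝ} {κ W : X → ℝ} {S : Finset X} {σ k₀ h₀ : ℝ}
    (hs : ∀ x y, H x y = H y x) (hW0 : ∀ x, 0 ≤ W x) (hσ : 0 ≤ σ)
    (hW : ∀ x y, H x y ≠ 0 → W x ≠ W y → x ∈ S ∧ y ∈ S ∧
      |W x - W y| ≤ 2 * σ * (Real.sqrt (W x) * Real.sqrt (W y)))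
    (hr : ∀ x ∈ S, ∑ y, (if y = x then 0 else |H x y|) ≤ h₀) (hk : ∀ x ∈ S, k₀ ≤ κ x)
    (hc : σ * h₀ ≤ k₀ / 2) (ψ : X → ℂ) :
    |com H W ψ| ≤ 1 / 2 * ∑ x ∈ S, W x * (κ x * ‖ψ x‖ ^ 2) := by
  have h1 : ∀ x y, |(W x - W y) * (H x y * (conj (ψ x) * ψ y).im)| ≤
      (if x ∈ S then σ * ((if y = x then 0 else |H x y|) * (W x * ‖ψ x‖ ^ 2)) else 0) +
      (if y ∈ S then σ * ((if x = y then 0 else |H y x|) * (W y * ‖ψ y‖ ^ 2)) else 0) :=
    fun x y => by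
      have hp : ∀ a b : X, 0 ≤ (if a ∈ S then
          σ * ((if b = a then 0 else |H a b|) * (W a * ‖ψ a‖ ^ 2)) else 0) := fun a b => by
        split
        · refine mul_nonneg hσ (mul_nonneg ?_ (mul_nonneg (hW0 a) (sq_nonneg _)))
          split
          · exact le_rfl
          · exact abs_nonneg _
        · exact le_rfl
      by_cases h0 : H x y = 0 ∨ W x = W y
      · have h00 : (W x - W y) * (H x y * (conj (ψ x) * ψ y).im) = 0 := by
          rcases h0 with h0 | h0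
          · rw [h0]; ring
          · rw [h0]; ring
        rw [h00, abs_zero]; exact add_nonneg (hp x y) (hp y x)
      · push Not at h0
        obtain ⟨hx, hy, hxy⟩ := hW x y h0.1 h0.2
        have hne : y ≠ x := fun h => h0.2 (by rw [h])
        rw [if_pos hx, if_pos hy, if_neg hne, if_neg hne.symm, hs y x, abs_mul, abs_mul]
        have h2 : |(conj (ψ x) * ψ y).im| ≤ ‖ψ x‖ * ‖ψ y‖ := by
          refine (Complex.abs_im_le_norm _).trans ?_
          rw [norm_mul, RCLike.norm_conj]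
        have h3 : (Real.sqrt (W x) * ‖ψ x‖) * (Real.sqrt (W y) * ‖ψ y‖) ≤
            (W x * ‖ψ x‖ ^ 2 + W y * ‖ψ y‖ ^ 2) / 2 := by
          have e1 : (Real.sqrt (W x) * ‖ψ x‖) ^ 2 = W x * ‖ψ x‖ ^ 2 := by
            rw [mul_pow, Real.sq_sqrt (hW0 x)]
          have e2 : (Real.sqrt (W y) * ‖ψ y‖) ^ 2 = W y * ‖ψ y‖ ^ 2 := by
            rw [mul_pow, Real.sq_sqrt (hW0 y)]
          nlinarith [sq_nonneg (Real.sqrt (W x) * ‖ψ x‖ - Real.sqrt (W y) * ‖ψ y‖)]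
        calc |W x - W y| * (|H x y| * |(conj (ψ x) * ψ y).im|)
            ≤ 2 * σ * (Real.sqrt (W x) * Real.sqrt (W y)) * (|H x y| * (‖ψ x‖ * ‖ψ y‖)) :=
              mul_le_mul hxy (mul_le_mul_of_nonneg_left h2 (abs_nonneg _))
                (mul_nonneg (abs_nonneg _) (abs_nonneg _)) (by positivity)
          _ = 2 * σ * |H x y| * ((Real.sqrt (W x) * ‖ψ x‖) * (Real.sqrt (W y) * ‖ψ y‖)) := by ring
          _ ≤ 2 * σ * |H x y| * ((W x * ‖ψ x‖ ^ 2 + W y * ‖ψ y‖ ^ 2) / 2) :=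
              mul_le_mul_of_nonneg_left h3 (by positivity)
          _ = _ := by ring
  have h2 : ∑ x, ∑ y, (if x ∈ S then
      σ * ((if y = x then 0 else |H x y|) * (W x * ‖ψ x‖ ^ 2)) else 0) ≤
      1 / 2 * ∑ x ∈ S, W x * (κ x * ‖ψ x‖ ^ 2) := by
    rw [← Finset.sum_filter_add_sum_filter_not Finset.univ (fun x => x ∈ S)]
    have h3 : ∑ x ∈ Finset.univ.filter (fun x => x ∉ S), ∑ y, (if x ∈ S then
        σ * ((if y = x then 0 else |H x y|) * (W x * ‖ψ x‖ ^ 2)) else 0) = 0 :=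
      Finset.sum_eq_zero fun x hx => Finset.sum_eq_zero fun y _ =>
        if_neg (Finset.mem_filter.1 hx).2
    rw [h3, add_zero, Finset.mul_sum]
    have h4 : Finset.univ.filter (fun x => x ∈ S) = S := by ext; simp
    rw [h4]
    refine Finset.sum_le_sum fun x hx => ?_
    have h5 : ∑ y, (if x ∈ S then
        σ * ((if y = x then 0 else |H x y|) * (W x * ‖ψ x‖ ^ 2)) else 0) =
        σ * (∑ y, (if y = x then 0 else |H x y|)) * (W x * ‖ψ x‖ ^ 2) := by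
      rw [mul_assoc, Finset.sum_mul, Finset.mul_sum]
      exact Finset.sum_congr rfl fun y _ => if_pos hx
    rw [h5]
    have h6 : σ * (∑ y, (if y = x then 0 else |H x y|)) ≤ κ x / 2 :=
      (mul_le_mul_of_nonneg_left (hr x hx) hσ).trans (hc.trans (by linarith [hk x hx]))
    have h7 : 0 ≤ W x * ‖ψ x‖ ^ 2 := mul_nonneg (hW0 x) (sq_nonneg _)
    calc σ * (∑ y, (if y = x then 0 else |H x y|)) * (W x * ‖ψ x‖ ^ 2) ≤
        κ x / 2 * (W x * ‖ψ x‖ ^ 2) := mul_le_mul_of_nonneg_right h6 h7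
      _ = _ := by ring
  unfold com
  rw [abs_mul, abs_of_pos (by norm_num : (0 : ℝ) < 1 / 2)]
  have h8 : |∑ x, ∑ y, (W x - W y) * (H x y * (conj (ψ x) * ψ y).im)| ≤
      ∑ x ∈ S, W x * (κ x * ‖ψ x‖ ^ 2) := by
    refine (Finset.abs_sum_le_sum_abs _ _).trans ?_
    refine (Finset.sum_le_sum fun x _ => Finset.abs_sum_le_sum_abs _ _).trans ?_
    refine (Finset.sum_le_sum fun x _ => Finset.sum_le_sum fun y _ => h1 x y).trans ?_
    simp only [Finset.sum_add_distrib]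
    have h9 : ∑ x, ∑ y, (if y ∈ S then
        σ * ((if x = y then 0 else |H y x|) * (W y * ‖ψ y‖ ^ 2)) else 0) =
        ∑ x, ∑ y, (if x ∈ S then
        σ * ((if y = x then 0 else |H x y|) * (W x * ‖ψ x‖ ^ 2)) else 0) := Finset.sum_comm
    rw [h9]
    linarith
  linarith

/-- the weight `exp (2 β φ)` -/
theorem exp_wt {H : Matrix X X ℝ} {φ : X → ℝ} {S : Finset X} {h₀ β : ℝ} (h : Plt H φ S h₀)
    (hβ : 0 ≤ β) (x y : X) (hH : H x y ≠ 0)
    (hne : Real.exp (2 * β * φ x) ≠ Real.exp (2 * β * φ y)) :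
    x ∈ S ∧ y ∈ S ∧ |Real.exp (2 * β * φ x) - Real.exp (2 * β * φ y)| ≤
      2 * Real.sinh β * (Real.sqrt (Real.exp (2 * β * φ x)) *
        Real.sqrt (Real.exp (2 * β * φ y))) := by
  have h1 : φ x ≠ φ y := fun h => hne (by rw [h])
  obtain ⟨hx, hy, hxy⟩ := h.lip x y hH h1
  refine ⟨hx, hy, ?_⟩
  have h2 : ∀ z, Real.sqrt (Real.exp (2 * β * φ z)) = Real.exp (β * φ z) := fun z => by
    rw [show 2 * β * φ z = β * φ z + β * φ z by ring, Real.exp_add, Real.sqrt_mul_self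
      (Real.exp_pos _).le]
  rw [h2, h2]
  have h3 : Real.exp (2 * β * φ x) - Real.exp (2 * β * φ y) =
      Real.exp (β * φ x) * Real.exp (β * φ y) * (2 * Real.sinh (β * (φ x - φ y))) := by
    have h4 : 2 * Real.sinh (β * (φ x - φ y)) =
        Real.exp (β * (φ x - φ y)) - Real.exp (-(β * (φ x - φ y))) := by
      rw [Real.sinh_eq]; ring
    rw [h4, mul_sub, ← Real.exp_add, ← Real.exp_add, ← Real.exp_add]
    congr 2 <;> ring
  rw [h3, abs_mul, abs_of_pos (mul_pos (Real.exp_pos _) (Real.exp_pos _)), abs_mul,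
    abs_of_pos (by norm_num : (0 : ℝ) < 2)]
  have h5 : |Real.sinh (β * (φ x - φ y))| ≤ Real.sinh β := by
    rw [Real.abs_sinh]
    apply Real.sinh_le_sinh.2
    rw [abs_mul, abs_of_nonneg hβ]
    nlinarith
  have h6 : 0 < Real.exp (β * φ x) * Real.exp (β * φ y) := by positivity
  nlinarith [mul_le_mul_of_nonneg_left h5 h6.le]

/-- LVD: a field with its sources in `F` decays -/
theorem sol_decay {H : Matrix X X ℝ} {κ : X → ℝ} (hN : Net H κ) {F S : Finset X} {φ : X → ℝ}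
    {h₀ k₀ β : ℝ} (hP : Plt H φ S h₀) (hβ : 0 ≤ β) (hc : Real.sinh β * h₀ ≤ k₀ / 2)
    (hk : ∀ x ∈ S, k₀ ≤ κ x) (hF : ∀ x ∈ F, φ x = 0) (hSF : Disjoint S F) {ψ : X → ℂ}
    (hψ : Sol H κ F ψ) :
    ∑ z ∈ Fᶜ, κ z * (Real.exp (2 * β * φ z) * ‖ψ z‖ ^ 2) ≤ 2 * Q κ F ψ := by
  set W : X → ℝ := fun z => Real.exp (2 * β * φ z) with hW
  have h1 := wgreen H κ (fun z => W z - 1) hN.sym ψ
  have h2 : ∑ x, ((W x - 1 : ℝ) : ℂ) * (conj (ψ x) * opv H κ ψ x) = 0 := by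
    refine Finset.sum_eq_zero fun x _ => ?_
    by_cases hx : x ∈ F
    · have : W x = 1 := by simp only [hW]; rw [hF x hx]; simp
      rw [this]; simp
    · rw [hψ x hx]; simp
  have h3 : com H (fun z => W z - 1) ψ = com H W ψ := by
    unfold com
    congr 1
    refine Finset.sum_congr rfl fun x _ => Finset.sum_congr rfl fun y _ => ?_
    congr 1; ring
  rw [h2, h3, Complex.zero_im] at h1
  have hσ : 0 ≤ Real.sinh β := by rw [← Real.sinh_zero]; exact Real.sinh_le_sinh.2 hβ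
  have h4 := com_le (κ := κ) hN.sym (fun x => (Real.exp_pos (2 * β * φ x)).le) hσ
    (fun x y hH hne => exp_wt hP hβ x y hH hne) hP.row hk hc ψ
  have h5 : ∑ x ∈ S, W x * (κ x * ‖ψ x‖ ^ 2) ≤ ∑ x ∈ Fᶜ, W x * (κ x * ‖ψ x‖ ^ 2) := by
    refine Finset.sum_le_sum_of_subset_of_nonneg (fun x hx => ?_) fun x _ _ =>
      mul_nonneg (Real.exp_pos _).le (mul_nonneg (hN.pos x).le (sq_nonneg _))
    rw [Finset.mem_compl]
    exact Finset.disjoint_left.1 hSF hx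
  have h6 : ∑ x, (W x - 1) * (κ x * ‖ψ x‖ ^ 2) =
      ∑ x ∈ Fᶜ, W x * (κ x * ‖ψ x‖ ^ 2) - Q κ F ψ := by
    rw [← Finset.sum_add_sum_compl F]
    have h7 : ∑ x ∈ F, (W x - 1) * (κ x * ‖ψ x‖ ^ 2) = 0 := Finset.sum_eq_zero fun x hx => by
      have : W x = 1 := by simp only [hW]; rw [hF x hx]; simp
      rw [this]; ring
    rw [h7, zero_add]
    unfold Q
    rw [← Finset.sum_sub_distrib]
    exact Finset.sum_congr rfl fun x _ => by ring
  have h7 : |com H W ψ| ≤ 1 / 2 * ∑ x ∈ S, W x * (κ x * ‖ψ x‖ ^ 2) := h4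
  have h8 := (abs_le.1 h7).2
  have h9 : ∑ z ∈ Fᶜ, κ z * (Real.exp (2 * β * φ z) * ‖ψ z‖ ^ 2) =
      ∑ x ∈ Fᶜ, W x * (κ x * ‖ψ x‖ ^ 2) :=
    Finset.sum_congr rfl fun x _ => by simp only [hW]; ring
  rw [h9]
  linarith

/-- LVD: the leverages decay -/
theorem lev_decay {H : Matrix X X ℝ} {κ : X → ℝ} (hN : Net H κ) {F S : Finset X} {φ : X → ℝ}
    {h₀ k₀ β : ℝ} (hP : Plt H φ S h₀) (hβ : 0 ≤ β) (hc : Real.sinh β * h₀ ≤ k₀ / 2)
    (hk : ∀ x ∈ S, k₀ ≤ κ x) (hF : ∀ x ∈ F, φ x = 0) (hSF : Disjoint S F) {x : X} (hx : x ∉ F) :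
    Lev H κ F x (2 / κ x * Real.exp (-(2 * β * φ x))) := by
  intro ψ hψ
  have h1 := sol_decay hN hP hβ hc hk hF hSF hψ
  have h2 : κ x * (Real.exp (2 * β * φ x) * ‖ψ x‖ ^ 2) ≤ 2 * Q κ F ψ :=
    (Finset.single_le_sum (f := fun z => κ z * (Real.exp (2 * β * φ z) * ‖ψ z‖ ^ 2))
      (fun z _ => mul_nonneg (hN.pos z).le (mul_nonneg (Real.exp_pos _).le (sq_nonneg _)))
      (Finset.mem_compl.2 hx)).trans h1
  have hκ := hN.pos x
  have he := Real.exp_pos (2 * β * φ x)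
  rw [Real.exp_neg]
  have h3 : ‖ψ x‖ ^ 2 = (κ x)⁻¹ * (Real.exp (2 * β * φ x))⁻¹ *
      (κ x * (Real.exp (2 * β * φ x) * ‖ψ x‖ ^ 2)) := by field_simp
  rw [h3]
  calc (κ x)⁻¹ * (Real.exp (2 * β * φ x))⁻¹ * (κ x * (Real.exp (2 * β * φ x) * ‖ψ x‖ ^ 2)) ≤
      (κ x)⁻¹ * (Real.exp (2 * β * φ x))⁻¹ * (2 * Q κ F ψ) :=
        mul_le_mul_of_nonneg_left h2 (by positivity)
    _ = _ := by ring

end Pool.Agent.ANR.H89
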