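import Pool.Agent.Helper89_FAR.Ad
import Pool.Agent.Helper89_FAR.Hf
import Pool.Agent.Helper51_AGU.GCW

/-!
# WWD: the weights for the regauging (`AGU.GfiStmt`)
-/

set_option autoImplicit false

open scoped BigOperators Matrix NNReal

noncomputable section

namespace Pool.Agent.ANR.H89

open Pool.Agent.ANR
open Pool.Agent.BED (Tor adj ev)
open Pool.Agent.ANP (Cfg Geo Fc)
open Pool.Agent.AND2B (Hr Vef kap net res)
open Pool.Agent.AHH (Env Al gg)

/-- the weights which `AGU.GfiStmt` wants -/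
def Wts {X : Type} [Fintype X] [DecidableEq X] (G : Matrix X X ℂ) (R : Finset X) (m : X → ℂ)
    (s c N : ℝ) : Prop :=
  ∃ (e : X → X → ℝ) (B : X → Finset X), (∀ a b, 0 < e a b) ∧ (∀ a, e a a = 1) ∧
    (∀ o ∈ R, ∀ a ∈ R, ∑ b ∈ R, s * ‖G a b‖ ^ 2 *
      (|1 - e o a / e o b| ⊔ |1 - e o b / e o a|) * (m b).im ≤ c / 4 * (m a).im) ∧
    (∀ o, ((B o).card : ℝ) ≤ N) ∧ ∀ o, ∑ b ∈ R \ B o, e o b ^ 2 ≤ 1

variable {d M : ℕ} [NeZero M]

theorem sinh_beta {k₀ : ℝ} (d : ℕ) (hk : 0 < k₀) (hk1 : k₀ ≤ 1) :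
    Real.sinh (k₀ / (8 * d)) * (2 * d) ≤ k₀ / 2 := by
  rcases Nat.eq_zero_or_pos d with hd | hd
  · subst hd; simp; linarith
  · have hd' : (1 : ℝ) ≤ d := by exact_mod_cast hd
    have e1 : k₀ / (8 * d) ≤ 1 := by
      rw [div_le_one (by positivity)]; linarith
    have h0 : 0 ≤ k₀ / (8 * d) := by positivity
    have e2 : Real.sinh (k₀ / (8 * d)) ≤ 2 * (k₀ / (8 * d)) := by
      rw [Real.sinh_eq]
      have e1 := abs_le.1 (Real.abs_exp_sub_one_sub_id_le (by rw [abs_of_nonneg h0]; exact e1))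
      have e2 := Real.add_one_le_exp (-(k₀ / (8 * d)))
      nlinarith [e1.2]
    calc Real.sinh (k₀ / (8 * d)) * (2 * d) ≤ 2 * (k₀ / (8 * d)) * (2 * d) :=
          mul_le_mul_of_nonneg_right e2 (by positivity)
      _ = k₀ / 2 := by field_simp; norm_num

/-- the alive distance of a configuration -/
theorem alive_dist {Γ : Geo (Tor d M)} (hΓ : GeoF Γ) {T : Cfg (Tor d M)} {I : Finset ℕ}
    {Dn : ℕ → ℕ}
    (dens : ∃ dd : ℕ → Finset (Tor d M), (∀ x, T.s x = 0 → ∃ j ∈ I, x ∈ dd j) ∧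
      ∀ j B, (dd j ∩ Γ.blk j B).card ≤ Dn j)
    (hsum : ∑ i ∈ I, (3 ^ d * Dn i : ℝ) / Γ.L i ≤ 1 / 4) :
    ∃ D : Tor d M → Tor d M → ℕ, (∀ x, D x x = 0) ∧ (∀ x y, D x y = D y x) ∧
      (∀ x y z, D x z ≤ D x y + D y z) ∧ (∀ x y, Nb x y → D x y ≤ 1) ∧
      (∀ x y, Nb x y → (T.s x = 0 ∨ T.s y = 0) → D x y = 0) ∧
      ∀ x y, 1 / 2 * (Γ.D x y : ℝ) - cI d Dn I ≤ D x y := by
  obtain ⟨dd, hdd, hcard⟩ := dens
  set N₀ : ℕ := ∑ x, ∑ y, Γ.D x y with hN₀
  have hD : ∀ x y, Γ.D x y ≤ N₀ := fun x y => by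
    refine le_trans ?_ (Finset.single_le_sum (f := fun x => ∑ y, Γ.D x y)
      (fun i _ => Nat.zero_le _) (Finset.mem_univ x))
    exact Finset.single_le_sum (f := fun y => Γ.D x y) (fun i _ => Nat.zero_le _)
      (Finset.mem_univ y)
  have hsym : ∀ x y : Tor d M, Nb x y → Nb y x := fun x y h => h.symm
  have hmem : ∀ x, T.s x = 0 → x ∈ (↑(I.biUnion dd) : Set (Tor d M)) := fun x h => by
    obtain ⟨j, hj, hxj⟩ := hdd x h
    rw [Finset.mem_coe, Finset.mem_biUnion]; exact ⟨j, hj, hxj⟩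
  refine ⟨ad (fun x y : Tor d M => Nb x y) (↑(I.biUnion dd) : Set (Tor d M)) N₀, ad_self N₀,
    ad_comm hsym N₀, ad_tri N₀, fun x y h => ad_adj N₀ h,
    fun x y h hd => ad_dead N₀ h (hd.imp (hmem x) (hmem y)), fun x y => ?_⟩
  have h1 := le_ad (D := fun x y => (Γ.D x y : ℝ)) (c := 1 / 2)
    (r := 1 + 2 * ∑ i ∈ I, (3 ^ d * Dn i : ℝ))
    (fun x y w hw => ANP.H61.pth Γ d hΓ.ok hΓ.one (fun x y => Nb x y) hΓ.nb I dd Dn
      (fun i _ B => hcard i B) hsum x y w hw) N₀ x y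
  have h2 : (Γ.D x y : ℝ) ≤ N₀ := by exact_mod_cast hD x y
  have h3 : (0 : ℝ) ≤ Γ.D x y := Nat.cast_nonneg _
  have h4 := cI_pos d Dn I
  have h5 : 1 / 2 * (Γ.D x y : ℝ) - (1 + 2 * ∑ i ∈ I, (3 ^ d * Dn i : ℝ)) ≤ N₀ := by
    unfold cI at h4; linarith
  rw [min_eq_right h5] at h1
  exact h1

/-- WWD with the alive distance, for every site -/
theorem wwd_ad {E e₀ k₀ : ℝ} {T : Cfg (Tor d M)} (he : 0 < e₀)
    (hm : ∀ x, 0 ≤ (T.s x : ℝ) * (T.mb x).im) {D : Tor d M → Tor d M → ℕ}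
    (hD0 : ∀ x, D x x = 0) (hDc : ∀ x y, D x y = D y x) (hDt : ∀ x y z, D x z ≤ D x y + D y z)
    (hD1 : ∀ x y, Nb x y → D x y ≤ 1) (hDd : ∀ x y, Nb x y → (T.s x = 0 ∨ T.s y = 0) → D x y = 0)
    (hk : 0 < k₀) (hk1 : k₀ ≤ 1) (hal : ∀ x, 0 < T.s x → k₀ ≤ kap e₀ T x) (a : Tor d M) :
    ∑ b, kap e₀ T b * (Real.exp (k₀ / (4 * d) * D a b) * ‖net E e₀ T a b‖ ^ 2) ≤
      2 * (net E e₀ T a a).im := by
  have hP : Plt (Hr (Vef T) E) (fun x => (D a x : ℝ)) (Al T) (2 * d) :=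
    plt_tor _ _ (fun x => Nat.cast_nonneg _) fun x y hxy hne => by
      have hne' : D a x ≠ D a y := fun h => hne (by rw [h])
      have h1 := hDt a x y
      have h2 := hDt a y x
      rw [hDc y x] at h2
      have halive : ¬ (T.s x = 0 ∨ T.s y = 0) := fun h => by
        have := hDd x y hxy h; omega
      push Not at halive
      have h3 := hD1 x y hxy
      refine ⟨?_, ?_, ?_⟩
      · unfold Al; rw [Finset.mem_filter]
        exact ⟨Finset.mem_univ _, pos_iff_ne_zero.2 halive.1⟩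
      · unfold Al; rw [Finset.mem_filter]
        exact ⟨Finset.mem_univ _, pos_iff_ne_zero.2 halive.2⟩
      · rw [abs_le]
        have h4 : (D a x : ℝ) ≤ D a y + 1 := by exact_mod_cast (by omega : D a x ≤ D a y + 1)
        have h5 : (D a y : ℝ) ≤ D a x + 1 := by exact_mod_cast (by omega : D a y ≤ D a x + 1)
        constructor <;> linarith
  have h1 := wwd (net_tor E e₀ T he hm) hP (by positivity : 0 ≤ k₀ / (8 * d)) (sinh_beta d hk hk1)
    (fun x hx => hal x (by unfold Al at hx; exact (Finset.mem_filter.1 hx).2)) (a := a)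
    (by simp [hD0 a])
  refine le_trans (le_of_eq ?_) h1
  refine Finset.sum_congr rfl fun b _ => ?_
  have e1 : k₀ / (4 * (d : ℝ)) * D a b = 2 * (k₀ / (8 * d)) * D a b := by
    rcases Nat.eq_zero_or_pos d with hd | hd
    · subst hd; simp
    · have hd' : (0 : ℝ) < d := by exact_mod_cast hd
      field_simp; ring
  rw [e1]; rfl

/-- THE WEIGHTS for the regauging. `β = c k₀ / (48 d)`; `S₀` bounds `∑ exp (- β D / 2)`. -/
theorem wts {Γ : Geo (Tor d M)} (hΓ : GeoF Γ) {E e₀ k₀ : ℝ} {T : Cfg (Tor d M)} (he : 0 < e₀)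
    (hm : ∀ x, 0 ≤ (T.s x : ℝ) * (T.mb x).im) {I : Finset ℕ} {Dn : ℕ → ℕ}
    (dens : ∃ dd : ℕ → Finset (Tor d M), (∀ x, T.s x = 0 → ∃ j ∈ I, x ∈ dd j) ∧
      ∀ j B, (dd j ∩ Γ.blk j B).card ≤ Dn j)
    (hsum : ∑ i ∈ I, (3 ^ d * Dn i : ℝ) / Γ.L i ≤ 1 / 4) (hd : 1 ≤ d)
    (hk : 0 < k₀) (hk1 : k₀ ≤ 1) (hal : ∀ x, 0 < T.s x → k₀ ≤ kap e₀ T x)
    {R : Finset (Tor d M)} {s ε c c₀ C₀ : ℝ}
    (hR : AGU.Run (net E e₀ T) (kap e₀ T) R T.mb s ε c c₀ C₀) {S₀ r₁ : ℝ}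
    (hS₀ : ∀ o, ∑ y, Real.exp (-(c * k₀ / (48 * d) / 2 * Γ.D o y)) ≤ S₀)
    (hr : Real.exp (-(c * k₀ / (48 * d) * (r₁ - cI d Dn I))) * S₀ ≤ 1) :
    Wts (net E e₀ T) R T.mb s c ((2 * (2 * (r₁ + cI d Dn I)) + 1) ^ d) := by
  obtain ⟨D, hD0, hDc, hDt, hD1, hDd, hDlow⟩ := alive_dist hΓ dens hsum
  have hd' : (1 : ℝ) ≤ d := by exact_mod_cast hd
  have hc0 := hR.hc.1
  have hβ : 0 < c * k₀ / (48 * d) := by positivity
  set β := c * k₀ / (48 * d) with hβdef
  refine ⟨fun o a => Real.exp (-(β * D o a)), fun o => Finset.univ.filter fun b =>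
    (D o b : ℝ) ≤ r₁, fun a b => Real.exp_pos _, fun a => by simp [hD0 a], ?_, fun o => ?_,
    fun o => ?_⟩
  · -- the weight condition
    have hW : ∀ a ∈ R, ∑ b, kap e₀ T b * ‖net E e₀ T a b‖ ^ 2 *
        Real.exp (k₀ / (4 * d) * (D a b : ℝ)) ≤ 3 * (T.mb a).im := fun a ha => by
      have h1 := wwd_ad (E := E) he hm hD0 hDc hDt hD1 hDd hk hk1 hal a
      have h2 : (net E e₀ T a a).im ≤ 5 / 4 * (T.mb a).im := by
        have h3 := hR.hμ a ha
        have h4 : |(net E e₀ T a a - T.mb a).im| ≤ ε := (Complex.abs_im_le_norm _).trans h3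
        rw [Complex.sub_im] at h4
        have h5 := (abs_le.1 h4).2
        have h6 := hR.hε.2
        have h7 := (hR.hm a ha).1
        linarith
      have h3 : 0 < (T.mb a).im := lt_of_lt_of_le hR.hc.2.2.1 (hR.hm a ha).1
      refine le_trans (le_of_eq ?_) (h1.trans (by linarith))
      exact Finset.sum_congr rfl fun b _ => by ring
    have h1 := Pool.Agent.AGU.H51.gcw (Tor d M) (net E e₀ T) (kap e₀ T) R T.mb s ε c c₀ C₀ β
      (k₀ / (4 * d)) 3 (fun a b => (D a b : ℝ)) hR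
      (fun a b => ⟨Nat.cast_nonneg _, by exact_mod_cast hDc a b⟩)
      (fun a => by exact_mod_cast hD0 a)
      (fun a b e => by
        have := hDt a e b
        exact_mod_cast this)
      hβ.le (by
        rw [hβdef]
        have h2 : c ≤ 1 := hR.hc.2.1
        rw [div_le_div_iff₀ (by positivity) (by positivity)]
        nlinarith [mul_pos hk (by positivity : (0 : ℝ) < d)])
      (by positivity) (by norm_num) hW
    intro o ho a ha
    have h2 := h1 o ho a ha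
    have h3 : β / (k₀ / (4 * d)) * 3 = c / 4 := by
      rw [hβdef]; field_simp; norm_num
    rw [h3] at h2
    exact h2
  · -- the number of sites
    have h1 : (Finset.univ.filter fun b => (D o b : ℝ) ≤ r₁) ⊆
        (Finset.univ.filter fun b => Γ.D o b ≤ ⌊2 * (r₁ + cI d Dn I)⌋₊) := fun b hb => by
      rw [Finset.mem_filter] at hb ⊢
      refine ⟨Finset.mem_univ _, Nat.le_floor ?_⟩
      have := hDlow o b
      linarith [hb.2]
    by_cases hneg : 0 ≤ r₁ + cI d Dn I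
    · have h2 := (Finset.card_le_card h1).trans (hΓ.ok.vol o ⌊2 * (r₁ + cI d Dn I)⌋₊)
      have h3 : (((Finset.univ.filter fun b => (D o b : ℝ) ≤ r₁) : Finset (Tor d M)).card : ℝ) ≤
          (2 * (⌊2 * (r₁ + cI d Dn I)⌋₊ : ℝ) + 1) ^ d := by exact_mod_cast h2
      refine h3.trans (pow_le_pow_left₀ (by positivity) ?_ d)
      have h4 : (⌊2 * (r₁ + cI d Dn I)⌋₊ : ℝ) ≤ 2 * (r₁ + cI d Dn I) :=
        Nat.floor_le (by linarith)
      linarith
    · exfalso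
      push Not at hneg
      have h2 : 1 ≤ Real.exp (-(β * (r₁ - cI d Dn I))) := by
        rw [← Real.exp_zero]
        apply Real.exp_le_exp.2
        have := cI_pos d Dn I
        nlinarith
      have h3 : 1 < Real.exp (-(β * (r₁ - cI d Dn I))) := by
        rw [← Real.exp_zero]
        apply Real.exp_lt_exp.2
        have := cI_pos d Dn I
        nlinarith
      have h4 : 1 ≤ S₀ := by
        refine le_trans ?_ (hS₀ o)
        have h5 : Real.exp (-(β / 2 * (Γ.D o o : ℝ))) ≤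
            ∑ y, Real.exp (-(β / 2 * (Γ.D o y : ℝ))) :=
          Finset.single_le_sum (f := fun y => Real.exp (-(β / 2 * (Γ.D o y : ℝ))))
            (fun y _ => (Real.exp_pos _).le) (Finset.mem_univ o)
        rw [hΓ.ok.self o] at h5
        simpa using h5
      nlinarith
  · -- the far part
    have h1 : ∀ b ∈ R \ (Finset.univ.filter fun b => (D o b : ℝ) ≤ r₁),
        Real.exp (-(β * (D o b : ℝ))) ^ 2 ≤ Real.exp (-(β * (r₁ - cI d Dn I))) *
          Real.exp (-(β / 2 * (Γ.D o b : ℝ))) := fun b hb => by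
      rw [Finset.mem_sdiff, Finset.mem_filter] at hb
      have h2 : r₁ < (D o b : ℝ) := by
        by_contra hcon
        exact hb.2 ⟨Finset.mem_univ _, not_lt.1 hcon⟩
      have h3 := hDlow o b
      rw [← Real.exp_nat_mul, ← Real.exp_add]
      apply Real.exp_le_exp.2
      push_cast
      nlinarith
    refine (Finset.sum_le_sum h1).trans ?_
    rw [← Finset.mul_sum]
    have h2 : ∑ b ∈ R \ (Finset.univ.filter fun b => (D o b : ℝ) ≤ r₁),
        Real.exp (-(β / 2 * (Γ.D o b : ℝ))) ≤ S₀ :=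
      (Finset.sum_le_univ_sum_of_nonneg fun b => (Real.exp_pos _).le).trans (hS₀ o)
    exact (mul_le_mul_of_nonneg_left h2 (Real.exp_pos _).le).trans hr

end Pool.Agent.ANR.H89
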