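import Pool.Agent.Helper89_FAR.Wgt
import Pool.Agent.Helper89_FAR.GeoT
import Pool.Agent.Helper61_AHH.Psi

/-!
# WWD: the weights for the regauging, with a power of the clock as the number of sites
-/

set_option autoImplicit false

open scoped BigOperators Matrix NNReal

noncomputable section

namespace Pool.Agent.ANR.H89

open Pool.Agent.ANR
open Pool.Agent.BED (Tor adj ev)
open Pool.Agent.ANP (Cfg Geo Fc)
open Pool.Agent.AND2B (Hr Vef kap net res Gt)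
open Pool.Agent.AHH (Env Al gg)

/-- sums of exponentials of the distance -/
def SumE {d M : ℕ} [NeZero M] (Γ : Geo (Tor d M)) : Prop :=
  ∀ β : ℝ, 0 < β → β ≤ 1 → ∀ o, ∑ y, Real.exp (-(β * Γ.D o y)) ≤ (24 * ((d : ℝ) + 1) / β) ^ d

theorem sumE_T (d μ J N : ℕ) (l r : ℕ → ℕ) : SumE (Gt d μ J N l r) := by
  intro β hβ hβ1 o
  have h1 := AHH.H61.site_sum d μ l (fun _ => ⌈1 / β⌉₊) J N 0
    (Nat.one_le_ceil_iff.2 (by positivity)) o
  have h2 : (1 : ℝ) ≤ 1 / β := by rw [le_div_iff₀ hβ]; linarith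
  have h3 : ((⌈1 / β⌉₊ : ℕ) : ℝ) ≤ 2 / β := by
    have := (Nat.ceil_lt_add_one (by positivity : (0 : ℝ) ≤ 1 / β)).le
    have h4 : 2 / β = 1 / β + 1 / β := by ring
    linarith
  refine le_trans (Finset.sum_le_sum fun y _ => ?_) (h1.trans ?_)
  · apply Real.exp_le_exp.2
    have h4 : 1 / β ≤ ((⌈1 / β⌉₊ : ℕ) : ℝ) := Nat.le_ceil _
    have h5 : (0 : ℝ) < ((⌈1 / β⌉₊ : ℕ) : ℝ) := lt_of_lt_of_le (by positivity) h4
    have h6 : (0 : ℝ) ≤ ((Gt d μ J N l r).D o y : ℝ) := Nat.cast_nonneg _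
    have h7 : 1 / ((⌈1 / β⌉₊ : ℕ) : ℝ) ≤ β := by
      rw [div_le_iff₀ h5]
      rw [div_le_iff₀ hβ] at h4
      linarith
    have h8 : ((Gt d μ J N l r).D o y : ℝ) / ((⌈1 / β⌉₊ : ℕ) : ℝ) ≤
        β * ((Gt d μ J N l r).D o y : ℝ) := by
      calc ((Gt d μ J N l r).D o y : ℝ) / ((⌈1 / β⌉₊ : ℕ) : ℝ) =
          1 / ((⌈1 / β⌉₊ : ℕ) : ℝ) * ((Gt d μ J N l r).D o y : ℝ) := by ring
        _ ≤ _ := mul_le_mul_of_nonneg_right h7 h6
    exact neg_le_neg h8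
  · refine pow_le_pow_left₀ (by positivity) ?_ d
    calc 12 * ((d : ℝ) + 1) * ((⌈1 / β⌉₊ : ℕ) : ℝ) ≤ 12 * ((d : ℝ) + 1) * (2 / β) :=
          mul_le_mul_of_nonneg_left h3 (by positivity)
      _ = _ := by ring

theorem Wts.mono {X : Type} [Fintype X] [DecidableEq X] {G : Matrix X X ℂ} {R : Finset X}
    {m : X → ℂ} {s c N N' : ℝ} (h : Wts G R m s c N) (hN : N ≤ N') : Wts G R m s c N' := by
  obtain ⟨e, B, h1, h2, h3, h4, h5⟩ := h
  exact ⟨e, B, h1, h2, h3, fun o => (h4 o).trans hN, h5⟩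

/-- THE WEIGHTS, with the number of sites `C s⁻ᶜ`: `s` a lower bound of the clocks of the alive sites,
`c₀` a lower bound of the gauge, `cI ≤ s⁻ᵖ` -/
theorem wts_s (d : ℕ) (hd : 1 ≤ d) (c c₀ p : ℝ) (hc : 0 < c) (hc1 : c ≤ 1) (hc₀ : 0 < c₀)
    (hc₀1 : c₀ ≤ 1) (hp : 2 ≤ p) :
    ∃ Cw : ℝ, 1 ≤ Cw ∧ ∀ (M : ℕ) [NeZero M] (Γ : Geo (Tor d M)), GeoF Γ → SumE Γ →
      ∀ (E e₀ : ℝ) (T : Cfg (Tor d M)) (I : Finset ℕ) (Dn : ℕ → ℕ) (R : Finset (Tor d M))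
        (s ε C₀ : ℝ), 0 < e₀ → 0 < s → s ≤ 1 →
        (∀ x, 0 < T.s x → s ≤ T.s x ∧ c₀ ≤ (T.mb x).im) →
        (∃ dd : ℕ → Finset (Tor d M), (∀ x, T.s x = 0 → ∃ j ∈ I, x ∈ dd j) ∧
          ∀ j B, (dd j ∩ Γ.blk j B).card ≤ Dn j) →
        ∑ i ∈ I, (3 ^ d * Dn i : ℝ) / Γ.L i ≤ 1 / 4 → cI d Dn I ≤ s ^ (-p) →
        AGU.Run (net E e₀ T) (kap e₀ T) R T.mb s ε c c₀ C₀ →
        1 ≤ Cw * s ^ (-Cw) ∧ Wts (net E e₀ T) R T.mb s c (Cw * s ^ (-Cw)) := by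
  have hd' : (1 : ℝ) ≤ d := by exact_mod_cast hd
  set K : ℝ := 24 * ((d : ℝ) + 1) with hK
  set b₁ : ℝ := c * c₀ / (48 * d) with hb₁
  have hK0 : 0 < K := by positivity
  have hb0 : 0 < b₁ := by positivity
  set A : ℝ := 8 + 8 * (d * K / b₁ ^ 2) + 1 with hA
  have hA1 : 1 ≤ A := by
    have : 0 ≤ d * K / b₁ ^ 2 := by positivity
    linarith
  set Cw : ℝ := max (A ^ d) (d * p) with hCw
  have hCw1 : 1 ≤ Cw := le_trans (one_le_pow₀ hA1) (le_max_left _ _)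
  refine ⟨Cw, hCw1, ?_⟩
  intro M _ Γ hΓ hSE E e₀ T I Dn R s ε C₀ he hs hs1 hT dens hsum hcI hR
  have hm : ∀ x, 0 ≤ (T.s x : ℝ) * (T.mb x).im := fun x => by
    rcases eq_or_lt_of_le (zero_le (a := T.s x)) with h | h
    · rw [← h]; simp
    · exact mul_nonneg (NNReal.coe_nonneg _) (hc₀.le.trans (hT x h).2)
  have hk0 : 0 < c₀ * s := by positivity
  have hk1 : c₀ * s ≤ 1 := by nlinarith
  have hal : ∀ x, 0 < T.s x → c₀ * s ≤ kap e₀ T x := fun x hx => by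
    obtain ⟨h1, h2⟩ := hT x hx
    have h3 : c₀ * s ≤ (T.s x : ℝ) * (T.mb x).im := by nlinarith
    unfold kap
    linarith
  have hβ : c * (c₀ * s) / (48 * d) = b₁ * s := by rw [hb₁]; ring
  have hβ0 : 0 < b₁ * s := by positivity
  have hb₁1 : b₁ ≤ 1 := by
    rw [hb₁, div_le_one (by positivity)]
    nlinarith
  have hβ1 : b₁ * s ≤ 1 := by nlinarith
  have hcI1 := cI_pos d Dn I
  set S₀ : ℝ := (K / (b₁ * s / 2)) ^ d with hS₀
  have hy : 1 ≤ K / (b₁ * s / 2) := by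
    rw [le_div_iff₀ (by positivity)]
    have : (24 : ℝ) ≤ K := by rw [hK]; linarith
    linarith
  have hS1 : 1 ≤ S₀ := one_le_pow₀ hy
  set r₁ : ℝ := cI d Dn I + 1 / (b₁ * s) * Real.log S₀ with hr₁
  have hr : Real.exp (-(c * (c₀ * s) / (48 * d) * (r₁ - cI d Dn I))) * S₀ ≤ 1 := by
    rw [hβ, hr₁]
    have h1 : b₁ * s * (cI d Dn I + 1 / (b₁ * s) * Real.log S₀ - cI d Dn I) = Real.log S₀ := by
      field_simp
      ring
    rw [h1, Real.exp_neg, Real.exp_log (by linarith)]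
    rw [inv_mul_cancel₀ (by linarith)]
  have hw := wts (E := E) hΓ he hm dens hsum hd hk0 hk1 hal hR (S₀ := S₀) (r₁ := r₁)
    (fun o => by
      rw [hβ]
      have := hSE (b₁ * s / 2) (by positivity) (by linarith) o
      rw [hS₀, hK]
      exact this) hr
  have hsp : ∀ q : ℝ, 0 ≤ q → 1 ≤ s ^ (-q) := fun q hq => by
    rw [Real.rpow_neg hs.le]
    exact (one_le_inv₀ (Real.rpow_pos_of_pos hs _)).2 (Real.rpow_le_one hs.le hs1 hq)
  have h2 : (1 : ℝ) / s ^ 2 ≤ s ^ (-p) := by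
    rw [Real.rpow_neg hs.le, one_div]
    apply inv_anti₀ (Real.rpow_pos_of_pos hs _)
    rw [← Real.rpow_natCast]
    exact Real.rpow_le_rpow_of_exponent_ge hs hs1 (by push_cast; exact hp)
  have hlog : Real.log S₀ ≤ d * (2 * K / (b₁ * s)) := by
    rw [hS₀, Real.log_pow]
    have h3 : Real.log (K / (b₁ * s / 2)) ≤ K / (b₁ * s / 2) - 1 :=
      Real.log_le_sub_one_of_pos (by linarith)
    have h4 : K / (b₁ * s / 2) = 2 * K / (b₁ * s) := by field_simp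
    rw [h4] at h3
    have h5 : Real.log (K / (b₁ * s / 2)) ≤ 2 * K / (b₁ * s) := by rw [h4]; linarith
    exact mul_le_mul_of_nonneg_left h5 (by positivity)
  have hlog0 : 0 ≤ Real.log S₀ := Real.log_nonneg hS1
  have hr2 : 1 / (b₁ * s) * Real.log S₀ ≤ 2 * (d * K / b₁ ^ 2) * s ^ (-p) := by
    calc 1 / (b₁ * s) * Real.log S₀ ≤ 1 / (b₁ * s) * (d * (2 * K / (b₁ * s))) :=
          mul_le_mul_of_nonneg_left hlog (by positivity)
      _ = 2 * (d * K / b₁ ^ 2) * (1 / s ^ 2) := by field_simp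
      _ ≤ 2 * (d * K / b₁ ^ 2) * s ^ (-p) := mul_le_mul_of_nonneg_left h2 (by positivity)
  have hs_p := hsp p (by linarith)
  have hbase : 2 * (2 * (r₁ + cI d Dn I)) + 1 ≤ A * s ^ (-p) := by
    rw [hr₁, hA]
    have h5 : 0 ≤ d * K / b₁ ^ 2 := by positivity
    nlinarith [mul_nonneg h5 (by linarith : (0 : ℝ) ≤ s ^ (-p))]
  have hr0 : 0 ≤ r₁ := by rw [hr₁]; positivity
  have hN : (2 * (2 * (r₁ + cI d Dn I)) + 1) ^ d ≤ Cw * s ^ (-Cw) := by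
    calc (2 * (2 * (r₁ + cI d Dn I)) + 1) ^ d ≤ (A * s ^ (-p)) ^ d :=
          pow_le_pow_left₀ (by linarith) hbase d
      _ = A ^ d * s ^ (-(d * p)) := by
          rw [mul_pow, ← Real.rpow_natCast (s ^ (-p)) d, ← Real.rpow_mul hs.le]
          congr 2; ring
      _ ≤ Cw * s ^ (-Cw) := by
          refine mul_le_mul (le_max_left _ _) ?_ (Real.rpow_nonneg hs.le _) (by linarith)
          exact Real.rpow_le_rpow_of_exponent_ge hs hs1 (neg_le_neg (le_max_right _ _))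
  refine ⟨?_, hw.mono hN⟩
  have := hsp Cw (by linarith)
  nlinarith

end Pool.Agent.ANR.H89
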